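import Pool.Agent.H57.QY.Core

/-!
# Exact families of n-queens patterns: the check of a pair of arcs
-/

set_option autoImplicit false

namespace Pool.Agent.H57.QY

/-- the rows of the arc `A` with the values of `G` -/
def Row (P S : ℤ) (A : Arc) (t i g : ℤ) : Prop :=
  ∃ s : ℤ, 0 ≤ s ∧ s < A.L.ev t ∧ i = A.i.ev t + P * s ∧ g = A.G.ev t + S * s

/-- the colour `c` has no queen in a column `< n - d` of a row with the value `g` -/
def Free (n c g d : ℤ) : Prop := ∀ q : ℤ, ¬ (g + q * n ≤ c ∧ c < g + q * n + n - d)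

/-- no `c` in `[U, W)` lies in `g + q n + [0, n - d)` -/
def fOK (C : Ctx) (U W g d : Aff) (q : ℤ) : Bool :=
  nonneg C ((g.add (Aff.smul q C.n)).sub W) || nonneg C (((U.sub g).sub (Aff.smul (q + 1) C.n)).add d)

def intOK (C : Ctx) (U W g d : Aff) : Bool :=
  let q0 := (U.a - g.a) / C.n.a
  fOK C U W g d q0 && fOK C U W g d (q0 - 1) && fOK C U W g d (q0 + 1) &&
    nonneg C ((g.add (Aff.smul (q0 + 2) C.n)).sub W) &&
    nonneg C (((U.sub g).sub (Aff.smul (q0 - 1) C.n)).add d)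

lemma intOK_sound {C : Ctx} {U W g d : Aff} (h : intOK C U W g d = true) {t : ℤ} (ht : C.t0 ≤ t)
    (hn : 0 ≤ C.n.ev t) {c : ℤ} (hU : U.ev t ≤ c) (hW : c < W.ev t) : Free (C.n.ev t) c (g.ev t) (d.ev t) := by
  intro q hq
  simp only [intOK, Bool.and_eq_true] at h
  obtain ⟨⟨⟨⟨ha, hb⟩, hc⟩, hd⟩, he⟩ := h
  set q0 := (U.a - g.a) / C.n.a with hq0
  have key : ∀ q' : ℤ, fOK C U W g d q' = true → q ≠ q' := by
    intro q' hf hqq
    subst hqq
    simp only [fOK, Bool.or_eq_true] at hf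
    rcases hf with hf | hf
    · have h4 := nonneg_sound hf ht
      simp only [Aff.ev_add, Aff.ev_sub, Aff.ev_smul] at h4
      linarith [hq.1]
    · have h4 := nonneg_sound hf ht
      simp only [Aff.ev_add, Aff.ev_sub, Aff.ev_smul] at h4
      have h5 := hq.2
      nlinarith
  have h1 := key _ ha
  have h2 := key _ hb
  have h3 := key _ hc
  rcases lt_or_ge q (q0 - 1) with h5 | h5
  · have h4 := nonneg_sound he ht
    simp only [Aff.ev_add, Aff.ev_sub, Aff.ev_smul] at h4
    have h6 : q + 1 ≤ q0 - 1 := by omega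
    nlinarith [mul_le_mul_of_nonneg_right h6 hn, hq.2]
  · have h7 : q0 + 2 ≤ q := by omega
    have h4 := nonneg_sound hd ht
    simp only [Aff.ev_add, Aff.ev_sub, Aff.ev_smul] at h4
    nlinarith [mul_le_mul_of_nonneg_right h7 hn, hq.1]

/-- no colour `c + a k`, `u ≤ c < w`, `(u, w)` in the list -/
def colsOK (C : Ctx) (ints : List (Aff × Aff)) (g d : Aff) : Bool :=
  ints.all fun p => intOK C p.1 p.2 g d && intOK C (p.1.add C.k) (p.2.add C.k) g d &&
    intOK C (p.1.add (Aff.smul 2 C.k)) (p.2.add (Aff.smul 2 C.k)) g d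

/-- the colours of the list of intervals -/
def Col (C : Ctx) (ints : List (Aff × Aff)) (t c : ℤ) : Prop :=
  ∃ p ∈ ints, ∃ a : ℤ, (a = 0 ∨ a = 1 ∨ a = 2) ∧ p.1.ev t + a * C.k.ev t ≤ c ∧ c < p.2.ev t + a * C.k.ev t

lemma colsOK_sound {C : Ctx} {ints : List (Aff × Aff)} {g d : Aff} (h : colsOK C ints g d = true) {t : ℤ}
    (ht : C.t0 ≤ t) (hn : 0 ≤ C.n.ev t) {c : ℤ} (hc : Col C ints t c) :
    Free (C.n.ev t) c (g.ev t) (d.ev t) := by
  obtain ⟨p, hp, a, ha, h1, h2⟩ := hc
  simp only [colsOK, List.all_eq_true, Bool.and_eq_true] at h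
  obtain ⟨⟨h3, h4⟩, h5⟩ := h p hp
  rcases ha with rfl | rfl | rfl
  · exact intOK_sound h3 ht hn (by linarith) (by linarith)
  · refine intOK_sound h4 ht hn ?_ ?_
    · simp only [Aff.ev_add]; linarith
    · simp only [Aff.ev_add]; linarith
  · refine intOK_sound h5 ht hn ?_ ?_
    · simp only [Aff.ev_add, Aff.ev_smul]; linarith
    · simp only [Aff.ev_add, Aff.ev_smul]; linarith

def single (A : Arc) : Bool := decide (A.L = ⟨0, 1⟩)

/-- a collision of `i + G` of two single rows which no colour sees -/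
def excP (C : Ctx) (ints : List (Aff × Aff)) (A B : Arc) : Bool :=
  single A && single B &&
    ((nonneg C (A.i.sub B.i) && colsOK C ints B.G (A.i.sub B.i)) ||
      (nonneg C (B.i.sub A.i) && colsOK C ints A.G (B.i.sub A.i)))

/-- a collision of `i - G` of two single rows which no colour sees -/
def excM (C : Ctx) (ints : List (Aff × Aff)) (A B : Arc) : Bool :=
  single A && single B &&
    ((nonneg C (A.i.sub B.i) && colsOK C ints A.G (A.i.sub B.i)) ||
      (nonneg C (B.i.sub A.i) && colsOK C ints B.G (B.i.sub A.i)))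

def rowsOK (C : Ctx) (A B : Arc) : Bool :=
  ndiv C.P (A.i.sub B.i) || pos C ((A.i.sub B.i).sub (Aff.smul C.P (B.L.sub (Aff.cst 1)))) ||
    pos C ((Aff.smul (-C.P) (A.L.sub (Aff.cst 1))).sub (A.i.sub B.i))

def chk (C : Ctx) (ints : List (Aff × Aff)) (A B : Arc) : Bool :=
  rowsOK C A B && pairS C C.S (A.G.sub B.G) A.L B.L &&
    (pairS C (C.S + C.P) ((A.G.add A.i).sub (B.G.add B.i)) A.L B.L || excP C ints A B) &&
    (pairS C (C.S - C.P) ((A.G.sub A.i).sub (B.G.sub B.i)) A.L B.L || excM C ints A B)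

/-- two rows with the values `g`, `g'` are compatible for the colour `c` -/
structure Cmp (n c i g i' g' : ℤ) : Prop where
  row : i ≠ i'
  col : ∀ q : ℤ, g - g' ≠ q * n
  dia : ∀ j j' : ℤ, 0 ≤ j → j < n → 0 ≤ j' → j' < n → (∃ q, j = c - g + q * n) → (∃ q, j' = c - g' + q * n) →
    i - j ≠ i' - j' ∧ i + j ≠ i' + j'

lemma Cmp.symm {n c i g i' g' : ℤ} (h : Cmp n c i g i' g') : Cmp n c i' g' i g where
  row := h.row.symm
  col := fun q hq => h.col (-q) (by linarith)
  dia := fun j j' h0 h1 h2 h3 h4 h5 =>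
    ⟨fun he => (h.dia j' j h2 h3 h0 h1 h5 h4).1 he.symm, fun he => (h.dia j' j h2 h3 h0 h1 h5 h4).2 he.symm⟩

lemma dia_plus {n c i g i' g' j j' : ℤ} (h : ∀ q : ℤ, (g + i) - (g' + i') ≠ q * n)
    (h4 : ∃ q, j = c - g + q * n) (h5 : ∃ q, j' = c - g' + q * n) : i - j ≠ i' - j' := by
  intro he
  obtain ⟨q, hq⟩ := h4
  obtain ⟨q', hq'⟩ := h5
  exact h (q - q') (by rw [sub_mul]; linarith)

lemma dia_minus {n c i g i' g' j j' : ℤ} (h : ∀ q : ℤ, (g - i) - (g' - i') ≠ q * n)
    (h4 : ∃ q, j = c - g + q * n) (h5 : ∃ q, j' = c - g' + q * n) : i + j ≠ i' + j' := by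
  intro he
  obtain ⟨q, hq⟩ := h4
  obtain ⟨q', hq'⟩ := h5
  exact h (q - q') (by rw [sub_mul]; linarith)

/-- a collision of `i + G`, `i ≥ i'`, is seen only by the colours in `g' + [0, n - (i - i'))` -/
lemma free_plus {n c i i' g' j j' : ℤ} (hf : Free n c g' (i - i')) (h1 : j < n) (h2 : 0 ≤ j')
    (h5 : ∃ q, j' = c - g' + q * n) : i - j ≠ i' - j' := by
  intro he
  obtain ⟨q', hq'⟩ := h5
  refine hf (-q') ⟨by linarith, by linarith⟩

/-- a collision of `i - G`, `i ≥ i'`, is seen only by the colours in `g + [0, n - (i - i'))` -/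
lemma free_minus {n c i g i' j j' : ℤ} (hf : Free n c g (i - i')) (h0 : 0 ≤ j) (h3 : j' < n)
    (h4 : ∃ q, j = c - g + q * n) : i + j ≠ i' + j' := by
  intro he
  obtain ⟨q', hq'⟩ := h4
  refine hf (-q') ⟨by linarith, by linarith⟩

lemma single_row {P S : ℤ} {A : Arc} (h : single A = true) {t i g : ℤ} (hr : Row P S A t i g) :
    i = A.i.ev t ∧ g = A.G.ev t := by
  simp only [single, decide_eq_true_eq] at h
  obtain ⟨s, h0, h1, h2, h3⟩ := hr
  rw [h] at h1
  simp only [Aff.ev] at h1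
  have h4 : s < 1 := by linarith
  obtain rfl : s = 0 := by omega
  exact ⟨by rw [h2, mul_zero, add_zero], by rw [h3, mul_zero, add_zero]⟩

lemma chk_rows {C : Ctx} (hP : 0 < C.P) {ints : List (Aff × Aff)} {A B : Arc} (h : chk C ints A B = true) {t : ℤ}
    (ht : C.t0 ≤ t) {i g i' g' : ℤ} (hA : Row C.P C.S A t i g) (hB : Row C.P C.S B t i' g') : i ≠ i' := by
  simp only [chk, Bool.and_eq_true] at h
  have hr := h.1.1.1
  obtain ⟨s, h0, h1, h2, h3⟩ := hA
  obtain ⟨s', h0', h1', h2', h3'⟩ := hB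
  intro he
  have he1 : A.i.ev t - B.i.ev t = C.P * (s' - s) := by rw [mul_sub]; linarith
  simp only [rowsOK, Bool.or_eq_true] at hr
  rcases hr with (hr | hr) | hr
  · apply ndiv_sound hr t
    simp only [Aff.ev_sub]
    rw [he1]
    exact dvd_mul_right _ _
  · have h4 := pos_sound hr ht
    simp only [Aff.ev_sub, Aff.ev_smul, Aff.ev_cst] at h4
    have h5 := mul_le_mul_of_nonneg_left (show s' - s ≤ B.L.ev t - 1 by omega) hP.le
    linarith
  · have h4 := pos_sound hr ht
    simp only [Aff.ev_sub, Aff.ev_smul, Aff.ev_cst] at h4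
    have h5 := mul_le_mul_of_nonneg_left (show -(A.L.ev t - 1) ≤ s' - s by omega) hP.le
    linarith [mul_neg C.P (A.L.ev t - 1), neg_mul C.P (A.L.ev t - 1)]

theorem chk_sound {C : Ctx} (hP : 0 < C.P) {ints : List (Aff × Aff)} {A B : Arc} (h : chk C ints A B = true) {t : ℤ}
    (ht : C.t0 ≤ t) (hn : 0 ≤ C.n.ev t) {c : ℤ} (hc : Col C ints t c) {i g i' g' : ℤ} (hA : Row C.P C.S A t i g)
    (hB : Row C.P C.S B t i' g') : Cmp (C.n.ev t) c i g i' g' := by
  have hrow := chk_rows hP h ht hA hB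
  simp only [chk, Bool.and_eq_true, Bool.or_eq_true] at h
  obtain ⟨⟨⟨hr, hv⟩, hp⟩, hm⟩ := h
  have hA' := hA
  have hB' := hB
  obtain ⟨s, h0, h1, h2, h3⟩ := hA
  obtain ⟨s', h0', h1', h2', h3'⟩ := hB
  refine ⟨hrow, ?_, ?_⟩
  · intro q hq
    refine pairS_sound hv ht hn h0 h1 h0' h1' (-q) ?_
    simp only [Aff.ev_sub]
    linear_combination (exp := 1) -h3 + h3' + hq
  · intro j j' hj0 hj1 hj0' hj1' hj hj'
    refine ⟨?_, ?_⟩
    · rcases hp with hp | hp
      · refine dia_plus ?_ hj hj'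
        intro q hq
        refine pairS_sound hp ht hn h0 h1 h0' h1' (-q) ?_
        simp only [Aff.ev_sub, Aff.ev_add]
        linear_combination -h3 + h3' - h2 + h2' + hq
      · simp only [excP, Bool.and_eq_true, Bool.or_eq_true] at hp
        obtain ⟨⟨hsA, hsB⟩, hp⟩ := hp
        obtain ⟨e1, e2⟩ := single_row hsA hA'
        obtain ⟨e3, e4⟩ := single_row hsB hB'
        rcases hp with ⟨_, hp⟩ | ⟨_, hp⟩
        · have hf := colsOK_sound hp ht hn hc
          simp only [Aff.ev_sub] at hf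
          rw [← e1, ← e3, ← e4] at hf
          exact free_plus hf hj1 hj0' hj'
        · have hf := colsOK_sound hp ht hn hc
          simp only [Aff.ev_sub] at hf
          rw [← e1, ← e3, ← e2] at hf
          exact fun he => free_plus hf hj1' hj0 hj he.symm
    · rcases hm with hm | hm
      · refine dia_minus ?_ hj hj'
        intro q hq
        refine pairS_sound hm ht hn h0 h1 h0' h1' (-q) ?_
        simp only [Aff.ev_sub]
        linear_combination -h3 + h3' + h2 - h2' + hq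
      · simp only [excM, Bool.and_eq_true, Bool.or_eq_true] at hm
        obtain ⟨⟨hsA, hsB⟩, hm⟩ := hm
        obtain ⟨e1, e2⟩ := single_row hsA hA'
        obtain ⟨e3, e4⟩ := single_row hsB hB'
        rcases hm with ⟨_, hm⟩ | ⟨_, hm⟩
        · have hf := colsOK_sound hm ht hn hc
          simp only [Aff.ev_sub] at hf
          rw [← e1, ← e3, ← e2] at hf
          exact free_minus hf hj0 hj1' hj
        · have hf := colsOK_sound hm ht hn hc
          simp only [Aff.ev_sub] at hf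
          rw [← e1, ← e3, ← e4] at hf
          exact fun he => free_minus hf hj0' hj1 hj' he.symm

end Pool.Agent.H57.QY
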