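import Mathlib

/-!
# Exact families of n-queens patterns: affine forms and arcs

The board has `n = 3 k` rows, `k = K t + rho`.  All data are affine in `t`.  An arc is a set of rows `i = i0 + P s`,
`0 ≤ s < L`, with `G i = phi i + k h = G0 + S s`; the numbers `phi i` are given by another list of arcs (the base).
The pattern of the colour `c` has the column `c - G i mod n` in the row `i`.
-/

set_option autoImplicit false

namespace Pool.Agent.H57.QY

/-- the affine form `a * t + b` -/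
structure Aff where
  a : ℤ
  b : ℤ
deriving DecidableEq

namespace Aff

def ev (x : Aff) (t : ℤ) : ℤ := x.a * t + x.b
def add (x y : Aff) : Aff := ⟨x.a + y.a, x.b + y.b⟩
def sub (x y : Aff) : Aff := ⟨x.a - y.a, x.b - y.b⟩
def smul (m : ℤ) (x : Aff) : Aff := ⟨m * x.a, m * x.b⟩
def cst (m : ℤ) : Aff := ⟨0, m⟩

@[simp] lemma ev_add (x y : Aff) (t : ℤ) : (x.add y).ev t = x.ev t + y.ev t := by
  simp only [ev, add]; ring
@[simp] lemma ev_sub (x y : Aff) (t : ℤ) : (x.sub y).ev t = x.ev t - y.ev t := by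
  simp only [ev, sub]; ring
@[simp] lemma ev_smul (m : ℤ) (x : Aff) (t : ℤ) : (smul m x).ev t = m * x.ev t := by
  simp only [ev, smul]; ring
@[simp] lemma ev_cst (m : ℤ) (t : ℤ) : (cst m).ev t = m := by
  simp only [ev, cst]; ring

end Aff

/-- the parameters: `k = K t + rho`, `t ≥ t0`, the step `P` of the rows and the step `S` of `G` on the arcs -/
structure Ctx where
  t0 : ℤ
  K : ℤ
  rho : ℤ
  P : ℤ
  S : ℤ

def Ctx.k (C : Ctx) : Aff := ⟨C.K, C.rho⟩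
def Ctx.n (C : Ctx) : Aff := ⟨3 * C.K, 3 * C.rho⟩

lemma Ctx.n_ev (C : Ctx) (t : ℤ) : C.n.ev t = 3 * C.k.ev t := by
  simp only [Ctx.n, Ctx.k, Aff.ev]; ring

def nonneg (C : Ctx) (x : Aff) : Bool := decide (0 ≤ x.a) && decide (0 ≤ x.a * C.t0 + x.b)
def pos (C : Ctx) (x : Aff) : Bool := decide (0 ≤ x.a) && decide (0 < x.a * C.t0 + x.b)

lemma nonneg_sound {C : Ctx} {x : Aff} (h : nonneg C x = true) {t : ℤ} (ht : C.t0 ≤ t) :
    0 ≤ x.ev t := by
  simp only [nonneg, Bool.and_eq_true, decide_eq_true_eq] at h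
  simp only [Aff.ev]
  nlinarith [mul_nonneg h.1 (sub_nonneg.mpr ht)]

lemma pos_sound {C : Ctx} {x : Aff} (h : pos C x = true) {t : ℤ} (ht : C.t0 ≤ t) :
    0 < x.ev t := by
  simp only [pos, Bool.and_eq_true, decide_eq_true_eq] at h
  simp only [Aff.ev]
  nlinarith [mul_nonneg h.1 (sub_nonneg.mpr ht)]

/-- `m` never divides `x` -/
def ndiv (m : ℤ) (x : Aff) : Bool := decide (x.b % (Int.gcd m x.a : ℤ) ≠ 0)

lemma ndiv_sound {m : ℤ} {x : Aff} (h : ndiv m x = true) (t : ℤ) : ¬ m ∣ x.ev t := by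
  simp only [ndiv, decide_eq_true_eq] at h
  intro hd
  have h1 : (Int.gcd m x.a : ℤ) ∣ x.a := Int.gcd_dvd_right _ _
  have h0 : (Int.gcd m x.a : ℤ) ∣ m := Int.gcd_dvd_left _ _
  have h2 : (Int.gcd m x.a : ℤ) ∣ x.b := by
    have h3 : x.b = x.ev t - x.a * t := by simp only [Aff.ev]; ring
    rw [h3]
    exact dvd_sub (h0.trans hd) (Dvd.dvd.mul_right h1 t)
  exact h (Int.emod_eq_zero_of_dvd h2)

/-- an arc of rows -/
structure Arc where
  i : Aff
  L : Aff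
  h : ℤ
  G : Aff

/-- `x + q n = m (s' - s)` has no solution with `0 ≤ s < LA`, `0 ≤ s' < LB`, for this `q` -/
def qOK (C : Ctx) (m : ℤ) (x LA LB : Aff) (q : ℤ) : Bool :=
  let e := x.add (Aff.smul q C.n)
  ndiv m e || pos C (e.sub (Aff.smul m (LB.sub (Aff.cst 1)))) ||
    pos C ((Aff.smul (-m) (LA.sub (Aff.cst 1))).sub e)

def hiOK (C : Ctx) (m : ℤ) (x LB : Aff) (q : ℤ) : Bool :=
  pos C ((x.add (Aff.smul q C.n)).sub (Aff.smul m (LB.sub (Aff.cst 1))))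

def loOK (C : Ctx) (m : ℤ) (x LA : Aff) (q : ℤ) : Bool :=
  pos C ((Aff.smul (-m) (LA.sub (Aff.cst 1))).sub (x.add (Aff.smul q C.n)))

/-- a common divisor of `m` and `n` never divides `x` -/
def quickOK (C : Ctx) (m : ℤ) (x : Aff) : Bool :=
  ndiv (Int.gcd m (Int.gcd C.n.a C.n.b : ℤ) : ℤ) x

lemma quickOK_sound {C : Ctx} {m : ℤ} {x : Aff} (h : quickOK C m x = true) (t q d : ℤ) :
    x.ev t + q * C.n.ev t ≠ m * d := by
  intro he
  refine ndiv_sound h t ?_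
  have h1 : ((Int.gcd m (Int.gcd C.n.a C.n.b : ℤ) : ℕ) : ℤ) ∣ m := Int.gcd_dvd_left _ _
  have h2 : ((Int.gcd m (Int.gcd C.n.a C.n.b : ℤ) : ℕ) : ℤ) ∣ (Int.gcd C.n.a C.n.b : ℤ) := Int.gcd_dvd_right _ _
  have h3 : ((Int.gcd m (Int.gcd C.n.a C.n.b : ℤ) : ℕ) : ℤ) ∣ C.n.ev t := by
    simp only [Aff.ev]
    exact dvd_add (Dvd.dvd.mul_right (h2.trans (Int.gcd_dvd_left _ _)) t) (h2.trans (Int.gcd_dvd_right _ _))
  have h4 : x.ev t = m * d - q * C.n.ev t := by linear_combination he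
  rw [h4]
  exact dvd_sub (Dvd.dvd.mul_right h1 d) (Dvd.dvd.mul_left h3 q)

/-- the same for all `q` -/
def pairOK (C : Ctx) (m : ℤ) (x LA LB : Aff) : Bool :=
  let q0 := -(x.a / C.n.a)
  quickOK C m x || (qOK C m x LA LB q0 && qOK C m x LA LB (q0 - 1) &&
    (hiOK C m x LB (q0 + 1) || (qOK C m x LA LB (q0 + 1) && hiOK C m x LB (q0 + 2))) &&
    (loOK C m x LA (q0 - 2) || (qOK C m x LA LB (q0 - 2) && loOK C m x LA (q0 - 3))))

lemma qOK_sound {C : Ctx} {m : ℤ} {x LA LB : Aff} {q : ℤ} (h : qOK C m x LA LB q = true) (hm : 0 < m)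
    {t : ℤ} (ht : C.t0 ≤ t) {s s' : ℤ} (h0 : 0 ≤ s) (h1 : s < LA.ev t) (h2 : 0 ≤ s') (h3 : s' < LB.ev t) :
    x.ev t + q * C.n.ev t ≠ m * (s' - s) := by
  intro he
  simp only [qOK, Bool.or_eq_true] at h
  rcases h with (h | h) | h
  · apply ndiv_sound h t
    simp only [Aff.ev_add, Aff.ev_smul]
    rw [he]
    exact dvd_mul_right _ _
  · have h4 := pos_sound h ht
    simp only [Aff.ev_add, Aff.ev_sub, Aff.ev_smul, Aff.ev_cst] at h4
    nlinarith [mul_le_mul_of_nonneg_left (show s' - s ≤ LB.ev t - 1 by omega) hm.le]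
  · have h4 := pos_sound h ht
    simp only [Aff.ev_add, Aff.ev_sub, Aff.ev_smul, Aff.ev_cst] at h4
    nlinarith [mul_le_mul_of_nonneg_left (show -(LA.ev t - 1) ≤ s' - s by omega) hm.le]

lemma hiOK_sound {C : Ctx} {m : ℤ} {x LB : Aff} {q0 : ℤ} (h : hiOK C m x LB q0 = true) (hm : 0 < m)
    {t : ℤ} (ht : C.t0 ≤ t) (hn : 0 ≤ C.n.ev t) {q s s' : ℤ} (hq : q0 ≤ q) (h0 : 0 ≤ s) (h3 : s' < LB.ev t) :
    x.ev t + q * C.n.ev t ≠ m * (s' - s) := by
  intro he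
  have h4 := pos_sound h ht
  simp only [Aff.ev_add, Aff.ev_sub, Aff.ev_smul, Aff.ev_cst] at h4
  nlinarith [mul_le_mul_of_nonneg_left (show s' - s ≤ LB.ev t - 1 by omega) hm.le,
    mul_le_mul_of_nonneg_right hq hn]

lemma loOK_sound {C : Ctx} {m : ℤ} {x LA : Aff} {q0 : ℤ} (h : loOK C m x LA q0 = true) (hm : 0 < m)
    {t : ℤ} (ht : C.t0 ≤ t) (hn : 0 ≤ C.n.ev t) {q s s' : ℤ} (hq : q ≤ q0) (h2 : 0 ≤ s') (h3 : s < LA.ev t) :
    x.ev t + q * C.n.ev t ≠ m * (s' - s) := by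
  intro he
  have h4 := pos_sound h ht
  simp only [Aff.ev_add, Aff.ev_sub, Aff.ev_smul, Aff.ev_cst] at h4
  nlinarith [mul_le_mul_of_nonneg_left (show -(LA.ev t - 1) ≤ s' - s by omega) hm.le,
    mul_le_mul_of_nonneg_right hq hn]

lemma pairOK_sound {C : Ctx} {m : ℤ} {x LA LB : Aff} (h : pairOK C m x LA LB = true) (hm : 0 < m)
    {t : ℤ} (ht : C.t0 ≤ t) (hn : 0 ≤ C.n.ev t) {s s' : ℤ} (h0 : 0 ≤ s) (h1 : s < LA.ev t) (h2 : 0 ≤ s')
    (h3 : s' < LB.ev t) (q : ℤ) : x.ev t + q * C.n.ev t ≠ m * (s' - s) := by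
  simp only [pairOK, Bool.and_eq_true, Bool.or_eq_true] at h
  rcases h with h | h
  · exact quickOK_sound h t q (s' - s)
  obtain ⟨⟨⟨ha, hb⟩, hc⟩, hd⟩ := h
  set q0 := -(x.a / C.n.a) with hq0
  rcases lt_trichotomy q q0 with hlt | heq | hgt
  · rcases lt_or_ge q (q0 - 1) with h4 | h4
    · rcases hd with hd | ⟨hd, hd'⟩
      · exact loOK_sound hd hm ht hn (by omega) h2 h1
      · rcases lt_or_ge q (q0 - 2) with h5 | h5
        · exact loOK_sound hd' hm ht hn (by omega) h2 h1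
        · obtain rfl : q = q0 - 2 := by omega
          exact qOK_sound hd hm ht h0 h1 h2 h3
    · obtain rfl : q = q0 - 1 := by omega
      exact qOK_sound hb hm ht h0 h1 h2 h3
  · rw [heq]
    exact qOK_sound ha hm ht h0 h1 h2 h3
  · rcases hc with hc | ⟨hc, hc'⟩
    · exact hiOK_sound hc hm ht hn (by omega) h0 h3
    · rcases lt_or_ge q (q0 + 2) with h5 | h5
      · obtain rfl : q = q0 + 1 := by omega
        exact qOK_sound hc hm ht h0 h1 h2 h3
      · exact hiOK_sound hc' hm ht hn (by omega) h0 h3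

/-- the same with a step `m` of any sign -/
def pairS (C : Ctx) (m : ℤ) (x LA LB : Aff) : Bool :=
  (decide (0 < m) && pairOK C m x LA LB) || (decide (m < 0) && pairOK C (-m) (Aff.smul (-1) x) LA LB)

lemma pairS_sound {C : Ctx} {m : ℤ} {x LA LB : Aff} (h : pairS C m x LA LB = true)
    {t : ℤ} (ht : C.t0 ≤ t) (hn : 0 ≤ C.n.ev t) {s s' : ℤ} (h0 : 0 ≤ s) (h1 : s < LA.ev t) (h2 : 0 ≤ s')
    (h3 : s' < LB.ev t) (q : ℤ) : x.ev t + q * C.n.ev t ≠ m * (s' - s) := by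
  simp only [pairS, Bool.or_eq_true, Bool.and_eq_true, decide_eq_true_eq] at h
  rcases h with ⟨hm, h⟩ | ⟨hm, h⟩
  · exact pairOK_sound h hm ht hn h0 h1 h2 h3 q
  · intro he
    refine pairOK_sound h (by linarith) ht hn h0 h1 h2 h3 (-q) ?_
    simp only [Aff.ev_smul]
    linear_combination -he

end Pool.Agent.H57.QY
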