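import Pool.Agent.H57.QY.Fam

/-!
# Exact families: `k = 120 t + 27`, `t ≥ 4` (found by helper58)
-/

set_option autoImplicit false

namespace Pool.Agent.H57.QY.F27

def ctx : Ctx := ⟨4, 120, 27, 15, 25⟩

def base : List Arc := [
    ⟨⟨0, 0⟩, ⟨24, 6⟩, 0, ⟨0, 0⟩⟩,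
    ⟨⟨0, 1⟩, ⟨24, 6⟩, 0, ⟨0, 5⟩⟩,
    ⟨⟨0, 2⟩, ⟨24, 6⟩, 0, ⟨0, 10⟩⟩,
    ⟨⟨0, 3⟩, ⟨24, 6⟩, 0, ⟨0, 5⟩⟩,
    ⟨⟨0, 4⟩, ⟨24, 6⟩, 0, ⟨0, 10⟩⟩,
    ⟨⟨0, 5⟩, ⟨24, 6⟩, 0, ⟨0, 15⟩⟩,
    ⟨⟨0, 6⟩, ⟨24, 5⟩, 0, ⟨0, 10⟩⟩,
    ⟨⟨0, 7⟩, ⟨24, 5⟩, 0, ⟨0, 15⟩⟩,
    ⟨⟨0, 8⟩, ⟨24, 5⟩, 0, ⟨0, 20⟩⟩,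
    ⟨⟨0, 9⟩, ⟨24, 5⟩, 0, ⟨0, 15⟩⟩,
    ⟨⟨0, 10⟩, ⟨24, 5⟩, 0, ⟨0, 20⟩⟩,
    ⟨⟨0, 11⟩, ⟨24, 5⟩, 0, ⟨0, 25⟩⟩,
    ⟨⟨0, 12⟩, ⟨24, 5⟩, 0, ⟨0, 20⟩⟩,
    ⟨⟨0, 13⟩, ⟨24, 5⟩, 0, ⟨0, 25⟩⟩,
    ⟨⟨0, 14⟩, ⟨24, 5⟩, 0, ⟨0, 30⟩⟩]

def fam0 : Fam where
  ints := [(⟨0, 0⟩, ⟨0, 35⟩), (⟨90, 74⟩, ⟨120, 27⟩)]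
  arcs := [
    ⟨⟨0, 0⟩, ⟨6, 4⟩, 2, ⟨240, 54⟩⟩,
    ⟨⟨90, 60⟩, ⟨9, 0⟩, 0, ⟨150, 100⟩⟩,
    ⟨⟨225, 60⟩, ⟨9, 2⟩, 0, ⟨375, 100⟩⟩,
    ⟨⟨0, 1⟩, ⟨0, 2⟩, 2, ⟨240, 59⟩⟩,
    ⟨⟨0, 31⟩, ⟨0, 1⟩, 1, ⟨120, 82⟩⟩,
    ⟨⟨0, 46⟩, ⟨6, 0⟩, 1, ⟨120, 107⟩⟩,
    ⟨⟨90, 46⟩, ⟨6, 0⟩, 0, ⟨150, 80⟩⟩,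
    ⟨⟨180, 46⟩, ⟨6, 3⟩, 0, ⟨300, 80⟩⟩,
    ⟨⟨270, 91⟩, ⟨0, 1⟩, 2, ⟨690, 209⟩⟩,
    ⟨⟨270, 106⟩, ⟨6, -1⟩, 1, ⟨570, 207⟩⟩,
    ⟨⟨0, 2⟩, ⟨0, 1⟩, 2, ⟨240, 64⟩⟩,
    ⟨⟨0, 17⟩, ⟨0, 1⟩, 0, ⟨0, 35⟩⟩,
    ⟨⟨0, 32⟩, ⟨6, 0⟩, 0, ⟨0, 60⟩⟩,
    ⟨⟨90, 32⟩, ⟨6, 3⟩, 0, ⟨150, 60⟩⟩,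
    ⟨⟨180, 77⟩, ⟨6, 0⟩, 1, ⟨420, 162⟩⟩,
    ⟨⟨270, 77⟩, ⟨6, 1⟩, 1, ⟨570, 162⟩⟩,
    ⟨⟨0, 3⟩, ⟨6, 3⟩, 0, ⟨0, 5⟩⟩,
    ⟨⟨90, 48⟩, ⟨6, 0⟩, 1, ⟨270, 107⟩⟩,
    ⟨⟨180, 48⟩, ⟨6, 3⟩, 1, ⟨420, 107⟩⟩,
    ⟨⟨270, 93⟩, ⟨0, 1⟩, 1, ⟨570, 182⟩⟩,
    ⟨⟨270, 108⟩, ⟨6, -1⟩, 2, ⟨690, 234⟩⟩,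
    ⟨⟨0, 4⟩, ⟨0, 1⟩, 0, ⟨0, 10⟩⟩,
    ⟨⟨0, 19⟩, ⟨0, 1⟩, 2, ⟨240, 89⟩⟩,
    ⟨⟨0, 34⟩, ⟨6, 0⟩, 1, ⟨120, 87⟩⟩,
    ⟨⟨90, 34⟩, ⟨6, 3⟩, 1, ⟨270, 87⟩⟩,
    ⟨⟨180, 79⟩, ⟨6, 0⟩, 0, ⟨300, 135⟩⟩,
    ⟨⟨270, 79⟩, ⟨0, 1⟩, 0, ⟨450, 135⟩⟩,
    ⟨⟨270, 94⟩, ⟨6, 0⟩, 2, ⟨690, 214⟩⟩,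
    ⟨⟨0, 5⟩, ⟨6, 0⟩, 1, ⟨120, 42⟩⟩,
    ⟨⟨90, 5⟩, ⟨6, 4⟩, 1, ⟨270, 42⟩⟩,
    ⟨⟨180, 65⟩, ⟨6, 0⟩, 2, ⟨540, 169⟩⟩,
    ⟨⟨270, 65⟩, ⟨6, 2⟩, 2, ⟨690, 169⟩⟩,
    ⟨⟨0, 6⟩, ⟨0, 2⟩, 1, ⟨120, 37⟩⟩,
    ⟨⟨0, 36⟩, ⟨9, 0⟩, 2, ⟨240, 114⟩⟩,
    ⟨⟨135, 36⟩, ⟨9, 3⟩, 2, ⟨465, 114⟩⟩,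
    ⟨⟨270, 81⟩, ⟨0, 1⟩, 2, ⟨690, 189⟩⟩,
    ⟨⟨270, 96⟩, ⟨6, -1⟩, 0, ⟨450, 160⟩⟩,
    ⟨⟨0, 7⟩, ⟨0, 1⟩, 0, ⟨0, 15⟩⟩,
    ⟨⟨0, 22⟩, ⟨6, 0⟩, 2, ⟨240, 94⟩⟩,
    ⟨⟨90, 22⟩, ⟨6, 3⟩, 2, ⟨390, 94⟩⟩,
    ⟨⟨180, 67⟩, ⟨0, 1⟩, 1, ⟨420, 142⟩⟩,
    ⟨⟨180, 82⟩, ⟨6, 0⟩, 0, ⟨300, 140⟩⟩,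
    ⟨⟨270, 82⟩, ⟨6, 0⟩, 0, ⟨450, 140⟩⟩,
    ⟨⟨0, 8⟩, ⟨6, 3⟩, 2, ⟨240, 74⟩⟩,
    ⟨⟨90, 53⟩, ⟨9, 0⟩, 0, ⟨150, 95⟩⟩,
    ⟨⟨225, 53⟩, ⟨9, 2⟩, 0, ⟨375, 95⟩⟩,
    ⟨⟨0, 9⟩, ⟨0, 1⟩, 2, ⟨240, 69⟩⟩,
    ⟨⟨0, 24⟩, ⟨6, 0⟩, 0, ⟨0, 40⟩⟩,
    ⟨⟨90, 24⟩, ⟨6, 4⟩, 0, ⟨150, 40⟩⟩,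
    ⟨⟨180, 84⟩, ⟨6, 0⟩, 1, ⟨420, 167⟩⟩,
    ⟨⟨270, 84⟩, ⟨6, 0⟩, 1, ⟨570, 167⟩⟩,
    ⟨⟨0, 10⟩, ⟨6, 3⟩, 0, ⟨0, 20⟩⟩,
    ⟨⟨90, 55⟩, ⟨6, 1⟩, 2, ⟨390, 149⟩⟩,
    ⟨⟨180, 70⟩, ⟨6, 0⟩, 1, ⟨420, 147⟩⟩,
    ⟨⟨270, 70⟩, ⟨6, 1⟩, 1, ⟨570, 147⟩⟩,
    ⟨⟨0, 11⟩, ⟨6, 2⟩, 0, ⟨0, 25⟩⟩,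
    ⟨⟨90, 41⟩, ⟨6, 0⟩, 1, ⟨270, 102⟩⟩,
    ⟨⟨180, 41⟩, ⟨6, 4⟩, 1, ⟨420, 102⟩⟩,
    ⟨⟨270, 101⟩, ⟨6, -1⟩, 2, ⟨690, 229⟩⟩,
    ⟨⟨0, 12⟩, ⟨6, 0⟩, 1, ⟨120, 47⟩⟩,
    ⟨⟨90, 12⟩, ⟨6, 4⟩, 1, ⟨270, 47⟩⟩,
    ⟨⟨180, 72⟩, ⟨6, 0⟩, 2, ⟨540, 174⟩⟩,
    ⟨⟨270, 72⟩, ⟨6, 1⟩, 2, ⟨690, 174⟩⟩,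
    ⟨⟨0, 13⟩, ⟨6, 2⟩, 1, ⟨120, 52⟩⟩,
    ⟨⟨90, 43⟩, ⟨0, 1⟩, 0, ⟨150, 75⟩⟩,
    ⟨⟨90, 58⟩, ⟨6, 0⟩, 2, ⟨390, 154⟩⟩,
    ⟨⟨180, 58⟩, ⟨6, 3⟩, 2, ⟨540, 154⟩⟩,
    ⟨⟨270, 103⟩, ⟨6, -1⟩, 1, ⟨570, 202⟩⟩,
    ⟨⟨0, 14⟩, ⟨0, 1⟩, 1, ⟨120, 57⟩⟩,
    ⟨⟨0, 29⟩, ⟨0, 1⟩, 2, ⟨240, 109⟩⟩,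
    ⟨⟨0, 44⟩, ⟨9, 0⟩, 2, ⟨240, 134⟩⟩,
    ⟨⟨135, 44⟩, ⟨9, 3⟩, 2, ⟨465, 134⟩⟩,
    ⟨⟨270, 89⟩, ⟨6, 0⟩, 0, ⟨450, 155⟩⟩]

theorem ok0 : famOK ctx base fam0 = true := by decide +kernel

def fam1 : Fam where
  ints := [(⟨0, 35⟩, ⟨25, 35⟩)]
  arcs := [
    ⟨⟨0, 0⟩, ⟨7, 4⟩, 2, ⟨240, 54⟩⟩,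
    ⟨⟨105, 60⟩, ⟨8, 0⟩, 0, ⟨175, 100⟩⟩,
    ⟨⟨225, 60⟩, ⟨9, 2⟩, 0, ⟨375, 100⟩⟩,
    ⟨⟨0, 1⟩, ⟨1, 2⟩, 2, ⟨240, 59⟩⟩,
    ⟨⟨15, 31⟩, ⟨0, 1⟩, 1, ⟨145, 82⟩⟩,
    ⟨⟨15, 46⟩, ⟨6, 0⟩, 1, ⟨145, 107⟩⟩,
    ⟨⟨105, 46⟩, ⟨6, 0⟩, 0, ⟨175, 80⟩⟩,
    ⟨⟨195, 46⟩, ⟨6, 3⟩, 0, ⟨325, 80⟩⟩,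
    ⟨⟨285, 91⟩, ⟨0, 1⟩, 2, ⟨715, 209⟩⟩,
    ⟨⟨285, 106⟩, ⟨5, -1⟩, 1, ⟨595, 207⟩⟩,
    ⟨⟨0, 2⟩, ⟨1, 1⟩, 2, ⟨240, 64⟩⟩,
    ⟨⟨15, 17⟩, ⟨0, 1⟩, 0, ⟨25, 35⟩⟩,
    ⟨⟨15, 32⟩, ⟨6, 0⟩, 0, ⟨25, 60⟩⟩,
    ⟨⟨105, 32⟩, ⟨6, 3⟩, 0, ⟨175, 60⟩⟩,
    ⟨⟨195, 77⟩, ⟨5, 0⟩, 1, ⟨445, 162⟩⟩,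
    ⟨⟨270, 77⟩, ⟨6, 1⟩, 1, ⟨570, 162⟩⟩,
    ⟨⟨0, 3⟩, ⟨7, 3⟩, 0, ⟨0, 5⟩⟩,
    ⟨⟨105, 48⟩, ⟨6, 0⟩, 1, ⟨295, 107⟩⟩,
    ⟨⟨195, 48⟩, ⟨6, 3⟩, 1, ⟨445, 107⟩⟩,
    ⟨⟨285, 93⟩, ⟨0, 1⟩, 1, ⟨595, 182⟩⟩,
    ⟨⟨285, 108⟩, ⟨5, -1⟩, 2, ⟨715, 234⟩⟩,
    ⟨⟨0, 4⟩, ⟨1, 1⟩, 0, ⟨0, 10⟩⟩,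
    ⟨⟨15, 19⟩, ⟨0, 1⟩, 2, ⟨265, 89⟩⟩,
    ⟨⟨15, 34⟩, ⟨6, 0⟩, 1, ⟨145, 87⟩⟩,
    ⟨⟨105, 34⟩, ⟨6, 3⟩, 1, ⟨295, 87⟩⟩,
    ⟨⟨195, 79⟩, ⟨6, 0⟩, 0, ⟨325, 135⟩⟩,
    ⟨⟨285, 79⟩, ⟨0, 1⟩, 0, ⟨475, 135⟩⟩,
    ⟨⟨285, 94⟩, ⟨5, 0⟩, 2, ⟨715, 214⟩⟩,
    ⟨⟨0, 5⟩, ⟨6, 0⟩, 1, ⟨120, 42⟩⟩,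
    ⟨⟨90, 5⟩, ⟨7, 4⟩, 1, ⟨270, 42⟩⟩,
    ⟨⟨195, 65⟩, ⟨5, 0⟩, 2, ⟨565, 169⟩⟩,
    ⟨⟨270, 65⟩, ⟨6, 2⟩, 2, ⟨690, 169⟩⟩,
    ⟨⟨0, 6⟩, ⟨1, 2⟩, 1, ⟨120, 37⟩⟩,
    ⟨⟨15, 36⟩, ⟨9, 0⟩, 2, ⟨265, 114⟩⟩,
    ⟨⟨150, 36⟩, ⟨9, 3⟩, 2, ⟨490, 114⟩⟩,
    ⟨⟨285, 81⟩, ⟨0, 1⟩, 2, ⟨715, 189⟩⟩,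
    ⟨⟨285, 96⟩, ⟨5, -1⟩, 0, ⟨475, 160⟩⟩,
    ⟨⟨0, 7⟩, ⟨1, 1⟩, 0, ⟨0, 15⟩⟩,
    ⟨⟨15, 22⟩, ⟨6, 0⟩, 2, ⟨265, 94⟩⟩,
    ⟨⟨105, 22⟩, ⟨6, 3⟩, 2, ⟨415, 94⟩⟩,
    ⟨⟨195, 67⟩, ⟨0, 1⟩, 1, ⟨445, 142⟩⟩,
    ⟨⟨195, 82⟩, ⟨5, 0⟩, 0, ⟨325, 140⟩⟩,
    ⟨⟨270, 82⟩, ⟨6, 0⟩, 0, ⟨450, 140⟩⟩,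
    ⟨⟨0, 8⟩, ⟨7, 3⟩, 2, ⟨240, 74⟩⟩,
    ⟨⟨105, 53⟩, ⟨8, 0⟩, 0, ⟨175, 95⟩⟩,
    ⟨⟨225, 53⟩, ⟨9, 2⟩, 0, ⟨375, 95⟩⟩,
    ⟨⟨0, 9⟩, ⟨1, 1⟩, 2, ⟨240, 69⟩⟩,
    ⟨⟨15, 24⟩, ⟨6, 0⟩, 0, ⟨25, 40⟩⟩,
    ⟨⟨105, 24⟩, ⟨6, 4⟩, 0, ⟨175, 40⟩⟩,
    ⟨⟨195, 84⟩, ⟨5, 0⟩, 1, ⟨445, 167⟩⟩,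
    ⟨⟨270, 84⟩, ⟨6, 0⟩, 1, ⟨570, 167⟩⟩,
    ⟨⟨0, 10⟩, ⟨7, 3⟩, 0, ⟨0, 20⟩⟩,
    ⟨⟨105, 55⟩, ⟨6, 1⟩, 2, ⟨415, 149⟩⟩,
    ⟨⟨195, 70⟩, ⟨5, 0⟩, 1, ⟨445, 147⟩⟩,
    ⟨⟨270, 70⟩, ⟨6, 1⟩, 1, ⟨570, 147⟩⟩,
    ⟨⟨0, 11⟩, ⟨7, 2⟩, 0, ⟨0, 25⟩⟩,
    ⟨⟨105, 41⟩, ⟨6, 0⟩, 1, ⟨295, 102⟩⟩,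
    ⟨⟨195, 41⟩, ⟨6, 4⟩, 1, ⟨445, 102⟩⟩,
    ⟨⟨285, 101⟩, ⟨5, -1⟩, 2, ⟨715, 229⟩⟩,
    ⟨⟨0, 12⟩, ⟨6, 0⟩, 1, ⟨120, 47⟩⟩,
    ⟨⟨90, 12⟩, ⟨7, 4⟩, 1, ⟨270, 47⟩⟩,
    ⟨⟨195, 72⟩, ⟨5, 0⟩, 2, ⟨565, 174⟩⟩,
    ⟨⟨270, 72⟩, ⟨6, 1⟩, 2, ⟨690, 174⟩⟩,
    ⟨⟨0, 13⟩, ⟨7, 2⟩, 1, ⟨120, 52⟩⟩,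
    ⟨⟨105, 43⟩, ⟨0, 1⟩, 0, ⟨175, 75⟩⟩,
    ⟨⟨105, 58⟩, ⟨6, 0⟩, 2, ⟨415, 154⟩⟩,
    ⟨⟨195, 58⟩, ⟨6, 3⟩, 2, ⟨565, 154⟩⟩,
    ⟨⟨285, 103⟩, ⟨5, -1⟩, 1, ⟨595, 202⟩⟩,
    ⟨⟨0, 14⟩, ⟨1, 1⟩, 1, ⟨120, 57⟩⟩,
    ⟨⟨15, 29⟩, ⟨0, 1⟩, 2, ⟨265, 109⟩⟩,
    ⟨⟨15, 44⟩, ⟨9, 0⟩, 2, ⟨265, 134⟩⟩,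
    ⟨⟨150, 44⟩, ⟨9, 3⟩, 2, ⟨490, 134⟩⟩,
    ⟨⟨285, 89⟩, ⟨5, 0⟩, 0, ⟨475, 155⟩⟩]

theorem ok1 : famOK ctx base fam1 = true := by decide +kernel

def fam2 : Fam where
  ints := [(⟨25, 35⟩, ⟨50, 35⟩)]
  arcs := [
    ⟨⟨0, 0⟩, ⟨8, 4⟩, 2, ⟨240, 54⟩⟩,
    ⟨⟨120, 60⟩, ⟨8, 0⟩, 0, ⟨200, 100⟩⟩,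
    ⟨⟨240, 60⟩, ⟨8, 2⟩, 0, ⟨400, 100⟩⟩,
    ⟨⟨0, 1⟩, ⟨2, 2⟩, 2, ⟨240, 59⟩⟩,
    ⟨⟨30, 31⟩, ⟨0, 1⟩, 1, ⟨170, 82⟩⟩,
    ⟨⟨30, 46⟩, ⟨6, 0⟩, 1, ⟨170, 107⟩⟩,
    ⟨⟨120, 46⟩, ⟨6, 0⟩, 0, ⟨200, 80⟩⟩,
    ⟨⟨210, 46⟩, ⟨6, 3⟩, 0, ⟨350, 80⟩⟩,
    ⟨⟨300, 91⟩, ⟨0, 1⟩, 2, ⟨740, 209⟩⟩,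
    ⟨⟨300, 106⟩, ⟨4, -1⟩, 1, ⟨620, 207⟩⟩,
    ⟨⟨0, 2⟩, ⟨2, 1⟩, 2, ⟨240, 64⟩⟩,
    ⟨⟨30, 17⟩, ⟨0, 1⟩, 0, ⟨50, 35⟩⟩,
    ⟨⟨30, 32⟩, ⟨6, 0⟩, 0, ⟨50, 60⟩⟩,
    ⟨⟨120, 32⟩, ⟨6, 3⟩, 0, ⟨200, 60⟩⟩,
    ⟨⟨210, 77⟩, ⟨5, 0⟩, 1, ⟨470, 162⟩⟩,
    ⟨⟨285, 77⟩, ⟨5, 1⟩, 1, ⟨595, 162⟩⟩,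
    ⟨⟨0, 3⟩, ⟨8, 3⟩, 0, ⟨0, 5⟩⟩,
    ⟨⟨120, 48⟩, ⟨6, 0⟩, 1, ⟨320, 107⟩⟩,
    ⟨⟨210, 48⟩, ⟨6, 3⟩, 1, ⟨470, 107⟩⟩,
    ⟨⟨300, 93⟩, ⟨0, 1⟩, 1, ⟨620, 182⟩⟩,
    ⟨⟨300, 108⟩, ⟨4, -1⟩, 2, ⟨740, 234⟩⟩,
    ⟨⟨0, 4⟩, ⟨2, 1⟩, 0, ⟨0, 10⟩⟩,
    ⟨⟨30, 19⟩, ⟨0, 1⟩, 2, ⟨290, 89⟩⟩,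
    ⟨⟨30, 34⟩, ⟨6, 0⟩, 1, ⟨170, 87⟩⟩,
    ⟨⟨120, 34⟩, ⟨6, 3⟩, 1, ⟨320, 87⟩⟩,
    ⟨⟨210, 79⟩, ⟨6, 0⟩, 0, ⟨350, 135⟩⟩,
    ⟨⟨300, 79⟩, ⟨0, 1⟩, 0, ⟨500, 135⟩⟩,
    ⟨⟨300, 94⟩, ⟨4, 0⟩, 2, ⟨740, 214⟩⟩,
    ⟨⟨0, 5⟩, ⟨7, 0⟩, 1, ⟨120, 42⟩⟩,
    ⟨⟨105, 5⟩, ⟨7, 4⟩, 1, ⟨295, 42⟩⟩,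
    ⟨⟨210, 65⟩, ⟨5, 0⟩, 2, ⟨590, 169⟩⟩,
    ⟨⟨285, 65⟩, ⟨5, 2⟩, 2, ⟨715, 169⟩⟩,
    ⟨⟨0, 6⟩, ⟨2, 2⟩, 1, ⟨120, 37⟩⟩,
    ⟨⟨30, 36⟩, ⟨9, 0⟩, 2, ⟨290, 114⟩⟩,
    ⟨⟨165, 36⟩, ⟨9, 3⟩, 2, ⟨515, 114⟩⟩,
    ⟨⟨300, 81⟩, ⟨0, 1⟩, 2, ⟨740, 189⟩⟩,
    ⟨⟨300, 96⟩, ⟨4, -1⟩, 0, ⟨500, 160⟩⟩,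
    ⟨⟨0, 7⟩, ⟨2, 1⟩, 0, ⟨0, 15⟩⟩,
    ⟨⟨30, 22⟩, ⟨6, 0⟩, 2, ⟨290, 94⟩⟩,
    ⟨⟨120, 22⟩, ⟨6, 3⟩, 2, ⟨440, 94⟩⟩,
    ⟨⟨210, 67⟩, ⟨0, 1⟩, 1, ⟨470, 142⟩⟩,
    ⟨⟨210, 82⟩, ⟨5, 0⟩, 0, ⟨350, 140⟩⟩,
    ⟨⟨285, 82⟩, ⟨5, 0⟩, 0, ⟨475, 140⟩⟩,
    ⟨⟨0, 8⟩, ⟨8, 3⟩, 2, ⟨240, 74⟩⟩,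
    ⟨⟨120, 53⟩, ⟨8, 0⟩, 0, ⟨200, 95⟩⟩,
    ⟨⟨240, 53⟩, ⟨8, 2⟩, 0, ⟨400, 95⟩⟩,
    ⟨⟨0, 9⟩, ⟨2, 1⟩, 2, ⟨240, 69⟩⟩,
    ⟨⟨30, 24⟩, ⟨6, 0⟩, 0, ⟨50, 40⟩⟩,
    ⟨⟨120, 24⟩, ⟨6, 4⟩, 0, ⟨200, 40⟩⟩,
    ⟨⟨210, 84⟩, ⟨5, 0⟩, 1, ⟨470, 167⟩⟩,
    ⟨⟨285, 84⟩, ⟨5, 0⟩, 1, ⟨595, 167⟩⟩,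
    ⟨⟨0, 10⟩, ⟨8, 3⟩, 0, ⟨0, 20⟩⟩,
    ⟨⟨120, 55⟩, ⟨6, 1⟩, 2, ⟨440, 149⟩⟩,
    ⟨⟨210, 70⟩, ⟨5, 0⟩, 1, ⟨470, 147⟩⟩,
    ⟨⟨285, 70⟩, ⟨5, 1⟩, 1, ⟨595, 147⟩⟩,
    ⟨⟨0, 11⟩, ⟨8, 2⟩, 0, ⟨0, 25⟩⟩,
    ⟨⟨120, 41⟩, ⟨6, 0⟩, 1, ⟨320, 102⟩⟩,
    ⟨⟨210, 41⟩, ⟨6, 4⟩, 1, ⟨470, 102⟩⟩,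
    ⟨⟨300, 101⟩, ⟨4, -1⟩, 2, ⟨740, 229⟩⟩,
    ⟨⟨0, 12⟩, ⟨7, 0⟩, 1, ⟨120, 47⟩⟩,
    ⟨⟨105, 12⟩, ⟨7, 4⟩, 1, ⟨295, 47⟩⟩,
    ⟨⟨210, 72⟩, ⟨5, 0⟩, 2, ⟨590, 174⟩⟩,
    ⟨⟨285, 72⟩, ⟨5, 1⟩, 2, ⟨715, 174⟩⟩,
    ⟨⟨0, 13⟩, ⟨8, 2⟩, 1, ⟨120, 52⟩⟩,
    ⟨⟨120, 43⟩, ⟨0, 1⟩, 0, ⟨200, 75⟩⟩,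
    ⟨⟨120, 58⟩, ⟨6, 0⟩, 2, ⟨440, 154⟩⟩,
    ⟨⟨210, 58⟩, ⟨6, 3⟩, 2, ⟨590, 154⟩⟩,
    ⟨⟨300, 103⟩, ⟨4, -1⟩, 1, ⟨620, 202⟩⟩,
    ⟨⟨0, 14⟩, ⟨2, 1⟩, 1, ⟨120, 57⟩⟩,
    ⟨⟨30, 29⟩, ⟨0, 1⟩, 2, ⟨290, 109⟩⟩,
    ⟨⟨30, 44⟩, ⟨9, 0⟩, 2, ⟨290, 134⟩⟩,
    ⟨⟨165, 44⟩, ⟨9, 3⟩, 2, ⟨515, 134⟩⟩,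
    ⟨⟨300, 89⟩, ⟨4, 0⟩, 0, ⟨500, 155⟩⟩]

theorem ok2 : famOK ctx base fam2 = true := by decide +kernel

def fam3 : Fam where
  ints := [(⟨50, 35⟩, ⟨75, 35⟩)]
  arcs := [
    ⟨⟨0, 0⟩, ⟨4, 0⟩, 2, ⟨240, 54⟩⟩,
    ⟨⟨60, 0⟩, ⟨5, 4⟩, 2, ⟨340, 54⟩⟩,
    ⟨⟨135, 60⟩, ⟨7, 0⟩, 0, ⟨225, 100⟩⟩,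
    ⟨⟨240, 60⟩, ⟨8, 2⟩, 0, ⟨400, 100⟩⟩,
    ⟨⟨0, 1⟩, ⟨3, 2⟩, 2, ⟨240, 59⟩⟩,
    ⟨⟨45, 31⟩, ⟨0, 1⟩, 1, ⟨195, 82⟩⟩,
    ⟨⟨45, 46⟩, ⟨6, 0⟩, 1, ⟨195, 107⟩⟩,
    ⟨⟨135, 46⟩, ⟨6, 0⟩, 0, ⟨225, 80⟩⟩,
    ⟨⟨225, 46⟩, ⟨6, 3⟩, 0, ⟨375, 80⟩⟩,
    ⟨⟨315, 91⟩, ⟨0, 1⟩, 2, ⟨765, 209⟩⟩,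
    ⟨⟨315, 106⟩, ⟨3, -1⟩, 1, ⟨645, 207⟩⟩,
    ⟨⟨0, 2⟩, ⟨3, 1⟩, 2, ⟨240, 64⟩⟩,
    ⟨⟨45, 17⟩, ⟨0, 1⟩, 0, ⟨75, 35⟩⟩,
    ⟨⟨45, 32⟩, ⟨6, 0⟩, 0, ⟨75, 60⟩⟩,
    ⟨⟨135, 32⟩, ⟨6, 3⟩, 0, ⟨225, 60⟩⟩,
    ⟨⟨225, 77⟩, ⟨9, 1⟩, 1, ⟨495, 162⟩⟩,
    ⟨⟨0, 3⟩, ⟨9, 3⟩, 0, ⟨0, 5⟩⟩,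
    ⟨⟨135, 48⟩, ⟨6, 0⟩, 1, ⟨345, 107⟩⟩,
    ⟨⟨225, 48⟩, ⟨6, 3⟩, 1, ⟨495, 107⟩⟩,
    ⟨⟨315, 93⟩, ⟨0, 1⟩, 1, ⟨645, 182⟩⟩,
    ⟨⟨315, 108⟩, ⟨3, -1⟩, 2, ⟨765, 234⟩⟩,
    ⟨⟨0, 4⟩, ⟨3, 1⟩, 0, ⟨0, 10⟩⟩,
    ⟨⟨45, 19⟩, ⟨0, 1⟩, 2, ⟨315, 89⟩⟩,
    ⟨⟨45, 34⟩, ⟨6, 0⟩, 1, ⟨195, 87⟩⟩,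
    ⟨⟨135, 34⟩, ⟨6, 3⟩, 1, ⟨345, 87⟩⟩,
    ⟨⟨225, 79⟩, ⟨6, 0⟩, 0, ⟨375, 135⟩⟩,
    ⟨⟨315, 79⟩, ⟨0, 1⟩, 0, ⟨525, 135⟩⟩,
    ⟨⟨315, 94⟩, ⟨3, 0⟩, 2, ⟨765, 214⟩⟩,
    ⟨⟨0, 5⟩, ⟨7, 0⟩, 1, ⟨120, 42⟩⟩,
    ⟨⟨105, 5⟩, ⟨8, 4⟩, 1, ⟨295, 42⟩⟩,
    ⟨⟨225, 65⟩, ⟨9, 2⟩, 2, ⟨615, 169⟩⟩,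
    ⟨⟨0, 6⟩, ⟨3, 2⟩, 1, ⟨120, 37⟩⟩,
    ⟨⟨45, 36⟩, ⟨9, 0⟩, 2, ⟨315, 114⟩⟩,
    ⟨⟨180, 36⟩, ⟨9, 3⟩, 2, ⟨540, 114⟩⟩,
    ⟨⟨315, 81⟩, ⟨0, 1⟩, 2, ⟨765, 189⟩⟩,
    ⟨⟨315, 96⟩, ⟨3, -1⟩, 0, ⟨525, 160⟩⟩,
    ⟨⟨0, 7⟩, ⟨3, 1⟩, 0, ⟨0, 15⟩⟩,
    ⟨⟨45, 22⟩, ⟨6, 0⟩, 2, ⟨315, 94⟩⟩,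
    ⟨⟨135, 22⟩, ⟨6, 3⟩, 2, ⟨465, 94⟩⟩,
    ⟨⟨225, 67⟩, ⟨0, 1⟩, 1, ⟨495, 142⟩⟩,
    ⟨⟨225, 82⟩, ⟨9, 0⟩, 0, ⟨375, 140⟩⟩,
    ⟨⟨0, 8⟩, ⟨9, 3⟩, 2, ⟨240, 74⟩⟩,
    ⟨⟨135, 53⟩, ⟨7, 0⟩, 0, ⟨225, 95⟩⟩,
    ⟨⟨240, 53⟩, ⟨8, 2⟩, 0, ⟨400, 95⟩⟩,
    ⟨⟨0, 9⟩, ⟨3, 1⟩, 2, ⟨240, 69⟩⟩,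
    ⟨⟨45, 24⟩, ⟨6, 0⟩, 0, ⟨75, 40⟩⟩,
    ⟨⟨135, 24⟩, ⟨6, 4⟩, 0, ⟨225, 40⟩⟩,
    ⟨⟨225, 84⟩, ⟨9, 0⟩, 1, ⟨495, 167⟩⟩,
    ⟨⟨0, 10⟩, ⟨9, 3⟩, 0, ⟨0, 20⟩⟩,
    ⟨⟨135, 55⟩, ⟨6, 1⟩, 2, ⟨465, 149⟩⟩,
    ⟨⟨225, 70⟩, ⟨9, 1⟩, 1, ⟨495, 147⟩⟩,
    ⟨⟨0, 11⟩, ⟨9, 2⟩, 0, ⟨0, 25⟩⟩,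
    ⟨⟨135, 41⟩, ⟨6, 0⟩, 1, ⟨345, 102⟩⟩,
    ⟨⟨225, 41⟩, ⟨6, 4⟩, 1, ⟨495, 102⟩⟩,
    ⟨⟨315, 101⟩, ⟨3, -1⟩, 2, ⟨765, 229⟩⟩,
    ⟨⟨0, 12⟩, ⟨7, 0⟩, 1, ⟨120, 47⟩⟩,
    ⟨⟨105, 12⟩, ⟨8, 4⟩, 1, ⟨295, 47⟩⟩,
    ⟨⟨225, 72⟩, ⟨9, 1⟩, 2, ⟨615, 174⟩⟩,
    ⟨⟨0, 13⟩, ⟨9, 2⟩, 1, ⟨120, 52⟩⟩,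
    ⟨⟨135, 43⟩, ⟨0, 1⟩, 0, ⟨225, 75⟩⟩,
    ⟨⟨135, 58⟩, ⟨6, 0⟩, 2, ⟨465, 154⟩⟩,
    ⟨⟨225, 58⟩, ⟨6, 3⟩, 2, ⟨615, 154⟩⟩,
    ⟨⟨315, 103⟩, ⟨3, -1⟩, 1, ⟨645, 202⟩⟩,
    ⟨⟨0, 14⟩, ⟨3, 1⟩, 1, ⟨120, 57⟩⟩,
    ⟨⟨45, 29⟩, ⟨0, 1⟩, 2, ⟨315, 109⟩⟩,
    ⟨⟨45, 44⟩, ⟨9, 0⟩, 2, ⟨315, 134⟩⟩,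
    ⟨⟨180, 44⟩, ⟨9, 3⟩, 2, ⟨540, 134⟩⟩,
    ⟨⟨315, 89⟩, ⟨3, 0⟩, 0, ⟨525, 155⟩⟩]

theorem ok3 : famOK ctx base fam3 = true := by decide +kernel

def fam4 : Fam where
  ints := [(⟨75, 35⟩, ⟨100, 35⟩)]
  arcs := [
    ⟨⟨0, 0⟩, ⟨5, 0⟩, 2, ⟨240, 54⟩⟩,
    ⟨⟨75, 0⟩, ⟨5, 4⟩, 2, ⟨365, 54⟩⟩,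
    ⟨⟨150, 60⟩, ⟨7, 0⟩, 0, ⟨250, 100⟩⟩,
    ⟨⟨255, 60⟩, ⟨7, 2⟩, 0, ⟨425, 100⟩⟩,
    ⟨⟨0, 1⟩, ⟨4, 2⟩, 2, ⟨240, 59⟩⟩,
    ⟨⟨60, 31⟩, ⟨0, 1⟩, 1, ⟨220, 82⟩⟩,
    ⟨⟨60, 46⟩, ⟨6, 0⟩, 1, ⟨220, 107⟩⟩,
    ⟨⟨150, 46⟩, ⟨6, 0⟩, 0, ⟨250, 80⟩⟩,
    ⟨⟨240, 46⟩, ⟨6, 3⟩, 0, ⟨400, 80⟩⟩,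
    ⟨⟨330, 91⟩, ⟨0, 1⟩, 2, ⟨790, 209⟩⟩,
    ⟨⟨330, 106⟩, ⟨2, -1⟩, 1, ⟨670, 207⟩⟩,
    ⟨⟨0, 2⟩, ⟨4, 1⟩, 2, ⟨240, 64⟩⟩,
    ⟨⟨60, 17⟩, ⟨0, 1⟩, 0, ⟨100, 35⟩⟩,
    ⟨⟨60, 32⟩, ⟨6, 0⟩, 0, ⟨100, 60⟩⟩,
    ⟨⟨150, 32⟩, ⟨6, 3⟩, 0, ⟨250, 60⟩⟩,
    ⟨⟨240, 77⟩, ⟨8, 1⟩, 1, ⟨520, 162⟩⟩,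
    ⟨⟨0, 3⟩, ⟨5, 0⟩, 0, ⟨0, 5⟩⟩,
    ⟨⟨75, 3⟩, ⟨5, 3⟩, 0, ⟨125, 5⟩⟩,
    ⟨⟨150, 48⟩, ⟨6, 0⟩, 1, ⟨370, 107⟩⟩,
    ⟨⟨240, 48⟩, ⟨6, 3⟩, 1, ⟨520, 107⟩⟩,
    ⟨⟨330, 93⟩, ⟨0, 1⟩, 1, ⟨670, 182⟩⟩,
    ⟨⟨330, 108⟩, ⟨2, -1⟩, 2, ⟨790, 234⟩⟩,
    ⟨⟨0, 4⟩, ⟨4, 1⟩, 0, ⟨0, 10⟩⟩,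
    ⟨⟨60, 19⟩, ⟨0, 1⟩, 2, ⟨340, 89⟩⟩,
    ⟨⟨60, 34⟩, ⟨6, 0⟩, 1, ⟨220, 87⟩⟩,
    ⟨⟨150, 34⟩, ⟨6, 3⟩, 1, ⟨370, 87⟩⟩,
    ⟨⟨240, 79⟩, ⟨6, 0⟩, 0, ⟨400, 135⟩⟩,
    ⟨⟨330, 79⟩, ⟨0, 1⟩, 0, ⟨550, 135⟩⟩,
    ⟨⟨330, 94⟩, ⟨2, 0⟩, 2, ⟨790, 214⟩⟩,
    ⟨⟨0, 5⟩, ⟨8, 0⟩, 1, ⟨120, 42⟩⟩,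
    ⟨⟨120, 5⟩, ⟨8, 4⟩, 1, ⟨320, 42⟩⟩,
    ⟨⟨240, 65⟩, ⟨8, 2⟩, 2, ⟨640, 169⟩⟩,
    ⟨⟨0, 6⟩, ⟨4, 2⟩, 1, ⟨120, 37⟩⟩,
    ⟨⟨60, 36⟩, ⟨9, 0⟩, 2, ⟨340, 114⟩⟩,
    ⟨⟨195, 36⟩, ⟨9, 3⟩, 2, ⟨565, 114⟩⟩,
    ⟨⟨330, 81⟩, ⟨0, 1⟩, 2, ⟨790, 189⟩⟩,
    ⟨⟨330, 96⟩, ⟨2, -1⟩, 0, ⟨550, 160⟩⟩,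
    ⟨⟨0, 7⟩, ⟨4, 1⟩, 0, ⟨0, 15⟩⟩,
    ⟨⟨60, 22⟩, ⟨6, 0⟩, 2, ⟨340, 94⟩⟩,
    ⟨⟨150, 22⟩, ⟨6, 3⟩, 2, ⟨490, 94⟩⟩,
    ⟨⟨240, 67⟩, ⟨0, 1⟩, 1, ⟨520, 142⟩⟩,
    ⟨⟨240, 82⟩, ⟨8, 0⟩, 0, ⟨400, 140⟩⟩,
    ⟨⟨0, 8⟩, ⟨5, 0⟩, 2, ⟨240, 74⟩⟩,
    ⟨⟨75, 8⟩, ⟨5, 3⟩, 2, ⟨365, 74⟩⟩,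
    ⟨⟨150, 53⟩, ⟨7, 0⟩, 0, ⟨250, 95⟩⟩,
    ⟨⟨255, 53⟩, ⟨7, 2⟩, 0, ⟨425, 95⟩⟩,
    ⟨⟨0, 9⟩, ⟨4, 1⟩, 2, ⟨240, 69⟩⟩,
    ⟨⟨60, 24⟩, ⟨6, 0⟩, 0, ⟨100, 40⟩⟩,
    ⟨⟨150, 24⟩, ⟨6, 4⟩, 0, ⟨250, 40⟩⟩,
    ⟨⟨240, 84⟩, ⟨8, 0⟩, 1, ⟨520, 167⟩⟩,
    ⟨⟨0, 10⟩, ⟨5, 0⟩, 0, ⟨0, 20⟩⟩,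
    ⟨⟨75, 10⟩, ⟨5, 3⟩, 0, ⟨125, 20⟩⟩,
    ⟨⟨150, 55⟩, ⟨6, 1⟩, 2, ⟨490, 149⟩⟩,
    ⟨⟨240, 70⟩, ⟨8, 1⟩, 1, ⟨520, 147⟩⟩,
    ⟨⟨0, 11⟩, ⟨5, 0⟩, 0, ⟨0, 25⟩⟩,
    ⟨⟨75, 11⟩, ⟨5, 2⟩, 0, ⟨125, 25⟩⟩,
    ⟨⟨150, 41⟩, ⟨6, 0⟩, 1, ⟨370, 102⟩⟩,
    ⟨⟨240, 41⟩, ⟨6, 4⟩, 1, ⟨520, 102⟩⟩,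
    ⟨⟨330, 101⟩, ⟨2, -1⟩, 2, ⟨790, 229⟩⟩,
    ⟨⟨0, 12⟩, ⟨8, 0⟩, 1, ⟨120, 47⟩⟩,
    ⟨⟨120, 12⟩, ⟨8, 4⟩, 1, ⟨320, 47⟩⟩,
    ⟨⟨240, 72⟩, ⟨8, 1⟩, 2, ⟨640, 174⟩⟩,
    ⟨⟨0, 13⟩, ⟨5, 0⟩, 1, ⟨120, 52⟩⟩,
    ⟨⟨75, 13⟩, ⟨5, 2⟩, 1, ⟨245, 52⟩⟩,
    ⟨⟨150, 43⟩, ⟨0, 1⟩, 0, ⟨250, 75⟩⟩,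
    ⟨⟨150, 58⟩, ⟨6, 0⟩, 2, ⟨490, 154⟩⟩,
    ⟨⟨240, 58⟩, ⟨6, 3⟩, 2, ⟨640, 154⟩⟩,
    ⟨⟨330, 103⟩, ⟨2, -1⟩, 1, ⟨670, 202⟩⟩,
    ⟨⟨0, 14⟩, ⟨4, 1⟩, 1, ⟨120, 57⟩⟩,
    ⟨⟨60, 29⟩, ⟨0, 1⟩, 2, ⟨340, 109⟩⟩,
    ⟨⟨60, 44⟩, ⟨9, 0⟩, 2, ⟨340, 134⟩⟩,
    ⟨⟨195, 44⟩, ⟨9, 3⟩, 2, ⟨565, 134⟩⟩,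
    ⟨⟨330, 89⟩, ⟨2, 0⟩, 0, ⟨550, 155⟩⟩]

theorem ok4 : famOK ctx base fam4 = true := by decide +kernel

def cover : List (Aff × Aff) := [(⟨0, 0⟩, ⟨0, 35⟩), (⟨0, 35⟩, ⟨25, 35⟩), (⟨25, 35⟩, ⟨50, 35⟩), (⟨50, 35⟩, ⟨75, 35⟩), (⟨75, 35⟩, ⟨100, 35⟩), (⟨90, 74⟩, ⟨120, 27⟩)]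

theorem ok : allOK ctx base [fam0, fam1, fam2, fam3, fam4] cover = true := by
  have h : (cov ctx [fam0, fam1, fam2, fam3, fam4] cover ⟨0, 0⟩ && pos ctx ctx.k && stepOK ctx && baseOK ctx base) = true := by decide +kernel
  simp only [allOK, List.all_cons, List.all_nil, Bool.and_true, ok0, ok1, ok2, ok3, ok4, Bool.true_and]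
  exact h

end Pool.Agent.H57.QY.F27
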