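import Pool.Agent.H57.QY.Fam

/-!
# Exact families: `k = 120 t + 3`, `t ≥ 2` (found by helper58)
-/

set_option autoImplicit false

namespace Pool.Agent.H57.QY.F3

def ctx : Ctx := ⟨2, 120, 3, 15, 25⟩

def base : List Arc := [
    ⟨⟨0, 0⟩, ⟨24, 1⟩, 0, ⟨0, 0⟩⟩,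
    ⟨⟨0, 1⟩, ⟨24, 1⟩, 0, ⟨0, 5⟩⟩,
    ⟨⟨0, 2⟩, ⟨24, 1⟩, 0, ⟨0, 10⟩⟩,
    ⟨⟨0, 3⟩, ⟨24, 1⟩, 0, ⟨0, 5⟩⟩,
    ⟨⟨0, 4⟩, ⟨24, 1⟩, 0, ⟨0, 10⟩⟩,
    ⟨⟨0, 5⟩, ⟨24, 1⟩, 0, ⟨0, 15⟩⟩,
    ⟨⟨0, 6⟩, ⟨24, 1⟩, 0, ⟨0, 10⟩⟩,
    ⟨⟨0, 7⟩, ⟨24, 1⟩, 0, ⟨0, 15⟩⟩,
    ⟨⟨0, 8⟩, ⟨24, 1⟩, 0, ⟨0, 20⟩⟩,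
    ⟨⟨0, 9⟩, ⟨24, 0⟩, 0, ⟨0, 15⟩⟩,
    ⟨⟨0, 10⟩, ⟨24, 0⟩, 0, ⟨0, 20⟩⟩,
    ⟨⟨0, 11⟩, ⟨24, 0⟩, 0, ⟨0, 25⟩⟩,
    ⟨⟨0, 12⟩, ⟨24, 0⟩, 0, ⟨0, 20⟩⟩,
    ⟨⟨0, 13⟩, ⟨24, 0⟩, 0, ⟨0, 25⟩⟩,
    ⟨⟨0, 14⟩, ⟨24, 0⟩, 0, ⟨0, 30⟩⟩]

def fam0 : Fam where
  ints := [(⟨0, 0⟩, ⟨0, 35⟩), (⟨90, 41⟩, ⟨120, 3⟩)]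
  arcs := [
    ⟨⟨0, 0⟩, ⟨6, 2⟩, 0, ⟨0, 0⟩⟩,
    ⟨⟨90, 30⟩, ⟨6, 0⟩, 1, ⟨270, 53⟩⟩,
    ⟨⟨180, 30⟩, ⟨6, 0⟩, 1, ⟨420, 53⟩⟩,
    ⟨⟨270, 30⟩, ⟨0, 1⟩, 1, ⟨570, 53⟩⟩,
    ⟨⟨270, 45⟩, ⟨6, -2⟩, 2, ⟨690, 81⟩⟩,
    ⟨⟨0, 1⟩, ⟨6, 2⟩, 0, ⟨0, 5⟩⟩,
    ⟨⟨90, 31⟩, ⟨6, 0⟩, 2, ⟨390, 61⟩⟩,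
    ⟨⟨180, 31⟩, ⟨6, 0⟩, 1, ⟨420, 58⟩⟩,
    ⟨⟨270, 31⟩, ⟨6, -1⟩, 1, ⟨570, 58⟩⟩,
    ⟨⟨0, 2⟩, ⟨0, 1⟩, 2, ⟨240, 16⟩⟩,
    ⟨⟨0, 17⟩, ⟨0, 1⟩, 0, ⟨0, 35⟩⟩,
    ⟨⟨0, 32⟩, ⟨6, 0⟩, 0, ⟨0, 60⟩⟩,
    ⟨⟨90, 32⟩, ⟨6, 0⟩, 0, ⟨150, 60⟩⟩,
    ⟨⟨180, 32⟩, ⟨6, 0⟩, 1, ⟨420, 63⟩⟩,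
    ⟨⟨270, 32⟩, ⟨6, -1⟩, 1, ⟨570, 63⟩⟩,
    ⟨⟨0, 3⟩, ⟨6, 2⟩, 2, ⟨240, 11⟩⟩,
    ⟨⟨90, 33⟩, ⟨9, 0⟩, 0, ⟨150, 55⟩⟩,
    ⟨⟨225, 33⟩, ⟨9, -1⟩, 0, ⟨375, 55⟩⟩,
    ⟨⟨0, 4⟩, ⟨0, 1⟩, 0, ⟨0, 10⟩⟩,
    ⟨⟨0, 19⟩, ⟨0, 1⟩, 2, ⟨240, 41⟩⟩,
    ⟨⟨0, 34⟩, ⟨6, 0⟩, 2, ⟨240, 66⟩⟩,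
    ⟨⟨90, 34⟩, ⟨6, 0⟩, 2, ⟨390, 66⟩⟩,
    ⟨⟨180, 34⟩, ⟨6, 0⟩, 0, ⟨300, 60⟩⟩,
    ⟨⟨270, 34⟩, ⟨6, -1⟩, 0, ⟨450, 60⟩⟩,
    ⟨⟨0, 5⟩, ⟨0, 1⟩, 1, ⟨120, 18⟩⟩,
    ⟨⟨0, 20⟩, ⟨0, 1⟩, 2, ⟨240, 46⟩⟩,
    ⟨⟨0, 35⟩, ⟨9, 0⟩, 2, ⟨240, 71⟩⟩,
    ⟨⟨135, 35⟩, ⟨9, 0⟩, 2, ⟨465, 71⟩⟩,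
    ⟨⟨270, 35⟩, ⟨6, -1⟩, 0, ⟨450, 65⟩⟩,
    ⟨⟨0, 6⟩, ⟨6, 0⟩, 1, ⟨120, 13⟩⟩,
    ⟨⟨90, 6⟩, ⟨6, 2⟩, 1, ⟨270, 13⟩⟩,
    ⟨⟨180, 36⟩, ⟨6, 0⟩, 2, ⟨540, 66⟩⟩,
    ⟨⟨270, 36⟩, ⟨6, -1⟩, 2, ⟨690, 66⟩⟩,
    ⟨⟨0, 7⟩, ⟨0, 1⟩, 0, ⟨0, 15⟩⟩,
    ⟨⟨0, 22⟩, ⟨0, 1⟩, 1, ⟨120, 43⟩⟩,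
    ⟨⟨0, 37⟩, ⟨6, 0⟩, 1, ⟨120, 68⟩⟩,
    ⟨⟨90, 37⟩, ⟨6, 0⟩, 1, ⟨270, 68⟩⟩,
    ⟨⟨180, 37⟩, ⟨6, 0⟩, 0, ⟨300, 65⟩⟩,
    ⟨⟨270, 37⟩, ⟨6, -1⟩, 2, ⟨690, 71⟩⟩,
    ⟨⟨0, 8⟩, ⟨6, 1⟩, 0, ⟨0, 20⟩⟩,
    ⟨⟨90, 23⟩, ⟨6, 0⟩, 1, ⟨270, 48⟩⟩,
    ⟨⟨180, 23⟩, ⟨6, 1⟩, 1, ⟨420, 48⟩⟩,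
    ⟨⟨270, 38⟩, ⟨6, -1⟩, 2, ⟨690, 76⟩⟩,
    ⟨⟨0, 9⟩, ⟨0, 1⟩, 2, ⟨240, 21⟩⟩,
    ⟨⟨0, 24⟩, ⟨6, 0⟩, 0, ⟨0, 40⟩⟩,
    ⟨⟨90, 24⟩, ⟨6, 1⟩, 0, ⟨150, 40⟩⟩,
    ⟨⟨180, 39⟩, ⟨6, 0⟩, 1, ⟨420, 68⟩⟩,
    ⟨⟨270, 39⟩, ⟨6, -2⟩, 1, ⟨570, 68⟩⟩,
    ⟨⟨0, 10⟩, ⟨0, 1⟩, 2, ⟨240, 26⟩⟩,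
    ⟨⟨0, 25⟩, ⟨6, 0⟩, 1, ⟨120, 48⟩⟩,
    ⟨⟨90, 25⟩, ⟨6, 0⟩, 0, ⟨150, 45⟩⟩,
    ⟨⟨180, 25⟩, ⟨6, 0⟩, 0, ⟨300, 45⟩⟩,
    ⟨⟨270, 25⟩, ⟨0, 1⟩, 0, ⟨450, 45⟩⟩,
    ⟨⟨270, 40⟩, ⟨6, -2⟩, 1, ⟨570, 73⟩⟩,
    ⟨⟨0, 11⟩, ⟨6, 1⟩, 2, ⟨240, 31⟩⟩,
    ⟨⟨90, 26⟩, ⟨9, 0⟩, 0, ⟨150, 50⟩⟩,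
    ⟨⟨225, 26⟩, ⟨9, -1⟩, 0, ⟨375, 50⟩⟩,
    ⟨⟨0, 12⟩, ⟨0, 1⟩, 1, ⟨120, 23⟩⟩,
    ⟨⟨0, 27⟩, ⟨9, 0⟩, 2, ⟨240, 51⟩⟩,
    ⟨⟨135, 27⟩, ⟨9, 0⟩, 2, ⟨465, 51⟩⟩,
    ⟨⟨270, 27⟩, ⟨0, 1⟩, 2, ⟨690, 51⟩⟩,
    ⟨⟨270, 42⟩, ⟨6, -2⟩, 0, ⟨450, 70⟩⟩,
    ⟨⟨0, 13⟩, ⟨6, 1⟩, 1, ⟨120, 28⟩⟩,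
    ⟨⟨90, 28⟩, ⟨6, 0⟩, 2, ⟨390, 56⟩⟩,
    ⟨⟨180, 28⟩, ⟨6, 0⟩, 2, ⟨540, 56⟩⟩,
    ⟨⟨270, 28⟩, ⟨0, 1⟩, 2, ⟨690, 56⟩⟩,
    ⟨⟨270, 43⟩, ⟨6, -2⟩, 1, ⟨570, 78⟩⟩,
    ⟨⟨0, 14⟩, ⟨6, 0⟩, 1, ⟨120, 33⟩⟩,
    ⟨⟨90, 14⟩, ⟨6, 1⟩, 1, ⟨270, 33⟩⟩,
    ⟨⟨180, 29⟩, ⟨6, 0⟩, 2, ⟨540, 61⟩⟩,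
    ⟨⟨270, 29⟩, ⟨6, -1⟩, 2, ⟨690, 61⟩⟩]

theorem ok0 : famOK ctx base fam0 = true := by decide +kernel

def fam1 : Fam where
  ints := [(⟨0, 35⟩, ⟨25, 35⟩)]
  arcs := [
    ⟨⟨0, 0⟩, ⟨7, 2⟩, 0, ⟨0, 0⟩⟩,
    ⟨⟨105, 30⟩, ⟨6, 0⟩, 1, ⟨295, 53⟩⟩,
    ⟨⟨195, 30⟩, ⟨6, 0⟩, 1, ⟨445, 53⟩⟩,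
    ⟨⟨285, 30⟩, ⟨0, 1⟩, 1, ⟨595, 53⟩⟩,
    ⟨⟨285, 45⟩, ⟨5, -2⟩, 2, ⟨715, 81⟩⟩,
    ⟨⟨0, 1⟩, ⟨7, 2⟩, 0, ⟨0, 5⟩⟩,
    ⟨⟨105, 31⟩, ⟨6, 0⟩, 2, ⟨415, 61⟩⟩,
    ⟨⟨195, 31⟩, ⟨5, 0⟩, 1, ⟨445, 58⟩⟩,
    ⟨⟨270, 31⟩, ⟨6, -1⟩, 1, ⟨570, 58⟩⟩,
    ⟨⟨0, 2⟩, ⟨1, 1⟩, 2, ⟨240, 16⟩⟩,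
    ⟨⟨15, 17⟩, ⟨0, 1⟩, 0, ⟨25, 35⟩⟩,
    ⟨⟨15, 32⟩, ⟨6, 0⟩, 0, ⟨25, 60⟩⟩,
    ⟨⟨105, 32⟩, ⟨6, 0⟩, 0, ⟨175, 60⟩⟩,
    ⟨⟨195, 32⟩, ⟨5, 0⟩, 1, ⟨445, 63⟩⟩,
    ⟨⟨270, 32⟩, ⟨6, -1⟩, 1, ⟨570, 63⟩⟩,
    ⟨⟨0, 3⟩, ⟨7, 2⟩, 2, ⟨240, 11⟩⟩,
    ⟨⟨105, 33⟩, ⟨8, 0⟩, 0, ⟨175, 55⟩⟩,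
    ⟨⟨225, 33⟩, ⟨9, -1⟩, 0, ⟨375, 55⟩⟩,
    ⟨⟨0, 4⟩, ⟨1, 1⟩, 0, ⟨0, 10⟩⟩,
    ⟨⟨15, 19⟩, ⟨0, 1⟩, 2, ⟨265, 41⟩⟩,
    ⟨⟨15, 34⟩, ⟨6, 0⟩, 2, ⟨265, 66⟩⟩,
    ⟨⟨105, 34⟩, ⟨6, 0⟩, 2, ⟨415, 66⟩⟩,
    ⟨⟨195, 34⟩, ⟨5, 0⟩, 0, ⟨325, 60⟩⟩,
    ⟨⟨270, 34⟩, ⟨6, -1⟩, 0, ⟨450, 60⟩⟩,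
    ⟨⟨0, 5⟩, ⟨1, 1⟩, 1, ⟨120, 18⟩⟩,
    ⟨⟨15, 20⟩, ⟨0, 1⟩, 2, ⟨265, 46⟩⟩,
    ⟨⟨15, 35⟩, ⟨9, 0⟩, 2, ⟨265, 71⟩⟩,
    ⟨⟨150, 35⟩, ⟨9, 0⟩, 2, ⟨490, 71⟩⟩,
    ⟨⟨285, 35⟩, ⟨5, -1⟩, 0, ⟨475, 65⟩⟩,
    ⟨⟨0, 6⟩, ⟨6, 0⟩, 1, ⟨120, 13⟩⟩,
    ⟨⟨90, 6⟩, ⟨7, 2⟩, 1, ⟨270, 13⟩⟩,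
    ⟨⟨195, 36⟩, ⟨5, 0⟩, 2, ⟨565, 66⟩⟩,
    ⟨⟨270, 36⟩, ⟨6, -1⟩, 2, ⟨690, 66⟩⟩,
    ⟨⟨0, 7⟩, ⟨1, 1⟩, 0, ⟨0, 15⟩⟩,
    ⟨⟨15, 22⟩, ⟨0, 1⟩, 1, ⟨145, 43⟩⟩,
    ⟨⟨15, 37⟩, ⟨6, 0⟩, 1, ⟨145, 68⟩⟩,
    ⟨⟨105, 37⟩, ⟨6, 0⟩, 1, ⟨295, 68⟩⟩,
    ⟨⟨195, 37⟩, ⟨6, 0⟩, 0, ⟨325, 65⟩⟩,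
    ⟨⟨285, 37⟩, ⟨5, -1⟩, 2, ⟨715, 71⟩⟩,
    ⟨⟨0, 8⟩, ⟨7, 1⟩, 0, ⟨0, 20⟩⟩,
    ⟨⟨105, 23⟩, ⟨6, 0⟩, 1, ⟨295, 48⟩⟩,
    ⟨⟨195, 23⟩, ⟨6, 1⟩, 1, ⟨445, 48⟩⟩,
    ⟨⟨285, 38⟩, ⟨5, -1⟩, 2, ⟨715, 76⟩⟩,
    ⟨⟨0, 9⟩, ⟨1, 1⟩, 2, ⟨240, 21⟩⟩,
    ⟨⟨15, 24⟩, ⟨6, 0⟩, 0, ⟨25, 40⟩⟩,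
    ⟨⟨105, 24⟩, ⟨6, 1⟩, 0, ⟨175, 40⟩⟩,
    ⟨⟨195, 39⟩, ⟨5, 0⟩, 1, ⟨445, 68⟩⟩,
    ⟨⟨270, 39⟩, ⟨6, -2⟩, 1, ⟨570, 68⟩⟩,
    ⟨⟨0, 10⟩, ⟨1, 1⟩, 2, ⟨240, 26⟩⟩,
    ⟨⟨15, 25⟩, ⟨6, 0⟩, 1, ⟨145, 48⟩⟩,
    ⟨⟨105, 25⟩, ⟨6, 0⟩, 0, ⟨175, 45⟩⟩,
    ⟨⟨195, 25⟩, ⟨6, 0⟩, 0, ⟨325, 45⟩⟩,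
    ⟨⟨285, 25⟩, ⟨0, 1⟩, 0, ⟨475, 45⟩⟩,
    ⟨⟨285, 40⟩, ⟨5, -2⟩, 1, ⟨595, 73⟩⟩,
    ⟨⟨0, 11⟩, ⟨7, 1⟩, 2, ⟨240, 31⟩⟩,
    ⟨⟨105, 26⟩, ⟨8, 0⟩, 0, ⟨175, 50⟩⟩,
    ⟨⟨225, 26⟩, ⟨9, -1⟩, 0, ⟨375, 50⟩⟩,
    ⟨⟨0, 12⟩, ⟨1, 1⟩, 1, ⟨120, 23⟩⟩,
    ⟨⟨15, 27⟩, ⟨9, 0⟩, 2, ⟨265, 51⟩⟩,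
    ⟨⟨150, 27⟩, ⟨9, 0⟩, 2, ⟨490, 51⟩⟩,
    ⟨⟨285, 27⟩, ⟨0, 1⟩, 2, ⟨715, 51⟩⟩,
    ⟨⟨285, 42⟩, ⟨5, -2⟩, 0, ⟨475, 70⟩⟩,
    ⟨⟨0, 13⟩, ⟨7, 1⟩, 1, ⟨120, 28⟩⟩,
    ⟨⟨105, 28⟩, ⟨6, 0⟩, 2, ⟨415, 56⟩⟩,
    ⟨⟨195, 28⟩, ⟨6, 0⟩, 2, ⟨565, 56⟩⟩,
    ⟨⟨285, 28⟩, ⟨0, 1⟩, 2, ⟨715, 56⟩⟩,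
    ⟨⟨285, 43⟩, ⟨5, -2⟩, 1, ⟨595, 78⟩⟩,
    ⟨⟨0, 14⟩, ⟨6, 0⟩, 1, ⟨120, 33⟩⟩,
    ⟨⟨90, 14⟩, ⟨7, 1⟩, 1, ⟨270, 33⟩⟩,
    ⟨⟨195, 29⟩, ⟨5, 0⟩, 2, ⟨565, 61⟩⟩,
    ⟨⟨270, 29⟩, ⟨6, -1⟩, 2, ⟨690, 61⟩⟩]

theorem ok1 : famOK ctx base fam1 = true := by decide +kernel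

def fam2 : Fam where
  ints := [(⟨25, 35⟩, ⟨50, 35⟩)]
  arcs := [
    ⟨⟨0, 0⟩, ⟨8, 2⟩, 0, ⟨0, 0⟩⟩,
    ⟨⟨120, 30⟩, ⟨6, 0⟩, 1, ⟨320, 53⟩⟩,
    ⟨⟨210, 30⟩, ⟨6, 0⟩, 1, ⟨470, 53⟩⟩,
    ⟨⟨300, 30⟩, ⟨0, 1⟩, 1, ⟨620, 53⟩⟩,
    ⟨⟨300, 45⟩, ⟨4, -2⟩, 2, ⟨740, 81⟩⟩,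
    ⟨⟨0, 1⟩, ⟨8, 2⟩, 0, ⟨0, 5⟩⟩,
    ⟨⟨120, 31⟩, ⟨6, 0⟩, 2, ⟨440, 61⟩⟩,
    ⟨⟨210, 31⟩, ⟨5, 0⟩, 1, ⟨470, 58⟩⟩,
    ⟨⟨285, 31⟩, ⟨5, -1⟩, 1, ⟨595, 58⟩⟩,
    ⟨⟨0, 2⟩, ⟨2, 1⟩, 2, ⟨240, 16⟩⟩,
    ⟨⟨30, 17⟩, ⟨0, 1⟩, 0, ⟨50, 35⟩⟩,
    ⟨⟨30, 32⟩, ⟨6, 0⟩, 0, ⟨50, 60⟩⟩,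
    ⟨⟨120, 32⟩, ⟨6, 0⟩, 0, ⟨200, 60⟩⟩,
    ⟨⟨210, 32⟩, ⟨5, 0⟩, 1, ⟨470, 63⟩⟩,
    ⟨⟨285, 32⟩, ⟨5, -1⟩, 1, ⟨595, 63⟩⟩,
    ⟨⟨0, 3⟩, ⟨8, 2⟩, 2, ⟨240, 11⟩⟩,
    ⟨⟨120, 33⟩, ⟨8, 0⟩, 0, ⟨200, 55⟩⟩,
    ⟨⟨240, 33⟩, ⟨8, -1⟩, 0, ⟨400, 55⟩⟩,
    ⟨⟨0, 4⟩, ⟨2, 1⟩, 0, ⟨0, 10⟩⟩,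
    ⟨⟨30, 19⟩, ⟨0, 1⟩, 2, ⟨290, 41⟩⟩,
    ⟨⟨30, 34⟩, ⟨6, 0⟩, 2, ⟨290, 66⟩⟩,
    ⟨⟨120, 34⟩, ⟨6, 0⟩, 2, ⟨440, 66⟩⟩,
    ⟨⟨210, 34⟩, ⟨5, 0⟩, 0, ⟨350, 60⟩⟩,
    ⟨⟨285, 34⟩, ⟨5, -1⟩, 0, ⟨475, 60⟩⟩,
    ⟨⟨0, 5⟩, ⟨2, 1⟩, 1, ⟨120, 18⟩⟩,
    ⟨⟨30, 20⟩, ⟨0, 1⟩, 2, ⟨290, 46⟩⟩,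
    ⟨⟨30, 35⟩, ⟨9, 0⟩, 2, ⟨290, 71⟩⟩,
    ⟨⟨165, 35⟩, ⟨9, 0⟩, 2, ⟨515, 71⟩⟩,
    ⟨⟨300, 35⟩, ⟨4, -1⟩, 0, ⟨500, 65⟩⟩,
    ⟨⟨0, 6⟩, ⟨7, 0⟩, 1, ⟨120, 13⟩⟩,
    ⟨⟨105, 6⟩, ⟨7, 2⟩, 1, ⟨295, 13⟩⟩,
    ⟨⟨210, 36⟩, ⟨5, 0⟩, 2, ⟨590, 66⟩⟩,
    ⟨⟨285, 36⟩, ⟨5, -1⟩, 2, ⟨715, 66⟩⟩,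
    ⟨⟨0, 7⟩, ⟨2, 1⟩, 0, ⟨0, 15⟩⟩,
    ⟨⟨30, 22⟩, ⟨0, 1⟩, 1, ⟨170, 43⟩⟩,
    ⟨⟨30, 37⟩, ⟨6, 0⟩, 1, ⟨170, 68⟩⟩,
    ⟨⟨120, 37⟩, ⟨6, 0⟩, 1, ⟨320, 68⟩⟩,
    ⟨⟨210, 37⟩, ⟨6, 0⟩, 0, ⟨350, 65⟩⟩,
    ⟨⟨300, 37⟩, ⟨4, -1⟩, 2, ⟨740, 71⟩⟩,
    ⟨⟨0, 8⟩, ⟨8, 1⟩, 0, ⟨0, 20⟩⟩,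
    ⟨⟨120, 23⟩, ⟨6, 0⟩, 1, ⟨320, 48⟩⟩,
    ⟨⟨210, 23⟩, ⟨6, 1⟩, 1, ⟨470, 48⟩⟩,
    ⟨⟨300, 38⟩, ⟨4, -1⟩, 2, ⟨740, 76⟩⟩,
    ⟨⟨0, 9⟩, ⟨2, 1⟩, 2, ⟨240, 21⟩⟩,
    ⟨⟨30, 24⟩, ⟨6, 0⟩, 0, ⟨50, 40⟩⟩,
    ⟨⟨120, 24⟩, ⟨6, 1⟩, 0, ⟨200, 40⟩⟩,
    ⟨⟨210, 39⟩, ⟨5, 0⟩, 1, ⟨470, 68⟩⟩,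
    ⟨⟨285, 39⟩, ⟨5, -2⟩, 1, ⟨595, 68⟩⟩,
    ⟨⟨0, 10⟩, ⟨2, 1⟩, 2, ⟨240, 26⟩⟩,
    ⟨⟨30, 25⟩, ⟨6, 0⟩, 1, ⟨170, 48⟩⟩,
    ⟨⟨120, 25⟩, ⟨6, 0⟩, 0, ⟨200, 45⟩⟩,
    ⟨⟨210, 25⟩, ⟨6, 0⟩, 0, ⟨350, 45⟩⟩,
    ⟨⟨300, 25⟩, ⟨0, 1⟩, 0, ⟨500, 45⟩⟩,
    ⟨⟨300, 40⟩, ⟨4, -2⟩, 1, ⟨620, 73⟩⟩,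
    ⟨⟨0, 11⟩, ⟨8, 1⟩, 2, ⟨240, 31⟩⟩,
    ⟨⟨120, 26⟩, ⟨8, 0⟩, 0, ⟨200, 50⟩⟩,
    ⟨⟨240, 26⟩, ⟨8, -1⟩, 0, ⟨400, 50⟩⟩,
    ⟨⟨0, 12⟩, ⟨2, 1⟩, 1, ⟨120, 23⟩⟩,
    ⟨⟨30, 27⟩, ⟨9, 0⟩, 2, ⟨290, 51⟩⟩,
    ⟨⟨165, 27⟩, ⟨9, 0⟩, 2, ⟨515, 51⟩⟩,
    ⟨⟨300, 27⟩, ⟨0, 1⟩, 2, ⟨740, 51⟩⟩,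
    ⟨⟨300, 42⟩, ⟨4, -2⟩, 0, ⟨500, 70⟩⟩,
    ⟨⟨0, 13⟩, ⟨8, 1⟩, 1, ⟨120, 28⟩⟩,
    ⟨⟨120, 28⟩, ⟨6, 0⟩, 2, ⟨440, 56⟩⟩,
    ⟨⟨210, 28⟩, ⟨6, 0⟩, 2, ⟨590, 56⟩⟩,
    ⟨⟨300, 28⟩, ⟨0, 1⟩, 2, ⟨740, 56⟩⟩,
    ⟨⟨300, 43⟩, ⟨4, -2⟩, 1, ⟨620, 78⟩⟩,
    ⟨⟨0, 14⟩, ⟨7, 0⟩, 1, ⟨120, 33⟩⟩,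
    ⟨⟨105, 14⟩, ⟨7, 1⟩, 1, ⟨295, 33⟩⟩,
    ⟨⟨210, 29⟩, ⟨5, 0⟩, 2, ⟨590, 61⟩⟩,
    ⟨⟨285, 29⟩, ⟨5, -1⟩, 2, ⟨715, 61⟩⟩]

theorem ok2 : famOK ctx base fam2 = true := by decide +kernel

def fam3 : Fam where
  ints := [(⟨50, 35⟩, ⟨75, 35⟩)]
  arcs := [
    ⟨⟨0, 0⟩, ⟨4, 0⟩, 0, ⟨0, 0⟩⟩,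
    ⟨⟨60, 0⟩, ⟨5, 2⟩, 0, ⟨100, 0⟩⟩,
    ⟨⟨135, 30⟩, ⟨6, 0⟩, 1, ⟨345, 53⟩⟩,
    ⟨⟨225, 30⟩, ⟨6, 0⟩, 1, ⟨495, 53⟩⟩,
    ⟨⟨315, 30⟩, ⟨0, 1⟩, 1, ⟨645, 53⟩⟩,
    ⟨⟨315, 45⟩, ⟨3, -2⟩, 2, ⟨765, 81⟩⟩,
    ⟨⟨0, 1⟩, ⟨4, 0⟩, 0, ⟨0, 5⟩⟩,
    ⟨⟨60, 1⟩, ⟨5, 2⟩, 0, ⟨100, 5⟩⟩,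
    ⟨⟨135, 31⟩, ⟨6, 0⟩, 2, ⟨465, 61⟩⟩,
    ⟨⟨225, 31⟩, ⟨9, -1⟩, 1, ⟨495, 58⟩⟩,
    ⟨⟨0, 2⟩, ⟨3, 1⟩, 2, ⟨240, 16⟩⟩,
    ⟨⟨45, 17⟩, ⟨0, 1⟩, 0, ⟨75, 35⟩⟩,
    ⟨⟨45, 32⟩, ⟨6, 0⟩, 0, ⟨75, 60⟩⟩,
    ⟨⟨135, 32⟩, ⟨6, 0⟩, 0, ⟨225, 60⟩⟩,
    ⟨⟨225, 32⟩, ⟨9, -1⟩, 1, ⟨495, 63⟩⟩,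
    ⟨⟨0, 3⟩, ⟨4, 0⟩, 2, ⟨240, 11⟩⟩,
    ⟨⟨60, 3⟩, ⟨5, 2⟩, 2, ⟨340, 11⟩⟩,
    ⟨⟨135, 33⟩, ⟨7, 0⟩, 0, ⟨225, 55⟩⟩,
    ⟨⟨240, 33⟩, ⟨8, -1⟩, 0, ⟨400, 55⟩⟩,
    ⟨⟨0, 4⟩, ⟨3, 1⟩, 0, ⟨0, 10⟩⟩,
    ⟨⟨45, 19⟩, ⟨0, 1⟩, 2, ⟨315, 41⟩⟩,
    ⟨⟨45, 34⟩, ⟨6, 0⟩, 2, ⟨315, 66⟩⟩,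
    ⟨⟨135, 34⟩, ⟨6, 0⟩, 2, ⟨465, 66⟩⟩,
    ⟨⟨225, 34⟩, ⟨9, -1⟩, 0, ⟨375, 60⟩⟩,
    ⟨⟨0, 5⟩, ⟨3, 1⟩, 1, ⟨120, 18⟩⟩,
    ⟨⟨45, 20⟩, ⟨0, 1⟩, 2, ⟨315, 46⟩⟩,
    ⟨⟨45, 35⟩, ⟨9, 0⟩, 2, ⟨315, 71⟩⟩,
    ⟨⟨180, 35⟩, ⟨9, 0⟩, 2, ⟨540, 71⟩⟩,
    ⟨⟨315, 35⟩, ⟨3, -1⟩, 0, ⟨525, 65⟩⟩,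
    ⟨⟨0, 6⟩, ⟨7, 0⟩, 1, ⟨120, 13⟩⟩,
    ⟨⟨105, 6⟩, ⟨8, 2⟩, 1, ⟨295, 13⟩⟩,
    ⟨⟨225, 36⟩, ⟨9, -1⟩, 2, ⟨615, 66⟩⟩,
    ⟨⟨0, 7⟩, ⟨3, 1⟩, 0, ⟨0, 15⟩⟩,
    ⟨⟨45, 22⟩, ⟨0, 1⟩, 1, ⟨195, 43⟩⟩,
    ⟨⟨45, 37⟩, ⟨6, 0⟩, 1, ⟨195, 68⟩⟩,
    ⟨⟨135, 37⟩, ⟨6, 0⟩, 1, ⟨345, 68⟩⟩,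
    ⟨⟨225, 37⟩, ⟨6, 0⟩, 0, ⟨375, 65⟩⟩,
    ⟨⟨315, 37⟩, ⟨3, -1⟩, 2, ⟨765, 71⟩⟩,
    ⟨⟨0, 8⟩, ⟨9, 1⟩, 0, ⟨0, 20⟩⟩,
    ⟨⟨135, 23⟩, ⟨6, 0⟩, 1, ⟨345, 48⟩⟩,
    ⟨⟨225, 23⟩, ⟨6, 1⟩, 1, ⟨495, 48⟩⟩,
    ⟨⟨315, 38⟩, ⟨3, -1⟩, 2, ⟨765, 76⟩⟩,
    ⟨⟨0, 9⟩, ⟨3, 1⟩, 2, ⟨240, 21⟩⟩,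
    ⟨⟨45, 24⟩, ⟨6, 0⟩, 0, ⟨75, 40⟩⟩,
    ⟨⟨135, 24⟩, ⟨6, 1⟩, 0, ⟨225, 40⟩⟩,
    ⟨⟨225, 39⟩, ⟨9, -2⟩, 1, ⟨495, 68⟩⟩,
    ⟨⟨0, 10⟩, ⟨3, 1⟩, 2, ⟨240, 26⟩⟩,
    ⟨⟨45, 25⟩, ⟨6, 0⟩, 1, ⟨195, 48⟩⟩,
    ⟨⟨135, 25⟩, ⟨6, 0⟩, 0, ⟨225, 45⟩⟩,
    ⟨⟨225, 25⟩, ⟨6, 0⟩, 0, ⟨375, 45⟩⟩,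
    ⟨⟨315, 25⟩, ⟨0, 1⟩, 0, ⟨525, 45⟩⟩,
    ⟨⟨315, 40⟩, ⟨3, -2⟩, 1, ⟨645, 73⟩⟩,
    ⟨⟨0, 11⟩, ⟨9, 1⟩, 2, ⟨240, 31⟩⟩,
    ⟨⟨135, 26⟩, ⟨7, 0⟩, 0, ⟨225, 50⟩⟩,
    ⟨⟨240, 26⟩, ⟨8, -1⟩, 0, ⟨400, 50⟩⟩,
    ⟨⟨0, 12⟩, ⟨3, 1⟩, 1, ⟨120, 23⟩⟩,
    ⟨⟨45, 27⟩, ⟨9, 0⟩, 2, ⟨315, 51⟩⟩,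
    ⟨⟨180, 27⟩, ⟨9, 0⟩, 2, ⟨540, 51⟩⟩,
    ⟨⟨315, 27⟩, ⟨0, 1⟩, 2, ⟨765, 51⟩⟩,
    ⟨⟨315, 42⟩, ⟨3, -2⟩, 0, ⟨525, 70⟩⟩,
    ⟨⟨0, 13⟩, ⟨9, 1⟩, 1, ⟨120, 28⟩⟩,
    ⟨⟨135, 28⟩, ⟨6, 0⟩, 2, ⟨465, 56⟩⟩,
    ⟨⟨225, 28⟩, ⟨6, 0⟩, 2, ⟨615, 56⟩⟩,
    ⟨⟨315, 28⟩, ⟨0, 1⟩, 2, ⟨765, 56⟩⟩,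
    ⟨⟨315, 43⟩, ⟨3, -2⟩, 1, ⟨645, 78⟩⟩,
    ⟨⟨0, 14⟩, ⟨7, 0⟩, 1, ⟨120, 33⟩⟩,
    ⟨⟨105, 14⟩, ⟨8, 1⟩, 1, ⟨295, 33⟩⟩,
    ⟨⟨225, 29⟩, ⟨9, -1⟩, 2, ⟨615, 61⟩⟩]

theorem ok3 : famOK ctx base fam3 = true := by decide +kernel

def fam4 : Fam where
  ints := [(⟨75, 35⟩, ⟨100, 35⟩)]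
  arcs := [
    ⟨⟨0, 0⟩, ⟨5, 0⟩, 0, ⟨0, 0⟩⟩,
    ⟨⟨75, 0⟩, ⟨5, 2⟩, 0, ⟨125, 0⟩⟩,
    ⟨⟨150, 30⟩, ⟨6, 0⟩, 1, ⟨370, 53⟩⟩,
    ⟨⟨240, 30⟩, ⟨6, 0⟩, 1, ⟨520, 53⟩⟩,
    ⟨⟨330, 30⟩, ⟨0, 1⟩, 1, ⟨670, 53⟩⟩,
    ⟨⟨330, 45⟩, ⟨2, -2⟩, 2, ⟨790, 81⟩⟩,
    ⟨⟨0, 1⟩, ⟨5, 0⟩, 0, ⟨0, 5⟩⟩,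
    ⟨⟨75, 1⟩, ⟨5, 2⟩, 0, ⟨125, 5⟩⟩,
    ⟨⟨150, 31⟩, ⟨6, 0⟩, 2, ⟨490, 61⟩⟩,
    ⟨⟨240, 31⟩, ⟨8, -1⟩, 1, ⟨520, 58⟩⟩,
    ⟨⟨0, 2⟩, ⟨4, 1⟩, 2, ⟨240, 16⟩⟩,
    ⟨⟨60, 17⟩, ⟨0, 1⟩, 0, ⟨100, 35⟩⟩,
    ⟨⟨60, 32⟩, ⟨6, 0⟩, 0, ⟨100, 60⟩⟩,
    ⟨⟨150, 32⟩, ⟨6, 0⟩, 0, ⟨250, 60⟩⟩,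
    ⟨⟨240, 32⟩, ⟨8, -1⟩, 1, ⟨520, 63⟩⟩,
    ⟨⟨0, 3⟩, ⟨5, 0⟩, 2, ⟨240, 11⟩⟩,
    ⟨⟨75, 3⟩, ⟨5, 2⟩, 2, ⟨365, 11⟩⟩,
    ⟨⟨150, 33⟩, ⟨7, 0⟩, 0, ⟨250, 55⟩⟩,
    ⟨⟨255, 33⟩, ⟨7, -1⟩, 0, ⟨425, 55⟩⟩,
    ⟨⟨0, 4⟩, ⟨4, 1⟩, 0, ⟨0, 10⟩⟩,
    ⟨⟨60, 19⟩, ⟨0, 1⟩, 2, ⟨340, 41⟩⟩,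
    ⟨⟨60, 34⟩, ⟨6, 0⟩, 2, ⟨340, 66⟩⟩,
    ⟨⟨150, 34⟩, ⟨6, 0⟩, 2, ⟨490, 66⟩⟩,
    ⟨⟨240, 34⟩, ⟨8, -1⟩, 0, ⟨400, 60⟩⟩,
    ⟨⟨0, 5⟩, ⟨4, 1⟩, 1, ⟨120, 18⟩⟩,
    ⟨⟨60, 20⟩, ⟨0, 1⟩, 2, ⟨340, 46⟩⟩,
    ⟨⟨60, 35⟩, ⟨9, 0⟩, 2, ⟨340, 71⟩⟩,
    ⟨⟨195, 35⟩, ⟨9, 0⟩, 2, ⟨565, 71⟩⟩,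
    ⟨⟨330, 35⟩, ⟨2, -1⟩, 0, ⟨550, 65⟩⟩,
    ⟨⟨0, 6⟩, ⟨8, 0⟩, 1, ⟨120, 13⟩⟩,
    ⟨⟨120, 6⟩, ⟨8, 2⟩, 1, ⟨320, 13⟩⟩,
    ⟨⟨240, 36⟩, ⟨8, -1⟩, 2, ⟨640, 66⟩⟩,
    ⟨⟨0, 7⟩, ⟨4, 1⟩, 0, ⟨0, 15⟩⟩,
    ⟨⟨60, 22⟩, ⟨0, 1⟩, 1, ⟨220, 43⟩⟩,
    ⟨⟨60, 37⟩, ⟨6, 0⟩, 1, ⟨220, 68⟩⟩,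
    ⟨⟨150, 37⟩, ⟨6, 0⟩, 1, ⟨370, 68⟩⟩,
    ⟨⟨240, 37⟩, ⟨6, 0⟩, 0, ⟨400, 65⟩⟩,
    ⟨⟨330, 37⟩, ⟨2, -1⟩, 2, ⟨790, 71⟩⟩,
    ⟨⟨0, 8⟩, ⟨5, 0⟩, 0, ⟨0, 20⟩⟩,
    ⟨⟨75, 8⟩, ⟨5, 1⟩, 0, ⟨125, 20⟩⟩,
    ⟨⟨150, 23⟩, ⟨6, 0⟩, 1, ⟨370, 48⟩⟩,
    ⟨⟨240, 23⟩, ⟨6, 1⟩, 1, ⟨520, 48⟩⟩,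
    ⟨⟨330, 38⟩, ⟨2, -1⟩, 2, ⟨790, 76⟩⟩,
    ⟨⟨0, 9⟩, ⟨4, 1⟩, 2, ⟨240, 21⟩⟩,
    ⟨⟨60, 24⟩, ⟨6, 0⟩, 0, ⟨100, 40⟩⟩,
    ⟨⟨150, 24⟩, ⟨6, 1⟩, 0, ⟨250, 40⟩⟩,
    ⟨⟨240, 39⟩, ⟨8, -2⟩, 1, ⟨520, 68⟩⟩,
    ⟨⟨0, 10⟩, ⟨4, 1⟩, 2, ⟨240, 26⟩⟩,
    ⟨⟨60, 25⟩, ⟨6, 0⟩, 1, ⟨220, 48⟩⟩,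
    ⟨⟨150, 25⟩, ⟨6, 0⟩, 0, ⟨250, 45⟩⟩,
    ⟨⟨240, 25⟩, ⟨6, 0⟩, 0, ⟨400, 45⟩⟩,
    ⟨⟨330, 25⟩, ⟨0, 1⟩, 0, ⟨550, 45⟩⟩,
    ⟨⟨330, 40⟩, ⟨2, -2⟩, 1, ⟨670, 73⟩⟩,
    ⟨⟨0, 11⟩, ⟨5, 0⟩, 2, ⟨240, 31⟩⟩,
    ⟨⟨75, 11⟩, ⟨5, 1⟩, 2, ⟨365, 31⟩⟩,
    ⟨⟨150, 26⟩, ⟨7, 0⟩, 0, ⟨250, 50⟩⟩,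
    ⟨⟨255, 26⟩, ⟨7, -1⟩, 0, ⟨425, 50⟩⟩,
    ⟨⟨0, 12⟩, ⟨4, 1⟩, 1, ⟨120, 23⟩⟩,
    ⟨⟨60, 27⟩, ⟨9, 0⟩, 2, ⟨340, 51⟩⟩,
    ⟨⟨195, 27⟩, ⟨9, 0⟩, 2, ⟨565, 51⟩⟩,
    ⟨⟨330, 27⟩, ⟨0, 1⟩, 2, ⟨790, 51⟩⟩,
    ⟨⟨330, 42⟩, ⟨2, -2⟩, 0, ⟨550, 70⟩⟩,
    ⟨⟨0, 13⟩, ⟨5, 0⟩, 1, ⟨120, 28⟩⟩,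
    ⟨⟨75, 13⟩, ⟨5, 1⟩, 1, ⟨245, 28⟩⟩,
    ⟨⟨150, 28⟩, ⟨6, 0⟩, 2, ⟨490, 56⟩⟩,
    ⟨⟨240, 28⟩, ⟨6, 0⟩, 2, ⟨640, 56⟩⟩,
    ⟨⟨330, 28⟩, ⟨0, 1⟩, 2, ⟨790, 56⟩⟩,
    ⟨⟨330, 43⟩, ⟨2, -2⟩, 1, ⟨670, 78⟩⟩,
    ⟨⟨0, 14⟩, ⟨8, 0⟩, 1, ⟨120, 33⟩⟩,
    ⟨⟨120, 14⟩, ⟨8, 1⟩, 1, ⟨320, 33⟩⟩,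
    ⟨⟨240, 29⟩, ⟨8, -1⟩, 2, ⟨640, 61⟩⟩]

theorem ok4 : famOK ctx base fam4 = true := by decide +kernel

def cover : List (Aff × Aff) := [(⟨0, 0⟩, ⟨0, 35⟩), (⟨0, 35⟩, ⟨25, 35⟩), (⟨25, 35⟩, ⟨50, 35⟩), (⟨50, 35⟩, ⟨75, 35⟩), (⟨75, 35⟩, ⟨100, 35⟩), (⟨90, 41⟩, ⟨120, 3⟩)]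

theorem ok : allOK ctx base [fam0, fam1, fam2, fam3, fam4] cover = true := by
  have h : (cov ctx [fam0, fam1, fam2, fam3, fam4] cover ⟨0, 0⟩ && pos ctx ctx.k && stepOK ctx && baseOK ctx base) = true := by decide +kernel
  simp only [allOK, List.all_cons, List.all_nil, Bool.and_true, ok0, ok1, ok2, ok3, ok4, Bool.true_and]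
  exact h

end Pool.Agent.H57.QY.F3
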