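import Pool.Agent.H57.QY.Fam

/-!
# Exact families: `k = 120 t + 81`, `t ≥ 7` (found by helper58)
-/

set_option autoImplicit false

namespace Pool.Agent.H57.QY.F81

def ctx : Ctx := ⟨7, 120, 81, 15, 25⟩

def base : List Arc := [
    ⟨⟨0, 0⟩, ⟨24, 17⟩, 0, ⟨0, 0⟩⟩,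
    ⟨⟨0, 1⟩, ⟨24, 17⟩, 0, ⟨0, 5⟩⟩,
    ⟨⟨0, 2⟩, ⟨24, 17⟩, 0, ⟨0, 10⟩⟩,
    ⟨⟨0, 3⟩, ⟨24, 16⟩, 0, ⟨0, 5⟩⟩,
    ⟨⟨0, 4⟩, ⟨24, 16⟩, 0, ⟨0, 10⟩⟩,
    ⟨⟨0, 5⟩, ⟨24, 16⟩, 0, ⟨0, 15⟩⟩,
    ⟨⟨0, 6⟩, ⟨24, 16⟩, 0, ⟨0, 10⟩⟩,
    ⟨⟨0, 7⟩, ⟨24, 16⟩, 0, ⟨0, 15⟩⟩,
    ⟨⟨0, 8⟩, ⟨24, 16⟩, 0, ⟨0, 20⟩⟩,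
    ⟨⟨0, 9⟩, ⟨24, 16⟩, 0, ⟨0, 15⟩⟩,
    ⟨⟨0, 10⟩, ⟨24, 16⟩, 0, ⟨0, 20⟩⟩,
    ⟨⟨0, 11⟩, ⟨24, 16⟩, 0, ⟨0, 25⟩⟩,
    ⟨⟨0, 12⟩, ⟨24, 16⟩, 0, ⟨0, 20⟩⟩,
    ⟨⟨0, 13⟩, ⟨24, 16⟩, 0, ⟨0, 25⟩⟩,
    ⟨⟨0, 14⟩, ⟨24, 16⟩, 0, ⟨0, 30⟩⟩]

def fam0 : Fam where
  ints := [(⟨0, 0⟩, ⟨0, 30⟩), (⟨90, 92⟩, ⟨120, 81⟩)]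
  arcs := [
    ⟨⟨0, 0⟩, ⟨6, 6⟩, 2, ⟨240, 162⟩⟩,
    ⟨⟨90, 90⟩, ⟨6, 0⟩, 1, ⟨270, 231⟩⟩,
    ⟨⟨180, 90⟩, ⟨6, 0⟩, 1, ⟨420, 231⟩⟩,
    ⟨⟨270, 90⟩, ⟨6, 11⟩, 1, ⟨570, 231⟩⟩,
    ⟨⟨0, 1⟩, ⟨0, 1⟩, 0, ⟨0, 5⟩⟩,
    ⟨⟨0, 16⟩, ⟨0, 1⟩, 0, ⟨0, 30⟩⟩,
    ⟨⟨0, 31⟩, ⟨6, 0⟩, 1, ⟨120, 136⟩⟩,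
    ⟨⟨90, 31⟩, ⟨6, 0⟩, 1, ⟨270, 136⟩⟩,
    ⟨⟨180, 31⟩, ⟨6, 0⟩, 1, ⟨420, 136⟩⟩,
    ⟨⟨270, 31⟩, ⟨6, 15⟩, 1, ⟨570, 136⟩⟩,
    ⟨⟨0, 2⟩, ⟨6, 0⟩, 1, ⟨120, 91⟩⟩,
    ⟨⟨90, 2⟩, ⟨6, 0⟩, 1, ⟨270, 91⟩⟩,
    ⟨⟨180, 2⟩, ⟨6, 13⟩, 1, ⟨420, 91⟩⟩,
    ⟨⟨270, 197⟩, ⟨0, 1⟩, 0, ⟨450, 335⟩⟩,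
    ⟨⟨270, 212⟩, ⟨6, 3⟩, 0, ⟨450, 360⟩⟩,
    ⟨⟨0, 3⟩, ⟨0, 1⟩, 1, ⟨120, 86⟩⟩,
    ⟨⟨0, 18⟩, ⟨0, 1⟩, 1, ⟨120, 111⟩⟩,
    ⟨⟨0, 33⟩, ⟨8, 0⟩, 0, ⟨0, 55⟩⟩,
    ⟨⟨120, 33⟩, ⟨8, 0⟩, 0, ⟨200, 55⟩⟩,
    ⟨⟨240, 33⟩, ⟨8, 14⟩, 0, ⟨400, 55⟩⟩,
    ⟨⟨0, 4⟩, ⟨6, 0⟩, 0, ⟨0, 10⟩⟩,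
    ⟨⟨90, 4⟩, ⟨6, 0⟩, 0, ⟨150, 10⟩⟩,
    ⟨⟨180, 4⟩, ⟨6, 13⟩, 0, ⟨300, 10⟩⟩,
    ⟨⟨270, 199⟩, ⟨0, 1⟩, 1, ⟨570, 416⟩⟩,
    ⟨⟨270, 214⟩, ⟨6, 2⟩, 1, ⟨570, 441⟩⟩,
    ⟨⟨0, 5⟩, ⟨6, 0⟩, 0, ⟨0, 15⟩⟩,
    ⟨⟨90, 5⟩, ⟨6, 9⟩, 0, ⟨150, 15⟩⟩,
    ⟨⟨180, 140⟩, ⟨6, 0⟩, 2, ⟨540, 402⟩⟩,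
    ⟨⟨270, 140⟩, ⟨6, 7⟩, 2, ⟨690, 402⟩⟩,
    ⟨⟨0, 6⟩, ⟨6, 0⟩, 2, ⟨240, 172⟩⟩,
    ⟨⟨90, 6⟩, ⟨6, 0⟩, 2, ⟨390, 172⟩⟩,
    ⟨⟨180, 6⟩, ⟨6, 0⟩, 2, ⟨540, 172⟩⟩,
    ⟨⟨270, 6⟩, ⟨6, 16⟩, 2, ⟨690, 172⟩⟩,
    ⟨⟨0, 7⟩, ⟨6, 0⟩, 2, ⟨240, 177⟩⟩,
    ⟨⟨90, 7⟩, ⟨6, 9⟩, 2, ⟨390, 177⟩⟩,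
    ⟨⟨180, 142⟩, ⟨6, 4⟩, 0, ⟨300, 240⟩⟩,
    ⟨⟨270, 202⟩, ⟨6, 3⟩, 1, ⟨570, 421⟩⟩,
    ⟨⟨0, 8⟩, ⟨6, 5⟩, 2, ⟨240, 182⟩⟩,
    ⟨⟨90, 83⟩, ⟨6, 0⟩, 1, ⟨270, 226⟩⟩,
    ⟨⟨180, 83⟩, ⟨6, 0⟩, 1, ⟨420, 226⟩⟩,
    ⟨⟨270, 83⟩, ⟨6, 11⟩, 1, ⟨570, 226⟩⟩,
    ⟨⟨0, 9⟩, ⟨6, 0⟩, 1, ⟨120, 96⟩⟩,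
    ⟨⟨90, 9⟩, ⟨6, 0⟩, 1, ⟨270, 96⟩⟩,
    ⟨⟨180, 9⟩, ⟨6, 13⟩, 1, ⟨420, 96⟩⟩,
    ⟨⟨270, 204⟩, ⟨6, 3⟩, 0, ⟨450, 340⟩⟩,
    ⟨⟨0, 10⟩, ⟨6, 5⟩, 1, ⟨120, 101⟩⟩,
    ⟨⟨90, 85⟩, ⟨6, 4⟩, 2, ⟨390, 307⟩⟩,
    ⟨⟨180, 145⟩, ⟨6, 0⟩, 0, ⟨300, 245⟩⟩,
    ⟨⟨270, 145⟩, ⟨6, 7⟩, 0, ⟨450, 245⟩⟩,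
    ⟨⟨0, 11⟩, ⟨0, 1⟩, 1, ⟨120, 106⟩⟩,
    ⟨⟨0, 26⟩, ⟨6, 0⟩, 0, ⟨0, 50⟩⟩,
    ⟨⟨90, 26⟩, ⟨6, 0⟩, 0, ⟨150, 50⟩⟩,
    ⟨⟨180, 26⟩, ⟨6, 0⟩, 0, ⟨300, 50⟩⟩,
    ⟨⟨270, 26⟩, ⟨6, 15⟩, 0, ⟨450, 50⟩⟩,
    ⟨⟨0, 12⟩, ⟨6, 0⟩, 0, ⟨0, 20⟩⟩,
    ⟨⟨90, 12⟩, ⟨6, 9⟩, 0, ⟨150, 20⟩⟩,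
    ⟨⟨180, 147⟩, ⟨6, 0⟩, 2, ⟨540, 407⟩⟩,
    ⟨⟨270, 147⟩, ⟨6, 7⟩, 2, ⟨690, 407⟩⟩,
    ⟨⟨0, 13⟩, ⟨0, 1⟩, 0, ⟨0, 25⟩⟩,
    ⟨⟨0, 28⟩, ⟨6, 4⟩, 1, ⟨120, 131⟩⟩,
    ⟨⟨90, 88⟩, ⟨6, 0⟩, 2, ⟨390, 312⟩⟩,
    ⟨⟨180, 88⟩, ⟨6, 0⟩, 2, ⟨540, 312⟩⟩,
    ⟨⟨270, 88⟩, ⟨6, 11⟩, 2, ⟨690, 312⟩⟩,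
    ⟨⟨0, 14⟩, ⟨6, 0⟩, 2, ⟨240, 192⟩⟩,
    ⟨⟨90, 14⟩, ⟨6, 0⟩, 2, ⟨390, 192⟩⟩,
    ⟨⟨180, 14⟩, ⟨6, 0⟩, 2, ⟨540, 192⟩⟩,
    ⟨⟨270, 14⟩, ⟨6, 16⟩, 2, ⟨690, 192⟩⟩]

theorem ok0 : famOK ctx base fam0 = true := by decide +kernel

def fam1 : Fam where
  ints := [(⟨0, 30⟩, ⟨25, 30⟩)]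
  arcs := [
    ⟨⟨0, 0⟩, ⟨7, 6⟩, 2, ⟨240, 162⟩⟩,
    ⟨⟨105, 90⟩, ⟨5, 0⟩, 1, ⟨295, 231⟩⟩,
    ⟨⟨180, 90⟩, ⟨6, 0⟩, 1, ⟨420, 231⟩⟩,
    ⟨⟨270, 90⟩, ⟨6, 11⟩, 1, ⟨570, 231⟩⟩,
    ⟨⟨0, 1⟩, ⟨1, 1⟩, 0, ⟨0, 5⟩⟩,
    ⟨⟨15, 16⟩, ⟨0, 1⟩, 0, ⟨25, 30⟩⟩,
    ⟨⟨15, 31⟩, ⟨5, 0⟩, 1, ⟨145, 136⟩⟩,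
    ⟨⟨90, 31⟩, ⟨6, 0⟩, 1, ⟨270, 136⟩⟩,
    ⟨⟨180, 31⟩, ⟨6, 0⟩, 1, ⟨420, 136⟩⟩,
    ⟨⟨270, 31⟩, ⟨6, 15⟩, 1, ⟨570, 136⟩⟩,
    ⟨⟨0, 2⟩, ⟨6, 0⟩, 1, ⟨120, 91⟩⟩,
    ⟨⟨90, 2⟩, ⟨6, 0⟩, 1, ⟨270, 91⟩⟩,
    ⟨⟨180, 2⟩, ⟨7, 13⟩, 1, ⟨420, 91⟩⟩,
    ⟨⟨285, 197⟩, ⟨0, 1⟩, 0, ⟨475, 335⟩⟩,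
    ⟨⟨285, 212⟩, ⟨5, 3⟩, 0, ⟨475, 360⟩⟩,
    ⟨⟨0, 3⟩, ⟨1, 1⟩, 1, ⟨120, 86⟩⟩,
    ⟨⟨15, 18⟩, ⟨0, 1⟩, 1, ⟨145, 111⟩⟩,
    ⟨⟨15, 33⟩, ⟨7, 0⟩, 0, ⟨25, 55⟩⟩,
    ⟨⟨120, 33⟩, ⟨8, 0⟩, 0, ⟨200, 55⟩⟩,
    ⟨⟨240, 33⟩, ⟨8, 14⟩, 0, ⟨400, 55⟩⟩,
    ⟨⟨0, 4⟩, ⟨6, 0⟩, 0, ⟨0, 10⟩⟩,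
    ⟨⟨90, 4⟩, ⟨6, 0⟩, 0, ⟨150, 10⟩⟩,
    ⟨⟨180, 4⟩, ⟨7, 13⟩, 0, ⟨300, 10⟩⟩,
    ⟨⟨285, 199⟩, ⟨0, 1⟩, 1, ⟨595, 416⟩⟩,
    ⟨⟨285, 214⟩, ⟨5, 2⟩, 1, ⟨595, 441⟩⟩,
    ⟨⟨0, 5⟩, ⟨6, 0⟩, 0, ⟨0, 15⟩⟩,
    ⟨⟨90, 5⟩, ⟨7, 9⟩, 0, ⟨150, 15⟩⟩,
    ⟨⟨195, 140⟩, ⟨5, 0⟩, 2, ⟨565, 402⟩⟩,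
    ⟨⟨270, 140⟩, ⟨6, 7⟩, 2, ⟨690, 402⟩⟩,
    ⟨⟨0, 6⟩, ⟨6, 0⟩, 2, ⟨240, 172⟩⟩,
    ⟨⟨90, 6⟩, ⟨6, 0⟩, 2, ⟨390, 172⟩⟩,
    ⟨⟨180, 6⟩, ⟨6, 0⟩, 2, ⟨540, 172⟩⟩,
    ⟨⟨270, 6⟩, ⟨6, 16⟩, 2, ⟨690, 172⟩⟩,
    ⟨⟨0, 7⟩, ⟨6, 0⟩, 2, ⟨240, 177⟩⟩,
    ⟨⟨90, 7⟩, ⟨7, 9⟩, 2, ⟨390, 177⟩⟩,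
    ⟨⟨195, 142⟩, ⟨6, 4⟩, 0, ⟨325, 240⟩⟩,
    ⟨⟨285, 202⟩, ⟨5, 3⟩, 1, ⟨595, 421⟩⟩,
    ⟨⟨0, 8⟩, ⟨7, 5⟩, 2, ⟨240, 182⟩⟩,
    ⟨⟨105, 83⟩, ⟨5, 0⟩, 1, ⟨295, 226⟩⟩,
    ⟨⟨180, 83⟩, ⟨6, 0⟩, 1, ⟨420, 226⟩⟩,
    ⟨⟨270, 83⟩, ⟨6, 11⟩, 1, ⟨570, 226⟩⟩,
    ⟨⟨0, 9⟩, ⟨6, 0⟩, 1, ⟨120, 96⟩⟩,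
    ⟨⟨90, 9⟩, ⟨6, 0⟩, 1, ⟨270, 96⟩⟩,
    ⟨⟨180, 9⟩, ⟨7, 13⟩, 1, ⟨420, 96⟩⟩,
    ⟨⟨285, 204⟩, ⟨5, 3⟩, 0, ⟨475, 340⟩⟩,
    ⟨⟨0, 10⟩, ⟨7, 5⟩, 1, ⟨120, 101⟩⟩,
    ⟨⟨105, 85⟩, ⟨6, 4⟩, 2, ⟨415, 307⟩⟩,
    ⟨⟨195, 145⟩, ⟨5, 0⟩, 0, ⟨325, 245⟩⟩,
    ⟨⟨270, 145⟩, ⟨6, 7⟩, 0, ⟨450, 245⟩⟩,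
    ⟨⟨0, 11⟩, ⟨1, 1⟩, 1, ⟨120, 106⟩⟩,
    ⟨⟨15, 26⟩, ⟨5, 0⟩, 0, ⟨25, 50⟩⟩,
    ⟨⟨90, 26⟩, ⟨6, 0⟩, 0, ⟨150, 50⟩⟩,
    ⟨⟨180, 26⟩, ⟨6, 0⟩, 0, ⟨300, 50⟩⟩,
    ⟨⟨270, 26⟩, ⟨6, 15⟩, 0, ⟨450, 50⟩⟩,
    ⟨⟨0, 12⟩, ⟨6, 0⟩, 0, ⟨0, 20⟩⟩,
    ⟨⟨90, 12⟩, ⟨7, 9⟩, 0, ⟨150, 20⟩⟩,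
    ⟨⟨195, 147⟩, ⟨5, 0⟩, 2, ⟨565, 407⟩⟩,
    ⟨⟨270, 147⟩, ⟨6, 7⟩, 2, ⟨690, 407⟩⟩,
    ⟨⟨0, 13⟩, ⟨1, 1⟩, 0, ⟨0, 25⟩⟩,
    ⟨⟨15, 28⟩, ⟨6, 4⟩, 1, ⟨145, 131⟩⟩,
    ⟨⟨105, 88⟩, ⟨5, 0⟩, 2, ⟨415, 312⟩⟩,
    ⟨⟨180, 88⟩, ⟨6, 0⟩, 2, ⟨540, 312⟩⟩,
    ⟨⟨270, 88⟩, ⟨6, 11⟩, 2, ⟨690, 312⟩⟩,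
    ⟨⟨0, 14⟩, ⟨6, 0⟩, 2, ⟨240, 192⟩⟩,
    ⟨⟨90, 14⟩, ⟨6, 0⟩, 2, ⟨390, 192⟩⟩,
    ⟨⟨180, 14⟩, ⟨6, 0⟩, 2, ⟨540, 192⟩⟩,
    ⟨⟨270, 14⟩, ⟨6, 16⟩, 2, ⟨690, 192⟩⟩]

theorem ok1 : famOK ctx base fam1 = true := by decide +kernel

def fam2 : Fam where
  ints := [(⟨25, 30⟩, ⟨50, 30⟩)]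
  arcs := [
    ⟨⟨0, 0⟩, ⟨8, 6⟩, 2, ⟨240, 162⟩⟩,
    ⟨⟨120, 90⟩, ⟨8, 0⟩, 1, ⟨320, 231⟩⟩,
    ⟨⟨240, 90⟩, ⟨8, 11⟩, 1, ⟨520, 231⟩⟩,
    ⟨⟨0, 1⟩, ⟨2, 1⟩, 0, ⟨0, 5⟩⟩,
    ⟨⟨30, 16⟩, ⟨0, 1⟩, 0, ⟨50, 30⟩⟩,
    ⟨⟨30, 31⟩, ⟨5, 0⟩, 1, ⟨170, 136⟩⟩,
    ⟨⟨105, 31⟩, ⟨6, 0⟩, 1, ⟨295, 136⟩⟩,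
    ⟨⟨195, 31⟩, ⟨5, 0⟩, 1, ⟨445, 136⟩⟩,
    ⟨⟨270, 31⟩, ⟨6, 15⟩, 1, ⟨570, 136⟩⟩,
    ⟨⟨0, 2⟩, ⟨6, 0⟩, 1, ⟨120, 91⟩⟩,
    ⟨⟨90, 2⟩, ⟨7, 0⟩, 1, ⟨270, 91⟩⟩,
    ⟨⟨195, 2⟩, ⟨7, 13⟩, 1, ⟨445, 91⟩⟩,
    ⟨⟨300, 197⟩, ⟨0, 1⟩, 0, ⟨500, 335⟩⟩,
    ⟨⟨300, 212⟩, ⟨4, 3⟩, 0, ⟨500, 360⟩⟩,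
    ⟨⟨0, 3⟩, ⟨2, 1⟩, 1, ⟨120, 86⟩⟩,
    ⟨⟨30, 18⟩, ⟨0, 1⟩, 1, ⟨170, 111⟩⟩,
    ⟨⟨30, 33⟩, ⟨7, 0⟩, 0, ⟨50, 55⟩⟩,
    ⟨⟨135, 33⟩, ⟨7, 0⟩, 0, ⟨225, 55⟩⟩,
    ⟨⟨240, 33⟩, ⟨8, 14⟩, 0, ⟨400, 55⟩⟩,
    ⟨⟨0, 4⟩, ⟨6, 0⟩, 0, ⟨0, 10⟩⟩,
    ⟨⟨90, 4⟩, ⟨7, 0⟩, 0, ⟨150, 10⟩⟩,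
    ⟨⟨195, 4⟩, ⟨7, 13⟩, 0, ⟨325, 10⟩⟩,
    ⟨⟨300, 199⟩, ⟨0, 1⟩, 1, ⟨620, 416⟩⟩,
    ⟨⟨300, 214⟩, ⟨4, 2⟩, 1, ⟨620, 441⟩⟩,
    ⟨⟨0, 5⟩, ⟨7, 0⟩, 0, ⟨0, 15⟩⟩,
    ⟨⟨105, 5⟩, ⟨7, 9⟩, 0, ⟨175, 15⟩⟩,
    ⟨⟨210, 140⟩, ⟨5, 0⟩, 2, ⟨590, 402⟩⟩,
    ⟨⟨285, 140⟩, ⟨5, 7⟩, 2, ⟨715, 402⟩⟩,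
    ⟨⟨0, 6⟩, ⟨6, 0⟩, 2, ⟨240, 172⟩⟩,
    ⟨⟨90, 6⟩, ⟨6, 0⟩, 2, ⟨390, 172⟩⟩,
    ⟨⟨180, 6⟩, ⟨6, 0⟩, 2, ⟨540, 172⟩⟩,
    ⟨⟨270, 6⟩, ⟨6, 16⟩, 2, ⟨690, 172⟩⟩,
    ⟨⟨0, 7⟩, ⟨7, 0⟩, 2, ⟨240, 177⟩⟩,
    ⟨⟨105, 7⟩, ⟨7, 9⟩, 2, ⟨415, 177⟩⟩,
    ⟨⟨210, 142⟩, ⟨6, 4⟩, 0, ⟨350, 240⟩⟩,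
    ⟨⟨300, 202⟩, ⟨4, 3⟩, 1, ⟨620, 421⟩⟩,
    ⟨⟨0, 8⟩, ⟨8, 5⟩, 2, ⟨240, 182⟩⟩,
    ⟨⟨120, 83⟩, ⟨8, 0⟩, 1, ⟨320, 226⟩⟩,
    ⟨⟨240, 83⟩, ⟨8, 11⟩, 1, ⟨520, 226⟩⟩,
    ⟨⟨0, 9⟩, ⟨6, 0⟩, 1, ⟨120, 96⟩⟩,
    ⟨⟨90, 9⟩, ⟨7, 0⟩, 1, ⟨270, 96⟩⟩,
    ⟨⟨195, 9⟩, ⟨7, 13⟩, 1, ⟨445, 96⟩⟩,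
    ⟨⟨300, 204⟩, ⟨4, 3⟩, 0, ⟨500, 340⟩⟩,
    ⟨⟨0, 10⟩, ⟨8, 5⟩, 1, ⟨120, 101⟩⟩,
    ⟨⟨120, 85⟩, ⟨6, 4⟩, 2, ⟨440, 307⟩⟩,
    ⟨⟨210, 145⟩, ⟨5, 0⟩, 0, ⟨350, 245⟩⟩,
    ⟨⟨285, 145⟩, ⟨5, 7⟩, 0, ⟨475, 245⟩⟩,
    ⟨⟨0, 11⟩, ⟨2, 1⟩, 1, ⟨120, 106⟩⟩,
    ⟨⟨30, 26⟩, ⟨5, 0⟩, 0, ⟨50, 50⟩⟩,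
    ⟨⟨105, 26⟩, ⟨6, 0⟩, 0, ⟨175, 50⟩⟩,
    ⟨⟨195, 26⟩, ⟨5, 0⟩, 0, ⟨325, 50⟩⟩,
    ⟨⟨270, 26⟩, ⟨6, 15⟩, 0, ⟨450, 50⟩⟩,
    ⟨⟨0, 12⟩, ⟨7, 0⟩, 0, ⟨0, 20⟩⟩,
    ⟨⟨105, 12⟩, ⟨7, 9⟩, 0, ⟨175, 20⟩⟩,
    ⟨⟨210, 147⟩, ⟨5, 0⟩, 2, ⟨590, 407⟩⟩,
    ⟨⟨285, 147⟩, ⟨5, 7⟩, 2, ⟨715, 407⟩⟩,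
    ⟨⟨0, 13⟩, ⟨2, 1⟩, 0, ⟨0, 25⟩⟩,
    ⟨⟨30, 28⟩, ⟨6, 4⟩, 1, ⟨170, 131⟩⟩,
    ⟨⟨120, 88⟩, ⟨8, 0⟩, 2, ⟨440, 312⟩⟩,
    ⟨⟨240, 88⟩, ⟨8, 11⟩, 2, ⟨640, 312⟩⟩,
    ⟨⟨0, 14⟩, ⟨6, 0⟩, 2, ⟨240, 192⟩⟩,
    ⟨⟨90, 14⟩, ⟨6, 0⟩, 2, ⟨390, 192⟩⟩,
    ⟨⟨180, 14⟩, ⟨6, 0⟩, 2, ⟨540, 192⟩⟩,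
    ⟨⟨270, 14⟩, ⟨6, 16⟩, 2, ⟨690, 192⟩⟩]

theorem ok2 : famOK ctx base fam2 = true := by decide +kernel

def fam3 : Fam where
  ints := [(⟨50, 30⟩, ⟨75, 30⟩)]
  arcs := [
    ⟨⟨0, 0⟩, ⟨9, 6⟩, 2, ⟨240, 162⟩⟩,
    ⟨⟨135, 90⟩, ⟨7, 0⟩, 1, ⟨345, 231⟩⟩,
    ⟨⟨240, 90⟩, ⟨8, 11⟩, 1, ⟨520, 231⟩⟩,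
    ⟨⟨0, 1⟩, ⟨3, 1⟩, 0, ⟨0, 5⟩⟩,
    ⟨⟨45, 16⟩, ⟨0, 1⟩, 0, ⟨75, 30⟩⟩,
    ⟨⟨45, 31⟩, ⟨7, 0⟩, 1, ⟨195, 136⟩⟩,
    ⟨⟨150, 31⟩, ⟨7, 0⟩, 1, ⟨370, 136⟩⟩,
    ⟨⟨255, 31⟩, ⟨7, 15⟩, 1, ⟨545, 136⟩⟩,
    ⟨⟨0, 2⟩, ⟨7, 0⟩, 1, ⟨120, 91⟩⟩,
    ⟨⟨105, 2⟩, ⟨7, 0⟩, 1, ⟨295, 91⟩⟩,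
    ⟨⟨210, 2⟩, ⟨7, 13⟩, 1, ⟨470, 91⟩⟩,
    ⟨⟨315, 197⟩, ⟨0, 1⟩, 0, ⟨525, 335⟩⟩,
    ⟨⟨315, 212⟩, ⟨3, 3⟩, 0, ⟨525, 360⟩⟩,
    ⟨⟨0, 3⟩, ⟨3, 1⟩, 1, ⟨120, 86⟩⟩,
    ⟨⟨45, 18⟩, ⟨0, 1⟩, 1, ⟨195, 111⟩⟩,
    ⟨⟨45, 33⟩, ⟨7, 0⟩, 0, ⟨75, 55⟩⟩,
    ⟨⟨150, 33⟩, ⟨7, 0⟩, 0, ⟨250, 55⟩⟩,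
    ⟨⟨255, 33⟩, ⟨7, 14⟩, 0, ⟨425, 55⟩⟩,
    ⟨⟨0, 4⟩, ⟨7, 0⟩, 0, ⟨0, 10⟩⟩,
    ⟨⟨105, 4⟩, ⟨7, 0⟩, 0, ⟨175, 10⟩⟩,
    ⟨⟨210, 4⟩, ⟨7, 13⟩, 0, ⟨350, 10⟩⟩,
    ⟨⟨315, 199⟩, ⟨0, 1⟩, 1, ⟨645, 416⟩⟩,
    ⟨⟨315, 214⟩, ⟨3, 2⟩, 1, ⟨645, 441⟩⟩,
    ⟨⟨0, 5⟩, ⟨7, 0⟩, 0, ⟨0, 15⟩⟩,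
    ⟨⟨105, 5⟩, ⟨8, 9⟩, 0, ⟨175, 15⟩⟩,
    ⟨⟨225, 140⟩, ⟨9, 7⟩, 2, ⟨615, 402⟩⟩,
    ⟨⟨0, 6⟩, ⟨6, 0⟩, 2, ⟨240, 172⟩⟩,
    ⟨⟨90, 6⟩, ⟨6, 0⟩, 2, ⟨390, 172⟩⟩,
    ⟨⟨180, 6⟩, ⟨6, 0⟩, 2, ⟨540, 172⟩⟩,
    ⟨⟨270, 6⟩, ⟨6, 16⟩, 2, ⟨690, 172⟩⟩,
    ⟨⟨0, 7⟩, ⟨7, 0⟩, 2, ⟨240, 177⟩⟩,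
    ⟨⟨105, 7⟩, ⟨8, 9⟩, 2, ⟨415, 177⟩⟩,
    ⟨⟨225, 142⟩, ⟨6, 4⟩, 0, ⟨375, 240⟩⟩,
    ⟨⟨315, 202⟩, ⟨3, 3⟩, 1, ⟨645, 421⟩⟩,
    ⟨⟨0, 8⟩, ⟨9, 5⟩, 2, ⟨240, 182⟩⟩,
    ⟨⟨135, 83⟩, ⟨7, 0⟩, 1, ⟨345, 226⟩⟩,
    ⟨⟨240, 83⟩, ⟨8, 11⟩, 1, ⟨520, 226⟩⟩,
    ⟨⟨0, 9⟩, ⟨7, 0⟩, 1, ⟨120, 96⟩⟩,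
    ⟨⟨105, 9⟩, ⟨7, 0⟩, 1, ⟨295, 96⟩⟩,
    ⟨⟨210, 9⟩, ⟨7, 13⟩, 1, ⟨470, 96⟩⟩,
    ⟨⟨315, 204⟩, ⟨3, 3⟩, 0, ⟨525, 340⟩⟩,
    ⟨⟨0, 10⟩, ⟨9, 5⟩, 1, ⟨120, 101⟩⟩,
    ⟨⟨135, 85⟩, ⟨6, 4⟩, 2, ⟨465, 307⟩⟩,
    ⟨⟨225, 145⟩, ⟨9, 7⟩, 0, ⟨375, 245⟩⟩,
    ⟨⟨0, 11⟩, ⟨3, 1⟩, 1, ⟨120, 106⟩⟩,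
    ⟨⟨45, 26⟩, ⟨7, 0⟩, 0, ⟨75, 50⟩⟩,
    ⟨⟨150, 26⟩, ⟨7, 0⟩, 0, ⟨250, 50⟩⟩,
    ⟨⟨255, 26⟩, ⟨7, 15⟩, 0, ⟨425, 50⟩⟩,
    ⟨⟨0, 12⟩, ⟨7, 0⟩, 0, ⟨0, 20⟩⟩,
    ⟨⟨105, 12⟩, ⟨8, 9⟩, 0, ⟨175, 20⟩⟩,
    ⟨⟨225, 147⟩, ⟨9, 7⟩, 2, ⟨615, 407⟩⟩,
    ⟨⟨0, 13⟩, ⟨3, 1⟩, 0, ⟨0, 25⟩⟩,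
    ⟨⟨45, 28⟩, ⟨6, 4⟩, 1, ⟨195, 131⟩⟩,
    ⟨⟨135, 88⟩, ⟨7, 0⟩, 2, ⟨465, 312⟩⟩,
    ⟨⟨240, 88⟩, ⟨8, 11⟩, 2, ⟨640, 312⟩⟩,
    ⟨⟨0, 14⟩, ⟨6, 0⟩, 2, ⟨240, 192⟩⟩,
    ⟨⟨90, 14⟩, ⟨6, 0⟩, 2, ⟨390, 192⟩⟩,
    ⟨⟨180, 14⟩, ⟨6, 0⟩, 2, ⟨540, 192⟩⟩,
    ⟨⟨270, 14⟩, ⟨6, 16⟩, 2, ⟨690, 192⟩⟩]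

theorem ok3 : famOK ctx base fam3 = true := by decide +kernel

def fam4 : Fam where
  ints := [(⟨75, 30⟩, ⟨100, 30⟩)]
  arcs := [
    ⟨⟨0, 0⟩, ⟨5, 0⟩, 2, ⟨240, 162⟩⟩,
    ⟨⟨75, 0⟩, ⟨5, 6⟩, 2, ⟨365, 162⟩⟩,
    ⟨⟨150, 90⟩, ⟨7, 0⟩, 1, ⟨370, 231⟩⟩,
    ⟨⟨255, 90⟩, ⟨7, 11⟩, 1, ⟨545, 231⟩⟩,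
    ⟨⟨0, 1⟩, ⟨4, 1⟩, 0, ⟨0, 5⟩⟩,
    ⟨⟨60, 16⟩, ⟨0, 1⟩, 0, ⟨100, 30⟩⟩,
    ⟨⟨60, 31⟩, ⟨6, 0⟩, 1, ⟨220, 136⟩⟩,
    ⟨⟨150, 31⟩, ⟨7, 0⟩, 1, ⟨370, 136⟩⟩,
    ⟨⟨255, 31⟩, ⟨7, 15⟩, 1, ⟨545, 136⟩⟩,
    ⟨⟨0, 2⟩, ⟨7, 0⟩, 1, ⟨120, 91⟩⟩,
    ⟨⟨105, 2⟩, ⟨7, 0⟩, 1, ⟨295, 91⟩⟩,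
    ⟨⟨210, 2⟩, ⟨8, 13⟩, 1, ⟨470, 91⟩⟩,
    ⟨⟨330, 197⟩, ⟨0, 1⟩, 0, ⟨550, 335⟩⟩,
    ⟨⟨330, 212⟩, ⟨2, 3⟩, 0, ⟨550, 360⟩⟩,
    ⟨⟨0, 3⟩, ⟨4, 1⟩, 1, ⟨120, 86⟩⟩,
    ⟨⟨60, 18⟩, ⟨0, 1⟩, 1, ⟨220, 111⟩⟩,
    ⟨⟨60, 33⟩, ⟨6, 0⟩, 0, ⟨100, 55⟩⟩,
    ⟨⟨150, 33⟩, ⟨7, 0⟩, 0, ⟨250, 55⟩⟩,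
    ⟨⟨255, 33⟩, ⟨7, 14⟩, 0, ⟨425, 55⟩⟩,
    ⟨⟨0, 4⟩, ⟨7, 0⟩, 0, ⟨0, 10⟩⟩,
    ⟨⟨105, 4⟩, ⟨7, 0⟩, 0, ⟨175, 10⟩⟩,
    ⟨⟨210, 4⟩, ⟨8, 13⟩, 0, ⟨350, 10⟩⟩,
    ⟨⟨330, 199⟩, ⟨0, 1⟩, 1, ⟨670, 416⟩⟩,
    ⟨⟨330, 214⟩, ⟨2, 2⟩, 1, ⟨670, 441⟩⟩,
    ⟨⟨0, 5⟩, ⟨8, 0⟩, 0, ⟨0, 15⟩⟩,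
    ⟨⟨120, 5⟩, ⟨8, 9⟩, 0, ⟨200, 15⟩⟩,
    ⟨⟨240, 140⟩, ⟨8, 7⟩, 2, ⟨640, 402⟩⟩,
    ⟨⟨0, 6⟩, ⟨6, 0⟩, 2, ⟨240, 172⟩⟩,
    ⟨⟨90, 6⟩, ⟨6, 0⟩, 2, ⟨390, 172⟩⟩,
    ⟨⟨180, 6⟩, ⟨6, 0⟩, 2, ⟨540, 172⟩⟩,
    ⟨⟨270, 6⟩, ⟨6, 16⟩, 2, ⟨690, 172⟩⟩,
    ⟨⟨0, 7⟩, ⟨8, 0⟩, 2, ⟨240, 177⟩⟩,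
    ⟨⟨120, 7⟩, ⟨8, 9⟩, 2, ⟨440, 177⟩⟩,
    ⟨⟨240, 142⟩, ⟨6, 4⟩, 0, ⟨400, 240⟩⟩,
    ⟨⟨330, 202⟩, ⟨2, 3⟩, 1, ⟨670, 421⟩⟩,
    ⟨⟨0, 8⟩, ⟨5, 0⟩, 2, ⟨240, 182⟩⟩,
    ⟨⟨75, 8⟩, ⟨5, 5⟩, 2, ⟨365, 182⟩⟩,
    ⟨⟨150, 83⟩, ⟨7, 0⟩, 1, ⟨370, 226⟩⟩,
    ⟨⟨255, 83⟩, ⟨7, 11⟩, 1, ⟨545, 226⟩⟩,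
    ⟨⟨0, 9⟩, ⟨7, 0⟩, 1, ⟨120, 96⟩⟩,
    ⟨⟨105, 9⟩, ⟨7, 0⟩, 1, ⟨295, 96⟩⟩,
    ⟨⟨210, 9⟩, ⟨8, 13⟩, 1, ⟨470, 96⟩⟩,
    ⟨⟨330, 204⟩, ⟨2, 3⟩, 0, ⟨550, 340⟩⟩,
    ⟨⟨0, 10⟩, ⟨5, 0⟩, 1, ⟨120, 101⟩⟩,
    ⟨⟨75, 10⟩, ⟨5, 5⟩, 1, ⟨245, 101⟩⟩,
    ⟨⟨150, 85⟩, ⟨6, 4⟩, 2, ⟨490, 307⟩⟩,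
    ⟨⟨240, 145⟩, ⟨8, 7⟩, 0, ⟨400, 245⟩⟩,
    ⟨⟨0, 11⟩, ⟨4, 1⟩, 1, ⟨120, 106⟩⟩,
    ⟨⟨60, 26⟩, ⟨6, 0⟩, 0, ⟨100, 50⟩⟩,
    ⟨⟨150, 26⟩, ⟨7, 0⟩, 0, ⟨250, 50⟩⟩,
    ⟨⟨255, 26⟩, ⟨7, 15⟩, 0, ⟨425, 50⟩⟩,
    ⟨⟨0, 12⟩, ⟨8, 0⟩, 0, ⟨0, 20⟩⟩,
    ⟨⟨120, 12⟩, ⟨8, 9⟩, 0, ⟨200, 20⟩⟩,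
    ⟨⟨240, 147⟩, ⟨8, 7⟩, 2, ⟨640, 407⟩⟩,
    ⟨⟨0, 13⟩, ⟨4, 1⟩, 0, ⟨0, 25⟩⟩,
    ⟨⟨60, 28⟩, ⟨6, 4⟩, 1, ⟨220, 131⟩⟩,
    ⟨⟨150, 88⟩, ⟨7, 0⟩, 2, ⟨490, 312⟩⟩,
    ⟨⟨255, 88⟩, ⟨7, 11⟩, 2, ⟨665, 312⟩⟩,
    ⟨⟨0, 14⟩, ⟨6, 0⟩, 2, ⟨240, 192⟩⟩,
    ⟨⟨90, 14⟩, ⟨6, 0⟩, 2, ⟨390, 192⟩⟩,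
    ⟨⟨180, 14⟩, ⟨6, 0⟩, 2, ⟨540, 192⟩⟩,
    ⟨⟨270, 14⟩, ⟨6, 16⟩, 2, ⟨690, 192⟩⟩]

theorem ok4 : famOK ctx base fam4 = true := by decide +kernel

def cover : List (Aff × Aff) := [(⟨0, 0⟩, ⟨0, 30⟩), (⟨0, 30⟩, ⟨25, 30⟩), (⟨25, 30⟩, ⟨50, 30⟩), (⟨50, 30⟩, ⟨75, 30⟩), (⟨75, 30⟩, ⟨100, 30⟩), (⟨90, 92⟩, ⟨120, 81⟩)]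

theorem ok : allOK ctx base [fam0, fam1, fam2, fam3, fam4] cover = true := by
  have h : (cov ctx [fam0, fam1, fam2, fam3, fam4] cover ⟨0, 0⟩ && pos ctx ctx.k && stepOK ctx && baseOK ctx base) = true := by decide +kernel
  simp only [allOK, List.all_cons, List.all_nil, Bool.and_true, ok0, ok1, ok2, ok3, ok4, Bool.true_and]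
  exact h

end Pool.Agent.H57.QY.F81
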