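import Pool.Agent.H57.QY.Fam

/-!
# Exact families: `k = 120 t + 9`, `t ≥ 2` (found by helper58)
-/

set_option autoImplicit false

namespace Pool.Agent.H57.QY.F9

def ctx : Ctx := ⟨2, 120, 9, 15, 25⟩

def base : List Arc := [
    ⟨⟨0, 0⟩, ⟨24, 2⟩, 0, ⟨0, 0⟩⟩,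
    ⟨⟨0, 1⟩, ⟨24, 2⟩, 0, ⟨0, 5⟩⟩,
    ⟨⟨0, 2⟩, ⟨24, 2⟩, 0, ⟨0, 10⟩⟩,
    ⟨⟨0, 3⟩, ⟨24, 2⟩, 0, ⟨0, 5⟩⟩,
    ⟨⟨0, 4⟩, ⟨24, 2⟩, 0, ⟨0, 10⟩⟩,
    ⟨⟨0, 5⟩, ⟨24, 2⟩, 0, ⟨0, 15⟩⟩,
    ⟨⟨0, 6⟩, ⟨24, 2⟩, 0, ⟨0, 10⟩⟩,
    ⟨⟨0, 7⟩, ⟨24, 2⟩, 0, ⟨0, 15⟩⟩,
    ⟨⟨0, 8⟩, ⟨24, 2⟩, 0, ⟨0, 20⟩⟩,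
    ⟨⟨0, 9⟩, ⟨24, 2⟩, 0, ⟨0, 15⟩⟩,
    ⟨⟨0, 10⟩, ⟨24, 2⟩, 0, ⟨0, 20⟩⟩,
    ⟨⟨0, 11⟩, ⟨24, 2⟩, 0, ⟨0, 25⟩⟩,
    ⟨⟨0, 12⟩, ⟨24, 1⟩, 0, ⟨0, 20⟩⟩,
    ⟨⟨0, 13⟩, ⟨24, 1⟩, 0, ⟨0, 25⟩⟩,
    ⟨⟨0, 14⟩, ⟨24, 1⟩, 0, ⟨0, 30⟩⟩]

def fam0 : Fam where
  ints := [(⟨0, 0⟩, ⟨0, 30⟩), (⟨90, 38⟩, ⟨120, 9⟩)]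
  arcs := [
    ⟨⟨0, 0⟩, ⟨8, 0⟩, 2, ⟨240, 18⟩⟩,
    ⟨⟨120, 0⟩, ⟨8, 0⟩, 2, ⟨440, 18⟩⟩,
    ⟨⟨240, 0⟩, ⟨8, 2⟩, 2, ⟨640, 18⟩⟩,
    ⟨⟨0, 1⟩, ⟨0, 1⟩, 0, ⟨0, 5⟩⟩,
    ⟨⟨0, 16⟩, ⟨0, 1⟩, 0, ⟨0, 30⟩⟩,
    ⟨⟨0, 31⟩, ⟨6, 0⟩, 1, ⟨120, 64⟩⟩,
    ⟨⟨90, 31⟩, ⟨9, 0⟩, 2, ⟨390, 73⟩⟩,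
    ⟨⟨225, 31⟩, ⟨9, 0⟩, 2, ⟨615, 73⟩⟩,
    ⟨⟨0, 2⟩, ⟨6, 0⟩, 0, ⟨0, 10⟩⟩,
    ⟨⟨90, 2⟩, ⟨6, 2⟩, 0, ⟨150, 10⟩⟩,
    ⟨⟨180, 32⟩, ⟨6, 0⟩, 2, ⟨540, 78⟩⟩,
    ⟨⟨270, 32⟩, ⟨6, 0⟩, 2, ⟨690, 78⟩⟩,
    ⟨⟨0, 3⟩, ⟨0, 1⟩, 1, ⟨120, 14⟩⟩,
    ⟨⟨0, 18⟩, ⟨0, 1⟩, 1, ⟨120, 39⟩⟩,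
    ⟨⟨0, 33⟩, ⟨8, 0⟩, 0, ⟨0, 55⟩⟩,
    ⟨⟨120, 33⟩, ⟨8, 0⟩, 0, ⟨200, 55⟩⟩,
    ⟨⟨240, 33⟩, ⟨8, 0⟩, 0, ⟨400, 55⟩⟩,
    ⟨⟨0, 4⟩, ⟨6, 2⟩, 1, ⟨120, 19⟩⟩,
    ⟨⟨90, 34⟩, ⟨6, 0⟩, 2, ⟨390, 78⟩⟩,
    ⟨⟨180, 34⟩, ⟨6, 0⟩, 0, ⟨300, 60⟩⟩,
    ⟨⟨270, 34⟩, ⟨6, 0⟩, 0, ⟨450, 60⟩⟩,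
    ⟨⟨0, 5⟩, ⟨6, 0⟩, 1, ⟨120, 24⟩⟩,
    ⟨⟨90, 5⟩, ⟨6, 0⟩, 1, ⟨270, 24⟩⟩,
    ⟨⟨180, 5⟩, ⟨6, 2⟩, 1, ⟨420, 24⟩⟩,
    ⟨⟨270, 35⟩, ⟨0, 1⟩, 0, ⟨450, 65⟩⟩,
    ⟨⟨270, 50⟩, ⟨6, -1⟩, 0, ⟨450, 90⟩⟩,
    ⟨⟨0, 6⟩, ⟨6, 2⟩, 2, ⟨240, 28⟩⟩,
    ⟨⟨90, 36⟩, ⟨9, 0⟩, 1, ⟨270, 69⟩⟩,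
    ⟨⟨225, 36⟩, ⟨9, 0⟩, 1, ⟨495, 69⟩⟩,
    ⟨⟨0, 7⟩, ⟨6, 0⟩, 2, ⟨240, 33⟩⟩,
    ⟨⟨90, 7⟩, ⟨6, 2⟩, 2, ⟨390, 33⟩⟩,
    ⟨⟨180, 37⟩, ⟨6, 0⟩, 0, ⟨300, 65⟩⟩,
    ⟨⟨270, 37⟩, ⟨0, 1⟩, 1, ⟨570, 74⟩⟩,
    ⟨⟨270, 52⟩, ⟨6, -1⟩, 1, ⟨570, 99⟩⟩,
    ⟨⟨0, 8⟩, ⟨8, 0⟩, 2, ⟨240, 38⟩⟩,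
    ⟨⟨120, 8⟩, ⟨8, 0⟩, 2, ⟨440, 38⟩⟩,
    ⟨⟨240, 8⟩, ⟨8, 2⟩, 2, ⟨640, 38⟩⟩,
    ⟨⟨0, 9⟩, ⟨6, 0⟩, 0, ⟨0, 15⟩⟩,
    ⟨⟨90, 9⟩, ⟨6, 2⟩, 0, ⟨150, 15⟩⟩,
    ⟨⟨180, 39⟩, ⟨6, 0⟩, 2, ⟨540, 83⟩⟩,
    ⟨⟨270, 39⟩, ⟨6, 0⟩, 2, ⟨690, 83⟩⟩,
    ⟨⟨0, 10⟩, ⟨6, 0⟩, 0, ⟨0, 20⟩⟩,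
    ⟨⟨90, 10⟩, ⟨6, 0⟩, 0, ⟨150, 20⟩⟩,
    ⟨⟨180, 10⟩, ⟨6, 2⟩, 0, ⟨300, 20⟩⟩,
    ⟨⟨270, 40⟩, ⟨6, 0⟩, 1, ⟨570, 79⟩⟩,
    ⟨⟨0, 11⟩, ⟨0, 1⟩, 1, ⟨120, 34⟩⟩,
    ⟨⟨0, 26⟩, ⟨8, 0⟩, 0, ⟨0, 50⟩⟩,
    ⟨⟨120, 26⟩, ⟨8, 0⟩, 0, ⟨200, 50⟩⟩,
    ⟨⟨240, 26⟩, ⟨8, 1⟩, 0, ⟨400, 50⟩⟩,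
    ⟨⟨0, 12⟩, ⟨6, 0⟩, 1, ⟨120, 29⟩⟩,
    ⟨⟨90, 12⟩, ⟨6, 0⟩, 1, ⟨270, 29⟩⟩,
    ⟨⟨180, 12⟩, ⟨6, 2⟩, 1, ⟨420, 29⟩⟩,
    ⟨⟨270, 42⟩, ⟨6, -1⟩, 0, ⟨450, 70⟩⟩,
    ⟨⟨0, 13⟩, ⟨0, 1⟩, 0, ⟨0, 25⟩⟩,
    ⟨⟨0, 28⟩, ⟨8, 0⟩, 1, ⟨120, 59⟩⟩,
    ⟨⟨120, 28⟩, ⟨8, 0⟩, 1, ⟨320, 59⟩⟩,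
    ⟨⟨240, 28⟩, ⟨8, 0⟩, 1, ⟨520, 59⟩⟩,
    ⟨⟨0, 14⟩, ⟨6, 1⟩, 2, ⟨240, 48⟩⟩,
    ⟨⟨90, 29⟩, ⟨9, 0⟩, 1, ⟨270, 64⟩⟩,
    ⟨⟨225, 29⟩, ⟨9, 0⟩, 1, ⟨495, 64⟩⟩]

theorem ok0 : famOK ctx base fam0 = true := by decide +kernel

def fam1 : Fam where
  ints := [(⟨0, 30⟩, ⟨25, 30⟩)]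
  arcs := [
    ⟨⟨0, 0⟩, ⟨8, 0⟩, 2, ⟨240, 18⟩⟩,
    ⟨⟨120, 0⟩, ⟨8, 0⟩, 2, ⟨440, 18⟩⟩,
    ⟨⟨240, 0⟩, ⟨8, 2⟩, 2, ⟨640, 18⟩⟩,
    ⟨⟨0, 1⟩, ⟨1, 1⟩, 0, ⟨0, 5⟩⟩,
    ⟨⟨15, 16⟩, ⟨0, 1⟩, 0, ⟨25, 30⟩⟩,
    ⟨⟨15, 31⟩, ⟨6, 0⟩, 1, ⟨145, 64⟩⟩,
    ⟨⟨105, 31⟩, ⟨8, 0⟩, 2, ⟨415, 73⟩⟩,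
    ⟨⟨225, 31⟩, ⟨9, 0⟩, 2, ⟨615, 73⟩⟩,
    ⟨⟨0, 2⟩, ⟨6, 0⟩, 0, ⟨0, 10⟩⟩,
    ⟨⟨90, 2⟩, ⟨7, 2⟩, 0, ⟨150, 10⟩⟩,
    ⟨⟨195, 32⟩, ⟨5, 0⟩, 2, ⟨565, 78⟩⟩,
    ⟨⟨270, 32⟩, ⟨6, 0⟩, 2, ⟨690, 78⟩⟩,
    ⟨⟨0, 3⟩, ⟨1, 1⟩, 1, ⟨120, 14⟩⟩,
    ⟨⟨15, 18⟩, ⟨0, 1⟩, 1, ⟨145, 39⟩⟩,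
    ⟨⟨15, 33⟩, ⟨7, 0⟩, 0, ⟨25, 55⟩⟩,
    ⟨⟨120, 33⟩, ⟨8, 0⟩, 0, ⟨200, 55⟩⟩,
    ⟨⟨240, 33⟩, ⟨8, 0⟩, 0, ⟨400, 55⟩⟩,
    ⟨⟨0, 4⟩, ⟨7, 2⟩, 1, ⟨120, 19⟩⟩,
    ⟨⟨105, 34⟩, ⟨6, 0⟩, 2, ⟨415, 78⟩⟩,
    ⟨⟨195, 34⟩, ⟨5, 0⟩, 0, ⟨325, 60⟩⟩,
    ⟨⟨270, 34⟩, ⟨6, 0⟩, 0, ⟨450, 60⟩⟩,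
    ⟨⟨0, 5⟩, ⟨6, 0⟩, 1, ⟨120, 24⟩⟩,
    ⟨⟨90, 5⟩, ⟨6, 0⟩, 1, ⟨270, 24⟩⟩,
    ⟨⟨180, 5⟩, ⟨7, 2⟩, 1, ⟨420, 24⟩⟩,
    ⟨⟨285, 35⟩, ⟨0, 1⟩, 0, ⟨475, 65⟩⟩,
    ⟨⟨285, 50⟩, ⟨5, -1⟩, 0, ⟨475, 90⟩⟩,
    ⟨⟨0, 6⟩, ⟨7, 2⟩, 2, ⟨240, 28⟩⟩,
    ⟨⟨105, 36⟩, ⟨8, 0⟩, 1, ⟨295, 69⟩⟩,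
    ⟨⟨225, 36⟩, ⟨9, 0⟩, 1, ⟨495, 69⟩⟩,
    ⟨⟨0, 7⟩, ⟨6, 0⟩, 2, ⟨240, 33⟩⟩,
    ⟨⟨90, 7⟩, ⟨7, 2⟩, 2, ⟨390, 33⟩⟩,
    ⟨⟨195, 37⟩, ⟨6, 0⟩, 0, ⟨325, 65⟩⟩,
    ⟨⟨285, 37⟩, ⟨0, 1⟩, 1, ⟨595, 74⟩⟩,
    ⟨⟨285, 52⟩, ⟨5, -1⟩, 1, ⟨595, 99⟩⟩,
    ⟨⟨0, 8⟩, ⟨8, 0⟩, 2, ⟨240, 38⟩⟩,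
    ⟨⟨120, 8⟩, ⟨8, 0⟩, 2, ⟨440, 38⟩⟩,
    ⟨⟨240, 8⟩, ⟨8, 2⟩, 2, ⟨640, 38⟩⟩,
    ⟨⟨0, 9⟩, ⟨6, 0⟩, 0, ⟨0, 15⟩⟩,
    ⟨⟨90, 9⟩, ⟨7, 2⟩, 0, ⟨150, 15⟩⟩,
    ⟨⟨195, 39⟩, ⟨5, 0⟩, 2, ⟨565, 83⟩⟩,
    ⟨⟨270, 39⟩, ⟨6, 0⟩, 2, ⟨690, 83⟩⟩,
    ⟨⟨0, 10⟩, ⟨6, 0⟩, 0, ⟨0, 20⟩⟩,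
    ⟨⟨90, 10⟩, ⟨6, 0⟩, 0, ⟨150, 20⟩⟩,
    ⟨⟨180, 10⟩, ⟨7, 2⟩, 0, ⟨300, 20⟩⟩,
    ⟨⟨285, 40⟩, ⟨5, 0⟩, 1, ⟨595, 79⟩⟩,
    ⟨⟨0, 11⟩, ⟨1, 1⟩, 1, ⟨120, 34⟩⟩,
    ⟨⟨15, 26⟩, ⟨7, 0⟩, 0, ⟨25, 50⟩⟩,
    ⟨⟨120, 26⟩, ⟨8, 0⟩, 0, ⟨200, 50⟩⟩,
    ⟨⟨240, 26⟩, ⟨8, 1⟩, 0, ⟨400, 50⟩⟩,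
    ⟨⟨0, 12⟩, ⟨6, 0⟩, 1, ⟨120, 29⟩⟩,
    ⟨⟨90, 12⟩, ⟨6, 0⟩, 1, ⟨270, 29⟩⟩,
    ⟨⟨180, 12⟩, ⟨7, 2⟩, 1, ⟨420, 29⟩⟩,
    ⟨⟨285, 42⟩, ⟨5, -1⟩, 0, ⟨475, 70⟩⟩,
    ⟨⟨0, 13⟩, ⟨1, 1⟩, 0, ⟨0, 25⟩⟩,
    ⟨⟨15, 28⟩, ⟨7, 0⟩, 1, ⟨145, 59⟩⟩,
    ⟨⟨120, 28⟩, ⟨8, 0⟩, 1, ⟨320, 59⟩⟩,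
    ⟨⟨240, 28⟩, ⟨8, 0⟩, 1, ⟨520, 59⟩⟩,
    ⟨⟨0, 14⟩, ⟨7, 1⟩, 2, ⟨240, 48⟩⟩,
    ⟨⟨105, 29⟩, ⟨8, 0⟩, 1, ⟨295, 64⟩⟩,
    ⟨⟨225, 29⟩, ⟨9, 0⟩, 1, ⟨495, 64⟩⟩]

theorem ok1 : famOK ctx base fam1 = true := by decide +kernel

def fam2 : Fam where
  ints := [(⟨25, 30⟩, ⟨50, 30⟩)]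
  arcs := [
    ⟨⟨0, 0⟩, ⟨8, 0⟩, 2, ⟨240, 18⟩⟩,
    ⟨⟨120, 0⟩, ⟨8, 0⟩, 2, ⟨440, 18⟩⟩,
    ⟨⟨240, 0⟩, ⟨8, 2⟩, 2, ⟨640, 18⟩⟩,
    ⟨⟨0, 1⟩, ⟨2, 1⟩, 0, ⟨0, 5⟩⟩,
    ⟨⟨30, 16⟩, ⟨0, 1⟩, 0, ⟨50, 30⟩⟩,
    ⟨⟨30, 31⟩, ⟨6, 0⟩, 1, ⟨170, 64⟩⟩,
    ⟨⟨120, 31⟩, ⟨8, 0⟩, 2, ⟨440, 73⟩⟩,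
    ⟨⟨240, 31⟩, ⟨8, 0⟩, 2, ⟨640, 73⟩⟩,
    ⟨⟨0, 2⟩, ⟨7, 0⟩, 0, ⟨0, 10⟩⟩,
    ⟨⟨105, 2⟩, ⟨7, 2⟩, 0, ⟨175, 10⟩⟩,
    ⟨⟨210, 32⟩, ⟨5, 0⟩, 2, ⟨590, 78⟩⟩,
    ⟨⟨285, 32⟩, ⟨5, 0⟩, 2, ⟨715, 78⟩⟩,
    ⟨⟨0, 3⟩, ⟨2, 1⟩, 1, ⟨120, 14⟩⟩,
    ⟨⟨30, 18⟩, ⟨0, 1⟩, 1, ⟨170, 39⟩⟩,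
    ⟨⟨30, 33⟩, ⟨7, 0⟩, 0, ⟨50, 55⟩⟩,
    ⟨⟨135, 33⟩, ⟨7, 0⟩, 0, ⟨225, 55⟩⟩,
    ⟨⟨240, 33⟩, ⟨8, 0⟩, 0, ⟨400, 55⟩⟩,
    ⟨⟨0, 4⟩, ⟨8, 2⟩, 1, ⟨120, 19⟩⟩,
    ⟨⟨120, 34⟩, ⟨6, 0⟩, 2, ⟨440, 78⟩⟩,
    ⟨⟨210, 34⟩, ⟨5, 0⟩, 0, ⟨350, 60⟩⟩,
    ⟨⟨285, 34⟩, ⟨5, 0⟩, 0, ⟨475, 60⟩⟩,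
    ⟨⟨0, 5⟩, ⟨6, 0⟩, 1, ⟨120, 24⟩⟩,
    ⟨⟨90, 5⟩, ⟨7, 0⟩, 1, ⟨270, 24⟩⟩,
    ⟨⟨195, 5⟩, ⟨7, 2⟩, 1, ⟨445, 24⟩⟩,
    ⟨⟨300, 35⟩, ⟨0, 1⟩, 0, ⟨500, 65⟩⟩,
    ⟨⟨300, 50⟩, ⟨4, -1⟩, 0, ⟨500, 90⟩⟩,
    ⟨⟨0, 6⟩, ⟨8, 2⟩, 2, ⟨240, 28⟩⟩,
    ⟨⟨120, 36⟩, ⟨8, 0⟩, 1, ⟨320, 69⟩⟩,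
    ⟨⟨240, 36⟩, ⟨8, 0⟩, 1, ⟨520, 69⟩⟩,
    ⟨⟨0, 7⟩, ⟨7, 0⟩, 2, ⟨240, 33⟩⟩,
    ⟨⟨105, 7⟩, ⟨7, 2⟩, 2, ⟨415, 33⟩⟩,
    ⟨⟨210, 37⟩, ⟨6, 0⟩, 0, ⟨350, 65⟩⟩,
    ⟨⟨300, 37⟩, ⟨0, 1⟩, 1, ⟨620, 74⟩⟩,
    ⟨⟨300, 52⟩, ⟨4, -1⟩, 1, ⟨620, 99⟩⟩,
    ⟨⟨0, 8⟩, ⟨8, 0⟩, 2, ⟨240, 38⟩⟩,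
    ⟨⟨120, 8⟩, ⟨8, 0⟩, 2, ⟨440, 38⟩⟩,
    ⟨⟨240, 8⟩, ⟨8, 2⟩, 2, ⟨640, 38⟩⟩,
    ⟨⟨0, 9⟩, ⟨7, 0⟩, 0, ⟨0, 15⟩⟩,
    ⟨⟨105, 9⟩, ⟨7, 2⟩, 0, ⟨175, 15⟩⟩,
    ⟨⟨210, 39⟩, ⟨5, 0⟩, 2, ⟨590, 83⟩⟩,
    ⟨⟨285, 39⟩, ⟨5, 0⟩, 2, ⟨715, 83⟩⟩,
    ⟨⟨0, 10⟩, ⟨6, 0⟩, 0, ⟨0, 20⟩⟩,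
    ⟨⟨90, 10⟩, ⟨7, 0⟩, 0, ⟨150, 20⟩⟩,
    ⟨⟨195, 10⟩, ⟨7, 2⟩, 0, ⟨325, 20⟩⟩,
    ⟨⟨300, 40⟩, ⟨4, 0⟩, 1, ⟨620, 79⟩⟩,
    ⟨⟨0, 11⟩, ⟨2, 1⟩, 1, ⟨120, 34⟩⟩,
    ⟨⟨30, 26⟩, ⟨7, 0⟩, 0, ⟨50, 50⟩⟩,
    ⟨⟨135, 26⟩, ⟨7, 0⟩, 0, ⟨225, 50⟩⟩,
    ⟨⟨240, 26⟩, ⟨8, 1⟩, 0, ⟨400, 50⟩⟩,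
    ⟨⟨0, 12⟩, ⟨6, 0⟩, 1, ⟨120, 29⟩⟩,
    ⟨⟨90, 12⟩, ⟨7, 0⟩, 1, ⟨270, 29⟩⟩,
    ⟨⟨195, 12⟩, ⟨7, 2⟩, 1, ⟨445, 29⟩⟩,
    ⟨⟨300, 42⟩, ⟨4, -1⟩, 0, ⟨500, 70⟩⟩,
    ⟨⟨0, 13⟩, ⟨2, 1⟩, 0, ⟨0, 25⟩⟩,
    ⟨⟨30, 28⟩, ⟨7, 0⟩, 1, ⟨170, 59⟩⟩,
    ⟨⟨135, 28⟩, ⟨7, 0⟩, 1, ⟨345, 59⟩⟩,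
    ⟨⟨240, 28⟩, ⟨8, 0⟩, 1, ⟨520, 59⟩⟩,
    ⟨⟨0, 14⟩, ⟨8, 1⟩, 2, ⟨240, 48⟩⟩,
    ⟨⟨120, 29⟩, ⟨8, 0⟩, 1, ⟨320, 64⟩⟩,
    ⟨⟨240, 29⟩, ⟨8, 0⟩, 1, ⟨520, 64⟩⟩]

theorem ok2 : famOK ctx base fam2 = true := by decide +kernel

def fam3 : Fam where
  ints := [(⟨50, 30⟩, ⟨75, 30⟩)]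
  arcs := [
    ⟨⟨0, 0⟩, ⟨8, 0⟩, 2, ⟨240, 18⟩⟩,
    ⟨⟨120, 0⟩, ⟨8, 0⟩, 2, ⟨440, 18⟩⟩,
    ⟨⟨240, 0⟩, ⟨8, 2⟩, 2, ⟨640, 18⟩⟩,
    ⟨⟨0, 1⟩, ⟨3, 1⟩, 0, ⟨0, 5⟩⟩,
    ⟨⟨45, 16⟩, ⟨0, 1⟩, 0, ⟨75, 30⟩⟩,
    ⟨⟨45, 31⟩, ⟨6, 0⟩, 1, ⟨195, 64⟩⟩,
    ⟨⟨135, 31⟩, ⟨7, 0⟩, 2, ⟨465, 73⟩⟩,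
    ⟨⟨240, 31⟩, ⟨8, 0⟩, 2, ⟨640, 73⟩⟩,
    ⟨⟨0, 2⟩, ⟨7, 0⟩, 0, ⟨0, 10⟩⟩,
    ⟨⟨105, 2⟩, ⟨8, 2⟩, 0, ⟨175, 10⟩⟩,
    ⟨⟨225, 32⟩, ⟨9, 0⟩, 2, ⟨615, 78⟩⟩,
    ⟨⟨0, 3⟩, ⟨3, 1⟩, 1, ⟨120, 14⟩⟩,
    ⟨⟨45, 18⟩, ⟨0, 1⟩, 1, ⟨195, 39⟩⟩,
    ⟨⟨45, 33⟩, ⟨7, 0⟩, 0, ⟨75, 55⟩⟩,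
    ⟨⟨150, 33⟩, ⟨7, 0⟩, 0, ⟨250, 55⟩⟩,
    ⟨⟨255, 33⟩, ⟨7, 0⟩, 0, ⟨425, 55⟩⟩,
    ⟨⟨0, 4⟩, ⟨4, 0⟩, 1, ⟨120, 19⟩⟩,
    ⟨⟨60, 4⟩, ⟨5, 2⟩, 1, ⟨220, 19⟩⟩,
    ⟨⟨135, 34⟩, ⟨6, 0⟩, 2, ⟨465, 78⟩⟩,
    ⟨⟨225, 34⟩, ⟨9, 0⟩, 0, ⟨375, 60⟩⟩,
    ⟨⟨0, 5⟩, ⟨7, 0⟩, 1, ⟨120, 24⟩⟩,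
    ⟨⟨105, 5⟩, ⟨7, 0⟩, 1, ⟨295, 24⟩⟩,
    ⟨⟨210, 5⟩, ⟨7, 2⟩, 1, ⟨470, 24⟩⟩,
    ⟨⟨315, 35⟩, ⟨0, 1⟩, 0, ⟨525, 65⟩⟩,
    ⟨⟨315, 50⟩, ⟨3, -1⟩, 0, ⟨525, 90⟩⟩,
    ⟨⟨0, 6⟩, ⟨4, 0⟩, 2, ⟨240, 28⟩⟩,
    ⟨⟨60, 6⟩, ⟨5, 2⟩, 2, ⟨340, 28⟩⟩,
    ⟨⟨135, 36⟩, ⟨7, 0⟩, 1, ⟨345, 69⟩⟩,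
    ⟨⟨240, 36⟩, ⟨8, 0⟩, 1, ⟨520, 69⟩⟩,
    ⟨⟨0, 7⟩, ⟨7, 0⟩, 2, ⟨240, 33⟩⟩,
    ⟨⟨105, 7⟩, ⟨8, 2⟩, 2, ⟨415, 33⟩⟩,
    ⟨⟨225, 37⟩, ⟨6, 0⟩, 0, ⟨375, 65⟩⟩,
    ⟨⟨315, 37⟩, ⟨0, 1⟩, 1, ⟨645, 74⟩⟩,
    ⟨⟨315, 52⟩, ⟨3, -1⟩, 1, ⟨645, 99⟩⟩,
    ⟨⟨0, 8⟩, ⟨8, 0⟩, 2, ⟨240, 38⟩⟩,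
    ⟨⟨120, 8⟩, ⟨8, 0⟩, 2, ⟨440, 38⟩⟩,
    ⟨⟨240, 8⟩, ⟨8, 2⟩, 2, ⟨640, 38⟩⟩,
    ⟨⟨0, 9⟩, ⟨7, 0⟩, 0, ⟨0, 15⟩⟩,
    ⟨⟨105, 9⟩, ⟨8, 2⟩, 0, ⟨175, 15⟩⟩,
    ⟨⟨225, 39⟩, ⟨9, 0⟩, 2, ⟨615, 83⟩⟩,
    ⟨⟨0, 10⟩, ⟨7, 0⟩, 0, ⟨0, 20⟩⟩,
    ⟨⟨105, 10⟩, ⟨7, 0⟩, 0, ⟨175, 20⟩⟩,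
    ⟨⟨210, 10⟩, ⟨7, 2⟩, 0, ⟨350, 20⟩⟩,
    ⟨⟨315, 40⟩, ⟨3, 0⟩, 1, ⟨645, 79⟩⟩,
    ⟨⟨0, 11⟩, ⟨3, 1⟩, 1, ⟨120, 34⟩⟩,
    ⟨⟨45, 26⟩, ⟨7, 0⟩, 0, ⟨75, 50⟩⟩,
    ⟨⟨150, 26⟩, ⟨7, 0⟩, 0, ⟨250, 50⟩⟩,
    ⟨⟨255, 26⟩, ⟨7, 1⟩, 0, ⟨425, 50⟩⟩,
    ⟨⟨0, 12⟩, ⟨7, 0⟩, 1, ⟨120, 29⟩⟩,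
    ⟨⟨105, 12⟩, ⟨7, 0⟩, 1, ⟨295, 29⟩⟩,
    ⟨⟨210, 12⟩, ⟨7, 2⟩, 1, ⟨470, 29⟩⟩,
    ⟨⟨315, 42⟩, ⟨3, -1⟩, 0, ⟨525, 70⟩⟩,
    ⟨⟨0, 13⟩, ⟨3, 1⟩, 0, ⟨0, 25⟩⟩,
    ⟨⟨45, 28⟩, ⟨7, 0⟩, 1, ⟨195, 59⟩⟩,
    ⟨⟨150, 28⟩, ⟨7, 0⟩, 1, ⟨370, 59⟩⟩,
    ⟨⟨255, 28⟩, ⟨7, 0⟩, 1, ⟨545, 59⟩⟩,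
    ⟨⟨0, 14⟩, ⟨9, 1⟩, 2, ⟨240, 48⟩⟩,
    ⟨⟨135, 29⟩, ⟨7, 0⟩, 1, ⟨345, 64⟩⟩,
    ⟨⟨240, 29⟩, ⟨8, 0⟩, 1, ⟨520, 64⟩⟩]

theorem ok3 : famOK ctx base fam3 = true := by decide +kernel

def fam4 : Fam where
  ints := [(⟨75, 30⟩, ⟨100, 30⟩)]
  arcs := [
    ⟨⟨0, 0⟩, ⟨8, 0⟩, 2, ⟨240, 18⟩⟩,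
    ⟨⟨120, 0⟩, ⟨8, 0⟩, 2, ⟨440, 18⟩⟩,
    ⟨⟨240, 0⟩, ⟨8, 2⟩, 2, ⟨640, 18⟩⟩,
    ⟨⟨0, 1⟩, ⟨4, 1⟩, 0, ⟨0, 5⟩⟩,
    ⟨⟨60, 16⟩, ⟨0, 1⟩, 0, ⟨100, 30⟩⟩,
    ⟨⟨60, 31⟩, ⟨6, 0⟩, 1, ⟨220, 64⟩⟩,
    ⟨⟨150, 31⟩, ⟨7, 0⟩, 2, ⟨490, 73⟩⟩,
    ⟨⟨255, 31⟩, ⟨7, 0⟩, 2, ⟨665, 73⟩⟩,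
    ⟨⟨0, 2⟩, ⟨8, 0⟩, 0, ⟨0, 10⟩⟩,
    ⟨⟨120, 2⟩, ⟨8, 2⟩, 0, ⟨200, 10⟩⟩,
    ⟨⟨240, 32⟩, ⟨8, 0⟩, 2, ⟨640, 78⟩⟩,
    ⟨⟨0, 3⟩, ⟨4, 1⟩, 1, ⟨120, 14⟩⟩,
    ⟨⟨60, 18⟩, ⟨0, 1⟩, 1, ⟨220, 39⟩⟩,
    ⟨⟨60, 33⟩, ⟨6, 0⟩, 0, ⟨100, 55⟩⟩,
    ⟨⟨150, 33⟩, ⟨7, 0⟩, 0, ⟨250, 55⟩⟩,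
    ⟨⟨255, 33⟩, ⟨7, 0⟩, 0, ⟨425, 55⟩⟩,
    ⟨⟨0, 4⟩, ⟨5, 0⟩, 1, ⟨120, 19⟩⟩,
    ⟨⟨75, 4⟩, ⟨5, 2⟩, 1, ⟨245, 19⟩⟩,
    ⟨⟨150, 34⟩, ⟨6, 0⟩, 2, ⟨490, 78⟩⟩,
    ⟨⟨240, 34⟩, ⟨8, 0⟩, 0, ⟨400, 60⟩⟩,
    ⟨⟨0, 5⟩, ⟨7, 0⟩, 1, ⟨120, 24⟩⟩,
    ⟨⟨105, 5⟩, ⟨7, 0⟩, 1, ⟨295, 24⟩⟩,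
    ⟨⟨210, 5⟩, ⟨8, 2⟩, 1, ⟨470, 24⟩⟩,
    ⟨⟨330, 35⟩, ⟨0, 1⟩, 0, ⟨550, 65⟩⟩,
    ⟨⟨330, 50⟩, ⟨2, -1⟩, 0, ⟨550, 90⟩⟩,
    ⟨⟨0, 6⟩, ⟨5, 0⟩, 2, ⟨240, 28⟩⟩,
    ⟨⟨75, 6⟩, ⟨5, 2⟩, 2, ⟨365, 28⟩⟩,
    ⟨⟨150, 36⟩, ⟨7, 0⟩, 1, ⟨370, 69⟩⟩,
    ⟨⟨255, 36⟩, ⟨7, 0⟩, 1, ⟨545, 69⟩⟩,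
    ⟨⟨0, 7⟩, ⟨8, 0⟩, 2, ⟨240, 33⟩⟩,
    ⟨⟨120, 7⟩, ⟨8, 2⟩, 2, ⟨440, 33⟩⟩,
    ⟨⟨240, 37⟩, ⟨6, 0⟩, 0, ⟨400, 65⟩⟩,
    ⟨⟨330, 37⟩, ⟨0, 1⟩, 1, ⟨670, 74⟩⟩,
    ⟨⟨330, 52⟩, ⟨2, -1⟩, 1, ⟨670, 99⟩⟩,
    ⟨⟨0, 8⟩, ⟨8, 0⟩, 2, ⟨240, 38⟩⟩,
    ⟨⟨120, 8⟩, ⟨8, 0⟩, 2, ⟨440, 38⟩⟩,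
    ⟨⟨240, 8⟩, ⟨8, 2⟩, 2, ⟨640, 38⟩⟩,
    ⟨⟨0, 9⟩, ⟨8, 0⟩, 0, ⟨0, 15⟩⟩,
    ⟨⟨120, 9⟩, ⟨8, 2⟩, 0, ⟨200, 15⟩⟩,
    ⟨⟨240, 39⟩, ⟨8, 0⟩, 2, ⟨640, 83⟩⟩,
    ⟨⟨0, 10⟩, ⟨7, 0⟩, 0, ⟨0, 20⟩⟩,
    ⟨⟨105, 10⟩, ⟨7, 0⟩, 0, ⟨175, 20⟩⟩,
    ⟨⟨210, 10⟩, ⟨8, 2⟩, 0, ⟨350, 20⟩⟩,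
    ⟨⟨330, 40⟩, ⟨2, 0⟩, 1, ⟨670, 79⟩⟩,
    ⟨⟨0, 11⟩, ⟨4, 1⟩, 1, ⟨120, 34⟩⟩,
    ⟨⟨60, 26⟩, ⟨6, 0⟩, 0, ⟨100, 50⟩⟩,
    ⟨⟨150, 26⟩, ⟨7, 0⟩, 0, ⟨250, 50⟩⟩,
    ⟨⟨255, 26⟩, ⟨7, 1⟩, 0, ⟨425, 50⟩⟩,
    ⟨⟨0, 12⟩, ⟨7, 0⟩, 1, ⟨120, 29⟩⟩,
    ⟨⟨105, 12⟩, ⟨7, 0⟩, 1, ⟨295, 29⟩⟩,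
    ⟨⟨210, 12⟩, ⟨8, 2⟩, 1, ⟨470, 29⟩⟩,
    ⟨⟨330, 42⟩, ⟨2, -1⟩, 0, ⟨550, 70⟩⟩,
    ⟨⟨0, 13⟩, ⟨4, 1⟩, 0, ⟨0, 25⟩⟩,
    ⟨⟨60, 28⟩, ⟨6, 0⟩, 1, ⟨220, 59⟩⟩,
    ⟨⟨150, 28⟩, ⟨7, 0⟩, 1, ⟨370, 59⟩⟩,
    ⟨⟨255, 28⟩, ⟨7, 0⟩, 1, ⟨545, 59⟩⟩,
    ⟨⟨0, 14⟩, ⟨5, 0⟩, 2, ⟨240, 48⟩⟩,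
    ⟨⟨75, 14⟩, ⟨5, 1⟩, 2, ⟨365, 48⟩⟩,
    ⟨⟨150, 29⟩, ⟨7, 0⟩, 1, ⟨370, 64⟩⟩,
    ⟨⟨255, 29⟩, ⟨7, 0⟩, 1, ⟨545, 64⟩⟩]

theorem ok4 : famOK ctx base fam4 = true := by decide +kernel

def cover : List (Aff × Aff) := [(⟨0, 0⟩, ⟨0, 30⟩), (⟨0, 30⟩, ⟨25, 30⟩), (⟨25, 30⟩, ⟨50, 30⟩), (⟨50, 30⟩, ⟨75, 30⟩), (⟨75, 30⟩, ⟨100, 30⟩), (⟨90, 38⟩, ⟨120, 9⟩)]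

theorem ok : allOK ctx base [fam0, fam1, fam2, fam3, fam4] cover = true := by
  have h : (cov ctx [fam0, fam1, fam2, fam3, fam4] cover ⟨0, 0⟩ && pos ctx ctx.k && stepOK ctx && baseOK ctx base) = true := by decide +kernel
  simp only [allOK, List.all_cons, List.all_nil, Bool.and_true, ok0, ok1, ok2, ok3, ok4, Bool.true_and]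
  exact h

end Pool.Agent.H57.QY.F9
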