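import Pool.Agent.H57.QY.Check
import Pool.Agent.H44.NQ.Basic

/-!
# Exact families of n-queens patterns: soundness of the checker
-/

set_option autoImplicit false

namespace Pool.Agent.H57.QY

open Pool.Agent.H44.NQ

/-- the colours and the arcs of a family -/
structure Fam where
  ints : List (Aff × Aff)
  arcs : List Arc

/-- the arc `A` is contained in the arc `B` of the base -/
def subArc (C : Ctx) (A B : Arc) : Bool :=
  let x := A.i.sub B.i
  let y : Aff := ⟨x.a / C.P, x.b / C.P⟩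
  decide (x.a % C.P = 0) && decide (x.b % C.P = 0) && nonneg C y &&
    nonneg C ((B.L.sub A.L).sub y) &&
    decide (A.G = (B.G.add (Aff.smul C.S y)).add (Aff.smul A.h C.k))

def arcOK (C : Ctx) (base : List Arc) (A : Arc) : Bool :=
  base.any (subArc C A) && nonneg C A.i && nonneg C A.L &&
    pos C ((C.n.sub A.i).sub (Aff.smul C.P (A.L.sub (Aff.cst 1)))) &&
    pos C (C.n.sub (Aff.smul (C.S + C.P) (A.L.sub (Aff.cst 1))))

/-- the conditions on the steps -/
def stepOK (C : Ctx) : Bool := decide (0 < C.P) && decide (0 < C.S) && decide (C.S ≠ C.P)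

def allChk (C : Ctx) (ints : List (Aff × Aff)) : List Arc → Bool
  | [] => true
  | A :: l => l.all (chk C ints A) && allChk C ints l

def total : List Arc → Aff
  | [] => ⟨0, 0⟩
  | A :: l => A.L.add (total l)

def famOK (C : Ctx) (base : List Arc) (F : Fam) : Bool :=
  F.arcs.all (arcOK C base) && allChk C F.ints F.arcs && decide (total F.arcs = C.n)

lemma self_sound {C : Ctx} (hP : 0 < C.P) (hS : 0 < C.S) (hSP : C.S ≠ C.P) {base : List Arc} {A : Arc}
    (h : arcOK C base A = true) {t : ℤ} (ht : C.t0 ≤ t)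
    {i g i' g' : ℤ} (hA : Row C.P C.S A t i g) (hB : Row C.P C.S A t i' g') :
    (i = i' → g = g') ∧ (i ≠ i' → ∀ c, Cmp (C.n.ev t) c i g i' g') := by
  simp only [arcOK, Bool.and_eq_true] at h
  have h9 := pos_sound h.2 ht
  simp only [Aff.ev_sub, Aff.ev_smul, Aff.ev_cst] at h9
  obtain ⟨s, h0, h1, h2, h3⟩ := hA
  obtain ⟨s', h0', h1', h2', h3'⟩ := hB
  refine ⟨fun he => ?_, fun hne c => ?_⟩
  · have h5 : C.P * s = C.P * s' := by linarith
    have : s = s' := mul_left_cancel₀ hP.ne' h5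
    rw [h3, h3', this]
  · have hs : s ≠ s' := fun e => hne (by rw [h2, h2', e])
    have key : ∀ m : ℤ, m ≠ 0 → |m| ≤ C.S + C.P → ∀ q : ℤ, m * (s - s') ≠ q * C.n.ev t := by
      intro m hm hm9 q hq
      have hd : |s - s'| ≤ A.L.ev t - 1 := by
        rw [abs_le]; constructor <;> omega
      have hu : |m * (s - s')| < C.n.ev t := by
        rw [abs_mul]
        have e1 : |m| * |s - s'| ≤ (C.S + C.P) * (A.L.ev t - 1) := mul_le_mul hm9 hd (abs_nonneg _) (by linarith)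
        linarith
      have hn : 0 < C.n.ev t := lt_of_le_of_lt (abs_nonneg _) hu
      have hq0 : q = 0 := by
        rw [hq, abs_mul, abs_of_pos hn] at hu
        have a1 : |q| < 1 := by
          by_contra hc
          nlinarith [mul_le_mul_of_nonneg_right (show (1 : ℤ) ≤ |q| by omega) hn.le]
        exact Int.abs_lt_one_iff.mp a1
      rw [hq0, zero_mul] at hq
      rcases mul_eq_zero.mp hq with h5 | h5
      · exact hm h5
      · exact hs (by linarith)
    have hS1 : |C.S| ≤ C.S + C.P := by rw [abs_of_pos hS]; linarith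
    have hS2 : |C.S + C.P| ≤ C.S + C.P := by rw [abs_of_pos (by linarith)]
    have hS3 : |C.S - C.P| ≤ C.S + C.P := by rw [abs_le]; constructor <;> linarith
    refine ⟨hne, fun q hq => key C.S hS.ne' hS1 q (by linear_combination hq - h3 + h3'), ?_⟩
    intro j j' _ _ _ _ hj hj'
    exact ⟨dia_plus (fun q hq => key (C.S + C.P) (by linarith) hS2 q
        (by linear_combination hq - h3 + h3' - h2 + h2')) hj hj',
      dia_minus (fun q hq => key (C.S - C.P) (sub_ne_zero.mpr hSP) hS3 q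
        (by linear_combination hq - h3 + h3' + h2 - h2')) hj hj'⟩

/-- the row `i` has the value `g` in the list of arcs -/
def RowL (P S : ℤ) (l : List Arc) (t i g : ℤ) : Prop := ∃ A ∈ l, Row P S A t i g

lemma list_cmp {C : Ctx} (hP : 0 < C.P) (hS : 0 < C.S) (hSP : C.S ≠ C.P) {base : List Arc} {ints : List (Aff × Aff)} {t : ℤ} (ht : C.t0 ≤ t)
    (hn : 0 ≤ C.n.ev t) : ∀ l : List Arc, l.all (arcOK C base) = true → allChk C ints l = true → ∀ i g i' g' : ℤ,
      RowL C.P C.S l t i g → RowL C.P C.S l t i' g' →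
      (i = i' → g = g') ∧ (i ≠ i' → ∀ c, Col C ints t c → Cmp (C.n.ev t) c i g i' g')
  | [], _, _, i, g, i', g', ⟨A, hA, _⟩, _ => by simp at hA
  | A :: l, ha, hc, i, g, i', g', ⟨B, hB, hBr⟩, ⟨D, hD, hDr⟩ => by
    simp only [List.all_cons, Bool.and_eq_true] at ha
    simp only [allChk, Bool.and_eq_true] at hc
    have hc1 : ∀ E ∈ l, chk C ints A E = true := List.all_eq_true.mp hc.1
    rcases List.mem_cons.mp hB with rfl | hB'
    · rcases List.mem_cons.mp hD with rfl | hD'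
      · obtain ⟨h1, h2⟩ := self_sound hP hS hSP ha.1 ht hBr hDr
        exact ⟨h1, fun h c _ => h2 h c⟩
      · exact ⟨fun h => absurd h (chk_rows hP (hc1 D hD') ht hBr hDr),
          fun _ c hcol => chk_sound hP (hc1 D hD') ht hn hcol hBr hDr⟩
    · rcases List.mem_cons.mp hD with rfl | hD'
      · exact ⟨fun h => absurd h.symm (chk_rows hP (hc1 B hB') ht hDr hBr),
          fun _ c hcol => (chk_sound hP (hc1 B hB') ht hn hcol hDr hBr).symm⟩
      · exact list_cmp hP hS hSP ht hn l ha.2 hc.2 i g i' g' ⟨B, hB', hBr⟩ ⟨D, hD', hDr⟩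

/-- the set of the rows of an arc -/
noncomputable def rowsA (P : ℤ) (A : Arc) (t : ℤ) : Finset ℤ := (Finset.Ico 0 (A.L.ev t)).image fun s => A.i.ev t + P * s

noncomputable def rowsL (P t : ℤ) : List Arc → Finset ℤ
  | [] => ∅
  | A :: l => rowsA P A t ∪ rowsL P t l

lemma mem_rowsA {P : ℤ} (S : ℤ) {A : Arc} {t i : ℤ} : i ∈ rowsA P A t ↔ ∃ g, Row P S A t i g := by
  simp only [rowsA, Finset.mem_image, Finset.mem_Ico, Row]
  constructor
  · rintro ⟨s, ⟨h0, h1⟩, h2⟩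
    exact ⟨A.G.ev t + S * s, s, h0, h1, h2.symm, rfl⟩
  · rintro ⟨g, s, h0, h1, h2, _⟩
    exact ⟨s, ⟨h0, h1⟩, h2.symm⟩

lemma mem_rowsL {P : ℤ} (S : ℤ) {t i : ℤ} : ∀ l : List Arc, i ∈ rowsL P t l ↔ ∃ g, RowL P S l t i g
  | [] => by simp [rowsL, RowL]
  | A :: l => by
    rw [rowsL, Finset.mem_union, mem_rowsA S, mem_rowsL S l]
    constructor
    · rintro (⟨g, h⟩ | ⟨g, B, hB, h⟩)
      · exact ⟨g, A, List.mem_cons_self, h⟩
      · exact ⟨g, B, List.mem_cons_of_mem _ hB, h⟩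
    · rintro ⟨g, B, hB, h⟩
      rcases List.mem_cons.mp hB with rfl | hB'
      · exact Or.inl ⟨g, h⟩
      · exact Or.inr ⟨g, B, hB', h⟩

lemma card_rowsA {P : ℤ} (hP : 0 < P) {A : Arc} {t : ℤ} (h : 0 ≤ A.L.ev t) :
    ((rowsA P A t).card : ℤ) = A.L.ev t := by
  rw [rowsA, Finset.card_image_of_injective _ (fun a b hab => by
    have h1 : A.i.ev t + P * a = A.i.ev t + P * b := hab
    exact mul_left_cancel₀ hP.ne' (by linarith)), Int.card_Ico]
  simp [h]

lemma card_rowsL {C : Ctx} (hP : 0 < C.P) {base : List Arc} {ints : List (Aff × Aff)} {t : ℤ} (ht : C.t0 ≤ t) :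
    ∀ l : List Arc, l.all (arcOK C base) = true → allChk C ints l = true →
      ((rowsL C.P t l).card : ℤ) = (total l).ev t
  | [], _, _ => by simp [rowsL, total, Aff.ev]
  | A :: l, ha, hc => by
    simp only [List.all_cons, Bool.and_eq_true] at ha
    simp only [allChk, Bool.and_eq_true] at hc
    have hL : 0 ≤ A.L.ev t := by
      have h1 := ha.1
      simp only [arcOK, Bool.and_eq_true] at h1
      exact nonneg_sound h1.1.1.2 ht
    have hd : Disjoint (rowsA C.P A t) (rowsL C.P t l) := by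
      rw [Finset.disjoint_left]
      intro i h1 h2
      obtain ⟨g, hg⟩ := (mem_rowsA C.S).mp h1
      obtain ⟨g', B, hB, hg'⟩ := (mem_rowsL C.S l).mp h2
      exact chk_rows hP (List.all_eq_true.mp hc.1 B hB) ht hg hg' rfl
    rw [rowsL, Finset.card_union_of_disjoint hd, total, Aff.ev_add]
    push_cast
    rw [card_rowsA hP hL, card_rowsL hP ht l ha.2 hc.2]

lemma row_mem {C : Ctx} (hP : 0 < C.P) {base : List Arc} {A : Arc} (h : arcOK C base A = true) {t : ℤ}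
    (ht : C.t0 ≤ t) {i g : ℤ} (hr : Row C.P C.S A t i g) :
    0 ≤ i ∧ i < C.n.ev t ∧ ∃ e g₀ : ℤ, RowL C.P C.S base t i g₀ ∧ g = g₀ + e * C.k.ev t := by
  simp only [arcOK, Bool.and_eq_true] at h
  obtain ⟨⟨⟨⟨h1, h3⟩, h4⟩, h5⟩, h6⟩ := h
  obtain ⟨s, h0, hs, hi, hg⟩ := hr
  have e3 := nonneg_sound h3 ht
  have e5 := pos_sound h5 ht
  simp only [Aff.ev_sub, Aff.ev_smul, Aff.ev_cst] at e5
  have hs1 := mul_le_mul_of_nonneg_left (show s ≤ A.L.ev t - 1 by omega) hP.le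
  have hs0 := mul_nonneg hP.le h0
  refine ⟨by linarith, by linarith, A.h, ?_⟩
  obtain ⟨B, hB, h2⟩ := List.any_eq_true.mp h1
  simp only [subArc, Bool.and_eq_true, decide_eq_true_eq] at h2
  obtain ⟨⟨⟨⟨ha, hb⟩, hc⟩, hd⟩, he⟩ := h2
  obtain ⟨u, hu⟩ := Int.dvd_of_emod_eq_zero ha
  obtain ⟨v, hv⟩ := Int.dvd_of_emod_eq_zero hb
  have hu' : (A.i.sub B.i).a / C.P = u := by rw [hu]; exact Int.mul_ediv_cancel_left _ hP.ne'
  have hv' : (A.i.sub B.i).b / C.P = v := by rw [hv]; exact Int.mul_ediv_cancel_left _ hP.ne'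
  have hx : A.i.ev t - B.i.ev t = C.P * (u * t + v) := by
    rw [← Aff.ev_sub]
    simp only [Aff.ev]
    rw [hu, hv]
    ring
  have hc' := nonneg_sound hc ht
  have hd' := nonneg_sound hd ht
  rw [hu', hv'] at hd'
  simp only [Aff.ev_sub] at hc' hd'
  have hd'' : 0 ≤ B.L.ev t - A.L.ev t - (u * t + v) := hd'
  have hw : 0 ≤ u * t + v := by
    rw [hu', hv'] at hc'
    exact hc'
  refine ⟨B.G.ev t + C.S * (u * t + v + s), ⟨B, hB, u * t + v + s, by linarith, by linarith, ?_, rfl⟩, ?_⟩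
  · rw [hi]
    linear_combination hx
  · rw [hg, he, hu', hv']
    simp only [Aff.ev_add, Aff.ev_smul]
    simp only [Aff.ev]
    ring

/-- the arcs of the base have no common rows -/
def baseOK (C : Ctx) : List Arc → Bool
  | [] => true
  | A :: l => l.all (rowsOK C A) && baseOK C l

lemma rows_ne {C : Ctx} (hP : 0 < C.P) {A B : Arc} (hr : rowsOK C A B = true) {t : ℤ}
    (ht : C.t0 ≤ t) {i g i' g' : ℤ} (hA : Row C.P C.S A t i g) (hB : Row C.P C.S B t i' g') : i ≠ i' := by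
  obtain ⟨s, h0, h1, h2, h3⟩ := hA
  obtain ⟨s', h0', h1', h2', h3'⟩ := hB
  intro he
  have he1 : A.i.ev t - B.i.ev t = C.P * (s' - s) := by rw [mul_sub]; linarith
  simp only [rowsOK, Bool.or_eq_true] at hr
  rcases hr with (hr | hr) | hr
  · apply ndiv_sound hr t
    simp only [Aff.ev_sub]
    rw [he1]
    exact dvd_mul_right _ _
  · have h4 := pos_sound hr ht
    simp only [Aff.ev_sub, Aff.ev_smul, Aff.ev_cst] at h4
    have h5 := mul_le_mul_of_nonneg_left (show s' - s ≤ B.L.ev t - 1 by omega) hP.le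
    linarith
  · have h4 := pos_sound hr ht
    simp only [Aff.ev_sub, Aff.ev_smul, Aff.ev_cst] at h4
    have h5 := mul_le_mul_of_nonneg_left (show -(A.L.ev t - 1) ≤ s' - s by omega) hP.le
    linarith [mul_neg C.P (A.L.ev t - 1), neg_mul C.P (A.L.ev t - 1)]

lemma base_unique {C : Ctx} (hP : 0 < C.P) {t : ℤ} (ht : C.t0 ≤ t) : ∀ l : List Arc, baseOK C l = true →
    ∀ i g g' : ℤ, RowL C.P C.S l t i g → RowL C.P C.S l t i g' → g = g'
  | [], _, i, g, g', ⟨A, hA, _⟩, _ => by simp at hA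
  | A :: l, h, i, g, g', ⟨B, hB, hBr⟩, ⟨D, hD, hDr⟩ => by
    simp only [baseOK, Bool.and_eq_true] at h
    have hc1 : ∀ E ∈ l, rowsOK C A E = true := List.all_eq_true.mp h.1
    rcases List.mem_cons.mp hB with rfl | hB'
    · rcases List.mem_cons.mp hD with rfl | hD'
      · obtain ⟨s, h0, h1, h2, h3⟩ := hBr
        obtain ⟨s', h0', h1', h2', h3'⟩ := hDr
        have h5 : C.P * s = C.P * s' := by linarith
        have : s = s' := mul_left_cancel₀ hP.ne' h5
        rw [h3, h3', this]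
      · exact absurd rfl (rows_ne hP (hc1 D hD') ht hBr hDr)
    · rcases List.mem_cons.mp hD with rfl | hD'
      · exact absurd rfl (rows_ne hP (hc1 B hB') ht hDr hBr)
      · exact base_unique hP ht l h.2 i g g' ⟨B, hB', hBr⟩ ⟨D, hD', hDr⟩

lemma fam_cover {C : Ctx} (hP : 0 < C.P) {base : List Arc} {F : Fam} (h : famOK C base F = true) {t : ℤ} (ht : C.t0 ≤ t) {i : ℤ} (h0 : 0 ≤ i)
    (h1 : i < C.n.ev t) : ∃ g, RowL C.P C.S F.arcs t i g := by
  simp only [famOK, Bool.and_eq_true, decide_eq_true_eq] at h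
  obtain ⟨⟨ha, hc⟩, htot⟩ := h
  have hcard := card_rowsL hP ht F.arcs ha hc
  rw [htot] at hcard
  have hsub : rowsL C.P t F.arcs ⊆ Finset.Ico 0 (C.n.ev t) := by
    intro x hx
    obtain ⟨g, A, hA, hr⟩ := (mem_rowsL C.S F.arcs).mp hx
    obtain ⟨e1, e2, _⟩ := row_mem hP (List.all_eq_true.mp ha A hA) ht hr
    exact Finset.mem_Ico.mpr ⟨e1, e2⟩
  have heq : rowsL C.P t F.arcs = Finset.Ico 0 (C.n.ev t) := by
    apply Finset.eq_of_subset_of_card_le hsub
    rw [Int.card_Ico]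
    have : (((rowsL C.P t F.arcs).card : ℕ) : ℤ) = C.n.ev t := hcard
    omega
  exact (mem_rowsL C.S F.arcs).mp (by rw [heq]; exact Finset.mem_Ico.mpr ⟨h0, h1⟩)

/-- the intervals of the list cover `[s, k)` and belong to the families -/
def cov (C : Ctx) (fams : List Fam) : List (Aff × Aff) → Aff → Bool
  | [], s => nonneg C (s.sub C.k)
  | p :: l, s => nonneg C (s.sub p.1) && fams.any (fun F => F.ints.any fun r => decide (r = p)) && cov C fams l p.2

lemma cov_sound {C : Ctx} {fams : List Fam} {t : ℤ} (ht : C.t0 ≤ t) : ∀ (l : List (Aff × Aff)) (s : Aff),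
    cov C fams l s = true → ∀ c : ℤ, s.ev t ≤ c → c < C.k.ev t →
      ∃ F ∈ fams, ∃ p ∈ F.ints, p.1.ev t ≤ c ∧ c < p.2.ev t
  | [], s, h, c, h1, h2 => by
    have h3 := nonneg_sound h ht
    simp only [Aff.ev_sub] at h3
    omega
  | p :: l, s, h, c, h1, h2 => by
    simp only [cov, Bool.and_eq_true] at h
    obtain ⟨⟨h3, h4⟩, h5⟩ := h
    have h3' := nonneg_sound h3 ht
    simp only [Aff.ev_sub] at h3'
    by_cases hc : c < p.2.ev t
    · obtain ⟨F, hF, h6⟩ := List.any_eq_true.mp h4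
      obtain ⟨r, hr, h7⟩ := List.any_eq_true.mp h6
      have h8 : r = p := by simpa using h7
      subst h8
      exact ⟨F, hF, r, hr, by omega, hc⟩
    · exact cov_sound ht l p.2 h5 c (by omega) h2

/-- the whole check -/
def allOK (C : Ctx) (base : List Arc) (fams : List Fam) (l : List (Aff × Aff)) : Bool :=
  fams.all (famOK C base) && cov C fams l ⟨0, 0⟩ && pos C C.k && stepOK C && baseOK C base

theorem packs_of {C : Ctx} {base : List Arc} {fams : List Fam} {l : List (Aff × Aff)} (h : allOK C base fams l = true) {t : ℤ}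
    (ht : C.t0 ≤ t) {N : ℕ} (hN : (N : ℤ) = C.n.ev t) : Packs N N := by
  simp only [allOK, stepOK, Bool.and_eq_true, decide_eq_true_eq] at h
  obtain ⟨⟨⟨⟨hf, hcov⟩, hk⟩, ⟨hP, hS⟩, hSP⟩, hbase⟩ := h
  have hkp := pos_sound hk ht
  have hn3 := C.n_ev t
  have hnp : 0 < C.n.ev t := by linarith
  have hNp : 0 < (N : ℤ) := by linarith
  have hfam : ∀ F ∈ fams, famOK C base F = true := List.all_eq_true.mp hf
  -- the family of a colour
  have hF : ∀ c : Fin N, ∃ F ∈ fams, ∃ p ∈ F.ints, p.1.ev t ≤ ((c : ℕ) : ℤ) % C.k.ev t ∧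
      ((c : ℕ) : ℤ) % C.k.ev t < p.2.ev t := by
    intro c
    refine cov_sound ht l ⟨0, 0⟩ hcov _ ?_ (Int.emod_lt_of_pos _ hkp)
    have h0 := Int.emod_nonneg ((c : ℕ) : ℤ) hkp.ne'
    show (0 : ℤ) * t + 0 ≤ _
    linarith
  have hFm : ∀ m : ℤ, ∃ F : Fam, (∃ c : Fin N, ((c : ℕ) : ℤ) % C.k.ev t = m) →
      F ∈ fams ∧ ∃ p ∈ F.ints, p.1.ev t ≤ m ∧ m < p.2.ev t := by
    intro m
    by_cases hm : ∃ c : Fin N, ((c : ℕ) : ℤ) % C.k.ev t = m
    · obtain ⟨c, hc⟩ := hm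
      obtain ⟨F, h1, h2⟩ := hF c
      rw [hc] at h2
      exact ⟨F, fun _ => ⟨h1, h2⟩⟩
    · exact ⟨⟨[], []⟩, fun h => absurd h hm⟩
  choose Fc hFc using hFm
  have hG : ∀ (m : ℤ) (i : Fin N), ∃ g : ℤ, (∃ c : Fin N, ((c : ℕ) : ℤ) % C.k.ev t = m) →
      RowL C.P C.S (Fc m).arcs t ((i : ℕ) : ℤ) g := by
    intro m i
    by_cases hm : ∃ c : Fin N, ((c : ℕ) : ℤ) % C.k.ev t = m
    · have hi : ((i : ℕ) : ℤ) < C.n.ev t := by
        rw [← hN]
        exact_mod_cast i.2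
      obtain ⟨g, hg⟩ := fam_cover hP (hfam _ (hFc m hm).1) ht (Int.natCast_nonneg (i : ℕ)) hi
      exact ⟨g, fun _ => hg⟩
    · exact ⟨0, fun h => absurd h hm⟩
  choose gf hgf using hG
  have hcol : ∀ c : Fin N, Col C (Fc (((c : ℕ) : ℤ) % C.k.ev t)).ints t ((c : ℕ) : ℤ) := by
    intro c
    obtain ⟨_, p, hp, h1, h2⟩ := hFc _ ⟨c, rfl⟩
    have hc : ((c : ℕ) : ℤ) < C.n.ev t := by
      rw [← hN]
      exact_mod_cast c.2
    have hdm := Int.emod_add_mul_ediv ((c : ℕ) : ℤ) (C.k.ev t)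
    set q := ((c : ℕ) : ℤ) / C.k.ev t with hq
    have hm0 := Int.emod_nonneg ((c : ℕ) : ℤ) hkp.ne'
    have hm1 := Int.emod_lt_of_pos ((c : ℕ) : ℤ) hkp
    have hq0 : 0 ≤ q := Int.ediv_nonneg (Int.natCast_nonneg _) hkp.le
    have hq3 : q < 3 := by
      by_contra hcon
      have : C.k.ev t * 3 ≤ C.k.ev t * q := mul_le_mul_of_nonneg_left (by omega) hkp.le
      linarith
    refine ⟨p, hp, q, by omega, by nlinarith, by nlinarith⟩
  have hlt : ∀ x : ℤ, (x % (N : ℤ)).toNat < N := by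
    intro x
    have h1 := Int.emod_nonneg x hNp.ne'
    have h2 := Int.emod_lt_of_pos x hNp
    omega
  refine packs_iff.mpr ⟨fun c i => ⟨((((c : ℕ) : ℤ) - gf (((c : ℕ) : ℤ) % C.k.ev t) i) % (N : ℤ)).toNat, hlt _⟩, ?_, ?_⟩
  · intro c i i' hne
    set m := ((c : ℕ) : ℤ) % C.k.ev t with hm
    have hFm := hFc m ⟨c, rfl⟩
    have hok := hfam _ hFm.1
    simp only [famOK, Bool.and_eq_true] at hok
    have hne' : ((i : ℕ) : ℤ) ≠ ((i' : ℕ) : ℤ) := by
      intro h
      exact hne (Fin.ext (by exact_mod_cast h))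
    have hcmp := (list_cmp hP hS hSP ht hnp.le _ hok.1.1 hok.1.2 _ _ _ _ (hgf m i ⟨c, rfl⟩) (hgf m i' ⟨c, rfl⟩)).2 hne'
      _ (hcol c)
    have hj : ∀ x : ℤ, (((x % (N : ℤ)).toNat : ℕ) : ℤ) = x % (N : ℤ) := fun x =>
      Int.toNat_of_nonneg (Int.emod_nonneg x hNp.ne')
    have hex : ∀ x : ℤ, ∃ q, x % (N : ℤ) = x + q * C.n.ev t := by
      intro x
      refine ⟨-(x / (N : ℤ)), ?_⟩
      have := Int.emod_add_mul_ediv x (N : ℤ)
      rw [← hN]
      linarith [neg_mul (x / (N : ℤ)) (N : ℤ), mul_comm (N : ℤ) (x / (N : ℤ))]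
    have hb : ∀ x : ℤ, 0 ≤ x % (N : ℤ) ∧ x % (N : ℤ) < C.n.ev t := fun x =>
      ⟨Int.emod_nonneg x hNp.ne', by rw [← hN]; exact Int.emod_lt_of_pos x hNp⟩
    refine ⟨?_, ?_⟩
    · intro he
      have he' := congrArg (fun z : Fin N => ((z : ℕ) : ℤ)) he
      simp only [hj] at he'
      obtain ⟨q, hq⟩ := hex (((c : ℕ) : ℤ) - gf m i)
      obtain ⟨q', hq'⟩ := hex (((c : ℕ) : ℤ) - gf m i')
      rw [hq, hq'] at he'
      exact hcmp.col (q - q') (by rw [sub_mul]; linarith)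
    · have hd := hcmp.dia _ _ (hb _).1 (hb _).2 (hb _).1 (hb _).2 (hex (((c : ℕ) : ℤ) - gf m i))
        (hex (((c : ℕ) : ℤ) - gf m i'))
      simp only [hj]
      exact hd
  · intro c c' hne i he
    have hj : ∀ x : ℤ, (((x % (N : ℤ)).toNat : ℕ) : ℤ) = x % (N : ℤ) := fun x =>
      Int.toNat_of_nonneg (Int.emod_nonneg x hNp.ne')
    have he' := congrArg (fun z : Fin N => ((z : ℕ) : ℤ)) he
    simp only [hj] at he'
    have hdvd : (N : ℤ) ∣ (((c : ℕ) : ℤ) - gf (((c : ℕ) : ℤ) % C.k.ev t) i) -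
        (((c' : ℕ) : ℤ) - gf (((c' : ℕ) : ℤ) % C.k.ev t) i) :=
      Int.dvd_of_emod_eq_zero (Int.emod_eq_emod_iff_emod_sub_eq_zero.mp he')
    have hbeta : ∀ c : Fin N, ∃ e g₀ : ℤ, RowL C.P C.S base t ((i : ℕ) : ℤ) g₀ ∧
        gf (((c : ℕ) : ℤ) % C.k.ev t) i = g₀ + e * C.k.ev t := by
      intro c
      obtain ⟨A, hA, hr⟩ := hgf (((c : ℕ) : ℤ) % C.k.ev t) i ⟨c, rfl⟩
      have hok := hfam _ (hFc (((c : ℕ) : ℤ) % C.k.ev t) ⟨c, rfl⟩).1
      simp only [famOK, Bool.and_eq_true] at hok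
      exact (row_mem hP (List.all_eq_true.mp hok.1.1 A hA) ht hr).2.2
    obtain ⟨e, g₀, hg₀, he1⟩ := hbeta c
    obtain ⟨e', g₁, hg₁, he2⟩ := hbeta c'
    have hg01 := base_unique hP ht base hbase _ _ _ hg₀ hg₁
    have hk1 : C.k.ev t ∣ ((c : ℕ) : ℤ) - ((c' : ℕ) : ℤ) := by
      obtain ⟨d, hd⟩ := hdvd
      rw [he1, he2, hg01] at hd
      refine ⟨3 * d + e - e', ?_⟩
      rw [hN, hn3] at hd
      linear_combination hd
    have hmm : ((c : ℕ) : ℤ) % C.k.ev t = ((c' : ℕ) : ℤ) % C.k.ev t :=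
      Int.emod_eq_emod_iff_emod_sub_eq_zero.mpr (Int.emod_eq_zero_of_dvd hk1)
    rw [hmm] at hdvd
    have h1 : (N : ℤ) ∣ ((c : ℕ) : ℤ) - ((c' : ℕ) : ℤ) := by
      have : (((c : ℕ) : ℤ) - gf (((c' : ℕ) : ℤ) % C.k.ev t) i) -
        (((c' : ℕ) : ℤ) - gf (((c' : ℕ) : ℤ) % C.k.ev t) i) = ((c : ℕ) : ℤ) - ((c' : ℕ) : ℤ) := by ring
      rw [this] at hdvd
      exact hdvd
    have h2 : ((c : ℕ) : ℤ) = ((c' : ℕ) : ℤ) := by
      have hc := c.2
      have hc' := c'.2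
      have := Int.emod_eq_emod_iff_emod_sub_eq_zero.mpr (Int.emod_eq_zero_of_dvd h1)
      rw [Int.emod_eq_of_lt (Int.natCast_nonneg _) (by exact_mod_cast hc),
        Int.emod_eq_of_lt (Int.natCast_nonneg _) (by exact_mod_cast hc')] at this
      exact this
    exact hne (Fin.ext (by exact_mod_cast h2))

theorem q_eq {C : Ctx} {base : List Arc} {fams : List Fam} {l : List (Aff × Aff)} (h : allOK C base fams l = true) {t : ℤ}
    (ht : C.t0 ≤ t) {N : ℕ} (hN : (N : ℤ) = C.n.ev t) : Q N = N := by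
  have hk := h
  simp only [allOK, Bool.and_eq_true] at hk
  have hkp := pos_sound hk.1.1.2 ht
  have hn3 := C.n_ev t
  have h1 : 1 ≤ N := by
    have : 0 < (N : ℤ) := by linarith
    omega
  exact le_antisymm (q_le h1) (le_q h1 (packs_of h ht hN))

end Pool.Agent.H57.QY
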